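import Pool.Agent.Lib.SmNJ.XOk
import Pool.Agent.Lib.SmBU.Pnt

/-!
SMITH-U: the prime system of the places of `K` outside of a finite set satisfies `PSys.Ok`.
-/

set_option autoImplicit false

open Polynomial

namespace Pool.Agent.SmNJ

open Pool.Agent.BSDFF Pool.Agent.GBC Pool.Agent.GBU Pool.Agent.SmB Pool.Agent.SmBU
open Pool.Agent.SmN (PSys)
open Pool.Agent.SmN.Ch (XX)

/-- **The prime system of the places outside of a finite set.** `k` is algebraically closed in
`K`. -/
theorem xok (k K : Type) [Field k] [Finite k] [Field K] [Algebra k K] [Algebra (RatFunc k) K]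
    [IsScalarTower k (RatFunc k) K] [FiniteDimensional (RatFunc k) K]
    [Algebra.IsSeparable (RatFunc k) K]
    (hk : ∀ x : K, IsIntegral k x → ∃ c : k, algebraMap k K c = x)
    {T : Set (Place k K)} (hT : T.Finite) : (XX T Place.degree).Ok (Nat.card k) := by
  let : Algebra k[X] K := ((algebraMap (RatFunc k) K).comp (algebraMap k[X] (RatFunc k))).toAlgebra
  have h1 : IsScalarTower k[X] (RatFunc k) K := IsScalarTower.of_algebraMap_eq' rfl
  have h2 : IsScalarTower k k[X] K := IsScalarTower.of_algebraMap_eq fun x => by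
    rw [IsScalarTower.algebraMap_apply k[X] (RatFunc k) K,
      ← IsScalarTower.algebraMap_apply k k[X] (RatFunc k),
      ← IsScalarTower.algebraMap_apply k (RatFunc k) K]
  obtain ⟨C, hC⟩ := pnt_fin' (k := k) (K := K) hk
  refine xok_of ⟨C, fun N hN S hS => (hC N (by omega) S hS).trans ?_⟩ hT
  refine mul_le_mul_of_nonneg_left (Real.sqrt_le_sqrt ?_) (Nat.cast_nonneg _)
  have hq : (1 : ℝ) ≤ Nat.card k := by exact_mod_cast Nat.card_pos (α := k)
  exact pow_le_pow_right₀ hq (Nat.le_succ N)

end Pool.Agent.SmNJ
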