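import Pool.Agent.Lib.SmNJ.Sys
import Pool.Agent.Lib.SmJ.E.Good
import Pool.Agent.Lib.SmJ.E.FinLoc
import Pool.Agent.Lib.SM.E.FinCl
import Pool.Agent.Lib.SmD.ValIner

/-!
SMITH for Jacobians without rational 2-torsion (MP_950c68_ag), the fields `good_triv` and `fin_inv`
for `sysN k K Ω a`: at a good place the inertia group acts trivially on the 2-power torsion, and at
every place only finitely many points of the 2-power torsion are fixed up to sign by the
decomposition group.
-/

set_option autoImplicit false

open Polynomial IsLocalRing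

namespace Pool.Agent.SmNJ

open Pool.Agent.SmJ Pool.Agent.Lib.SmD Pool.Agent.SmithE
open Pool.Agent.BSDFF Pool.Agent.GBU

section gen

/-- The residue fields of `Ω` are infinite. -/
theorem infinite_resN (k K : Type) {Ω : Type} [Field k] [Finite k] [Field K] [Algebra k K]
    [Field Ω] [Algebra K Ω] [IsSepClosed Ω] (w : ValuationSubring Ω) :
    Infinite (ResidueField w) := by
  obtain ⟨p, hp⟩ := CharP.exists k
  have hpp : Fact p.Prime := by
    rcases CharP.char_is_prime_or_zero k p with h | h
    · exact ⟨h⟩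
    · exfalso
      subst h
      have : CharZero k := CharP.charP_to_charZero k
      exact not_finite k
  have : CharP K p := charP_of_injective_algebraMap (algebraMap k K).injective p
  have : CharP Ω p := charP_of_injective_algebraMap (algebraMap K Ω).injective p
  exact infinite_res p w

end gen

section fix

variable {K Ω : Type} [Field K] [Field Ω] [Algebra K Ω] {g : ℕ}
  {a : Fin (2 * g + 1) → Ω} [RtG K a] [HypA a] {w : ValuationSubring Ω}

omit [HypA a] in
/-- At a place where the roots are integral with different residues, the inertia group fixes the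
roots. -/
theorem iner_root (ha : ∀ i, w.valuation (a i) ≤ 1)
    (hab : ∀ i j, i ≠ j → w.valuation (a i - a j) = 1) {s : Ω ≃ₐ[K] Ω} (hs : s ∈ iner K w)
    (i : Fin (2 * g + 1)) : s (a i) = a i := by
  rw [← pm_spec K a s i]
  by_contra hne
  have hij : pm K a s i ≠ i := fun h => hne (congrArg a h)
  have h1 := hab _ _ hij
  have h2 := hs.2 (a i) ((w.valuation_le_one_iff _).mp (ha i))
  rw [← pm_spec K a s i, h1] at h2
  exact lt_irrefl _ h2

/-- The inertia group acts trivially on the 2-power torsion. -/
theorem iner_triv [IsSepClosed Ω] [Infinite Ω] [Infinite (ResidueField w)]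
    (h2 : w.valuation 2 = 1) (ha : ∀ i, w.valuation (a i) ≤ 1)
    (hab : ∀ i j, i ≠ j → w.valuation (a i - a j) = 1) {s : Ω ≃ₐ[K] Ω} (hs : s ∈ iner K w)
    (Q : VN a) : s • Q = Q := by
  obtain ⟨j, hj⟩ := Q.2
  exact Subtype.ext (good_fix_a h2 ha hab hs (iner_root ha hab hs) hj)

end fix

section main

variable {k K Ω : Type} [Field k] [Finite k] [Field K] [Algebra k K] [Algebra (RatFunc k) K]
  [IsScalarTower k (RatFunc k) K] [FiniteDimensional (RatFunc k) K] [Field Ω] [Algebra K Ω]
  [IsSepClosure K Ω] {g : ℕ} (a : Fin (2 * g + 1) → Ω) [RtG K a] [HypA a]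

/-- The inertia group at a good place acts trivially on the 2-power torsion. -/
theorem good_triv_iner (h2 : (2 : k) ≠ 0) {v : Place k K} (hv : v ∈ (sysN k K Ω a).good)
    {s : Ω ≃ₐ[K] Ω} (hs : s ∈ iner K (abK Ω v)) (Q : VN a) : s • Q = Q := by
  have : IsSepClosed Ω := IsSepClosure.sep_closed K
  have : Infinite (RatFunc k) :=
    Infinite.of_injective _ (IsFractionRing.injective k[X] (RatFunc k))
  have : Infinite K := Infinite.of_injective _ (algebraMap (RatFunc k) K).injective
  have : Infinite Ω := Infinite.of_injective _ (algebraMap K Ω).injective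
  have := infinite_resN k K (abK Ω v)
  obtain ⟨π, hπ⟩ := IsDiscreteValuationRing.exists_irreducible v.ring
  have hL := locHyp_of_below h2 v (abK Ω v) (below_abK Ω v) hπ
  exact iner_triv hL.two hv.1 hv.2 hs Q

/-- The field `good_triv` of `Sys.Ok`. -/
theorem good_trivN (h2 : (2 : k) ≠ 0) (v : Place k K) (hv : v ∈ (sysN k K Ω a).good)
    (Q : VN a) : (sysN k K Ω a).sg v • Q = Q := by
  have : IsGalois K Ω := inferInstance
  exact good_triv_iner a h2 hv (sgK_iner h2 v) Q

/-- Finitely many torsion points are fixed up to sign by the decomposition group. -/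
theorem fin_pmN (h2 : (2 : k) ≠ 0) (v : Place k K) :
    {Q : VN a | ∀ s ∈ dvK Ω v, s • Q = Q ∨ s • Q = -Q}.Finite := by
  have : IsGalois K Ω := inferInstance
  have : IsSepClosed Ω := IsSepClosure.sep_closed K
  have : Infinite (RatFunc k) :=
    Infinite.of_injective _ (IsFractionRing.injective k[X] (RatFunc k))
  have : Infinite K := Infinite.of_injective _ (algebraMap (RatFunc k) K).injective
  have := infinite_resN k K (abK Ω v)
  obtain ⟨π, hπ⟩ := IsDiscreteValuationRing.exists_irreducible v.ring
  have hL := locHyp_of_below h2 v (abK Ω v) (below_abK Ω v) hπ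
  have hval : ∀ x : Ω, x ≠ 0 → (∀ s ∈ dec K (abK Ω v), s x = x) →
      ∃ n : ℤ, (abK Ω v).valuation x = (abK Ω v).valuation (algebraMap K Ω (π : K)) ^ n :=
    fun x hx hfix => value_iner hL hx fun σ hσ => hfix σ (iner_le_dec _ _ hσ)
  have hmain := fin_loc (w := abK Ω v) (a := a) hL (fin_classes hL (phK_frob v) hval)
    (fun s _ => map_ffN K a s)
  refine Set.Finite.of_injOn (f := fun Q : VN a => (Q : JJ (ff a))) ?_
    Subtype.val_injective.injOn hmain
  intro Q hQ
  refine ⟨Q.2, fun s hs => ?_⟩
  rcases hQ s hs with h | h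
  · exact Or.inl (congrArg Subtype.val h)
  · exact Or.inr (congrArg Subtype.val h)

/-- The field `fin_inv` of `Sys.Ok`. -/
theorem fin_invN (h2 : (2 : k) ≠ 0) (chi : (Ω ≃ₐ[K] Ω) → ZMod 2) (v : Place k K) :
    {Q : VN a | ∀ s ∈ (sysN k K Ω a).D v, SmN.dl chi Q s = 0}.Finite := by
  refine (fin_pmN a h2 v).subset fun Q hQ s hs => ?_
  have h : SmN.sgn (chi s) • (s • Q) - Q = 0 := hQ s hs
  rw [sub_eq_zero] at h
  unfold SmN.sgn at h
  split_ifs at h with h0
  · left
    rwa [one_smul] at h
  · right
    rw [neg_one_smul] at h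
    exact neg_eq_iff_eq_neg.mp h

end main

end Pool.Agent.SmNJ
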