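import Pool.Agent.Lib.SmNJ.MultB
import Pool.Agent.Lib.SmD.ResMap

/-!
# SMITH for Jacobians without rational 2-torsion, parity: nodes in terms of the polynomial

`exists_node`: if `f` is a monic polynomial over the valuation ring of `v` and its reduction is
`(X - c) ^ 2 h` with `h` separable and `h (c) ≠ 0`, then two roots `a i`, `a j` of `f` coincide modulo
the maximal ideal above `v`, and `Node a v i j`.
`exists_flip`: then `v` is a flip place.
-/

set_option autoImplicit false

open Polynomial IsLocalRing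

namespace Pool.Agent.SmNJ

open Pool.Agent.SmJ
open Pool.Agent.BSDFF Pool.Agent.GBU Pool.Agent.Lib.SmD

section res

variable {Ω : Type} [Field Ω] (w : ValuationSubring Ω) {ι : Type} [Fintype ι]

/-- two factors of a product of linear polynomials -/
theorem exists_pair [DecidableEq ι] {F : Type} [Field F] {A : ι → F} {h : F[X]} {c : F}
    (hA : ∏ l, (X - C (A l)) = (X - C c) ^ 2 * h) (hsep : h.Separable) (hc : h.eval c ≠ 0) :
    ∃ i j, i ≠ j ∧ A i = c ∧ A j = c ∧ ∀ r, r ≠ i → r ≠ j → ∀ s, s ≠ r → A r ≠ A s := by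
  have hroot : ∀ (S : Finset ι) (p : F[X]), ∏ l ∈ S, (X - C (A l)) = (X - C c) * p →
      ∃ i ∈ S, A i = c := by
    intro S p hS
    have h1 := congrArg (Polynomial.eval c) hS
    rw [eval_mul, eval_sub, eval_X, eval_C, sub_self, zero_mul, eval_prod,
      Finset.prod_eq_zero_iff] at h1
    obtain ⟨i, hi, h2⟩ := h1
    rw [eval_sub, eval_X, eval_C, sub_eq_zero] at h2
    exact ⟨i, hi, h2.symm⟩
  have hX : (X - C c : F[X]) ≠ 0 := X_sub_C_ne_zero c
  obtain ⟨i, -, hi⟩ := hroot Finset.univ ((X - C c) * h) (by rw [hA]; ring)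
  have h1 : ∏ l ∈ Finset.univ.erase i, (X - C (A l)) = (X - C c) * h := by
    apply mul_left_cancel₀ hX
    have h2 := Finset.mul_prod_erase Finset.univ (fun l => (X - C (A l) : F[X]))
      (Finset.mem_univ i)
    simp only [hi] at h2
    rw [h2, hA]
    ring
  obtain ⟨j, hj, hj'⟩ := hroot _ h h1
  have hji : j ≠ i := Finset.ne_of_mem_erase hj
  have h3 : ∏ l ∈ (Finset.univ.erase i).erase j, (X - C (A l)) = h := by
    apply mul_left_cancel₀ hX
    have h2 := Finset.mul_prod_erase (Finset.univ.erase i) (fun l => (X - C (A l) : F[X])) hj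
    simp only [hj'] at h2
    rw [h2, h1]
  refine ⟨i, j, hji.symm, hi, hj', ?_⟩
  have hmem : ∀ r, r ≠ i → r ≠ j → r ∈ (Finset.univ.erase i).erase j := fun r h4 h5 =>
    Finset.mem_erase.mpr ⟨h5, Finset.mem_erase.mpr ⟨h4, Finset.mem_univ r⟩⟩
  have hrc : ∀ r, r ≠ i → r ≠ j → A r ≠ c := by
    intro r h4 h5 h6
    apply hc
    rw [← h3, eval_prod]
    refine Finset.prod_eq_zero (hmem r h4 h5) ?_
    rw [eval_sub, eval_X, eval_C, h6, sub_self]
  intro r h4 h5 s hsr h6
  by_cases hs : s = i ∨ s = j
  · have h7 : A s = c := by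
      rcases hs with rfl | rfl
      · exact hi
      · exact hj'
    exact hrc r h4 h5 (h6.trans h7)
  · push Not at hs
    -- two equal factors of the separable polynomial `h`
    have h8 : (X - C (A r)) * (X - C (A r)) ∣ h := by
      rw [← h3, ← Finset.mul_prod_erase _ _ (hmem r h4 h5)]
      refine mul_dvd_mul_left _ ?_
      nth_rewrite 1 [h6]
      exact Finset.dvd_prod_of_mem (fun l => (X - C (A l) : F[X]))
        (Finset.mem_erase.mpr ⟨hsr, hmem s hs.1 hs.2⟩)
    have hu := hsep.squarefree _ h8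
    exact not_isUnit_X_sub_C (A r) hu

end res

section node

variable {k K Ω : Type} [Field k] [Field K] [Field Ω] [Algebra k K] [Algebra K Ω] {g : ℕ}
  {a : Fin (2 * g + 1) → Ω} {v : Place k K}

/-- The map of the residue fields. -/
theorem exists_resmap (v : Place k K) : ∃ (ι : v.ring →+* abK Ω v)
    (φ : ResidueField v.ring →+* ResidueField (abK Ω v)),
    (∀ x : v.ring, ((ι x : abK Ω v) : Ω) = algebraMap K Ω x) ∧
      (residue (abK Ω v)).comp ι = φ.comp (residue v.ring) := by
  have h : ∀ (R : ValuationSubring K), below K (abK Ω v) = R → ∃ (ι : R →+* abK Ω v)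
      (φ : ResidueField R →+* ResidueField (abK Ω v)),
      (∀ x : R, ((ι x : abK Ω v) : Ω) = algebraMap K Ω x) ∧
        (residue (abK Ω v)).comp ι = φ.comp (residue R) := by
    rintro _ rfl
    refine ⟨inclBelow K (abK Ω v), resMap K (abK Ω v), fun _ => rfl, ?_⟩
    ext x
    rw [RingHom.comp_apply, RingHom.comp_apply, resMap_residue]
    rfl
  exact h v.ring (below_abK Ω v)

/-- **Nodes from the polynomial.** -/
theorem exists_node {f : (v.ring)[X]}
    (hf : (f.map (algebraMap v.ring K)).map (algebraMap K Ω) = ff a)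
    {h : (ResidueField v.ring)[X]} {c : ResidueField v.ring}
    (hred : f.map (residue v.ring) = (X - C c) ^ 2 * h) (hsep : h.Separable)
    (hc : h.eval c ≠ 0) :
    ∃ i j, Node a v i j ∧ (abK Ω v).valuation (a i - a j) < 1 := by
  classical
  obtain ⟨ι, φ, hι, hφ⟩ := exists_resmap (Ω := Ω) v
  have hcomp : (algebraMap (abK Ω v) Ω).comp ι = (algebraMap K Ω).comp (algebraMap v.ring K) := by
    ext x
    exact hι x
  have hf2 : (f.map ι).map (algebraMap (abK Ω v) Ω) = ff a := by
    rw [Polynomial.map_map, hcomp, ← Polynomial.map_map, hf]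
  have hinj : Function.Injective (algebraMap (abK Ω v) Ω) := Subtype.val_injective
  have hmon : (f.map ι).Monic := by
    refine Polynomial.monic_of_injective hinj ?_
    rw [hf2]
    exact ff_monic a
  -- the roots are integral
  have hint : ∀ l, ∃ y : abK Ω v, (y : Ω) = a l := by
    intro l
    have h1 : IsIntegral (abK Ω v) (a l) := by
      refine ⟨f.map ι, hmon, ?_⟩
      rw [← Polynomial.eval_map, hf2, ff_eval_br]
    exact IsIntegrallyClosed.isIntegral_iff.mp h1
  choose A hA using hint
  have hfA : f.map ι = ∏ l, (X - C (A l)) := by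
    apply Polynomial.map_injective _ hinj
    rw [hf2, Polynomial.map_prod, ff]
    refine Finset.prod_congr rfl fun l _ => ?_
    rw [Polynomial.map_sub, map_X, map_C, ← hA l]
    rfl
  have hres : ∏ l, (X - C (residue (abK Ω v) (A l))) = (X - C (φ c)) ^ 2 * h.map φ := by
    have h1 := congrArg (Polynomial.map (residue (abK Ω v))) hfA
    rw [Polynomial.map_map, hφ, ← Polynomial.map_map, hred, Polynomial.map_mul,
      Polynomial.map_pow, Polynomial.map_sub, map_X, map_C, Polynomial.map_prod] at h1
    rw [h1]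
    refine Finset.prod_congr rfl fun l _ => ?_
    rw [Polynomial.map_sub, map_X, map_C]
  obtain ⟨i, j, hij, hi, hj, hu⟩ := exists_pair hres hsep.map (by
    rw [eval_map_apply]
    exact (map_ne_zero φ).mpr hc)
  have hval : ∀ l, (abK Ω v).valuation (a l) ≤ 1 := by
    intro l
    rw [← hA l]
    exact ValuationSubring.valuation_le_one _ _
  have hiff : ∀ r s, residue (abK Ω v) (A r) = residue (abK Ω v) (A s) ↔
      (abK Ω v).valuation (a r - a s) < 1 := by
    intro r s
    have h1 := residue_eq_iff (abK Ω v) (A r).2 (A s).2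
    rw [← hA r, ← hA s]
    exact h1
  refine ⟨i, j, ⟨hij, hval, ?_⟩, ?_⟩
  · intro r hri hrj s hsr
    have h1 := hu r hri hrj s hsr
    rw [Ne, hiff, not_lt] at h1
    refine le_antisymm ?_ h1
    refine ((abK Ω v).valuation.map_sub _ _).trans (max_le (hval r) (hval s))
  · rw [← hiff, hi, hj]

/-- **A place at which the reduction of `f` has one double root and is otherwise separable is a
flip place.** -/
theorem exists_flip [RtG K a] [HypA a] [Finite k] [Algebra (RatFunc k) K]
    [IsScalarTower k (RatFunc k) K] [FiniteDimensional (RatFunc k) K]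
    [Algebra.IsSeparable (RatFunc k) K] [IsSepClosure K Ω] (h2 : (2 : k) ≠ 0)
    (hinf : Infinite K) {T0 : Set (Place k K)} (hok : (sysT k K Ω a T0).Ok)
    (hg : ((2 * g + 1).factorial : K) ≠ 0) {f : (v.ring)[X]}
    (hf : (f.map (algebraMap v.ring K)).map (algebraMap K Ω) = ff a)
    {h : (ResidueField v.ring)[X]} {c : ResidueField v.ring}
    (hred : f.map (residue v.ring) = (X - C c) ^ 2 * h) (hsep : h.Separable)
    (hc : h.eval c ≠ 0) : SmN.Half.Flip (sysT k K Ω a T0) v := by
  obtain ⟨i, j, hN, hlt⟩ := exists_node hf hred hsep hc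
  exact flip_node hN h2 hinf hok hg hlt

end node

end Pool.Agent.SmNJ
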