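import Pool.Agent.Lib.SmNJ.Defs
import Pool.Agent.Lib.SmJ.L.GenGraph
import Pool.Agent.Lib.SmN.Sys
import Pool.Agent.Lib.SmN.Loc.Sy
import Pool.Agent.Lib.GBU.Plc

/-!
SMITH for Jacobians without rational 2-torsion (MP_950c68_ag): the instance `sysN k K Ω a` of the
abstract structure `SmN.Sys`, for the curve `y ^ 2 = ∏ (x - a i)` over `K`, `a i ∈ Ω` permuted by the
Galois group, `Ω` a separable closure of the global function field `K`.
-/

set_option autoImplicit false

open Polynomial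

namespace Pool.Agent.SmNJ

open Pool.Agent.SmJ
open Pool.Agent.SmJ.L (EV dotE)
open Pool.Agent.BSDFF Pool.Agent.GBU

variable (k K Ω : Type) [Field k] [Field K] [Field Ω] [Algebra k K] [Algebra K Ω] {g : ℕ}

/-- The abstract structure for `y ^ 2 = ∏ (x - a i)`. -/
noncomputable def sysN (a : Fin (2 * g + 1) → Ω) [RtG K a] [HypA a] :
    SmN.Sys (Ω ≃ₐ[K] Ω) (VN a) (EV g) (Place k K) where
  NN := NP K Ω
  D := fun v => dvK Ω v
  phi := fun v => phK Ω v
  sg := fun v => sgK Ω v
  eps := fun v => epsK v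
  iota := iotaN a
  ac := acN K a
  e := dotE g
  sy := fun v => SmN.Loc.syf (dotE g) (acN K a (sgK Ω v)) (acN K a (phK Ω v)) (qK v)
  good := {v | (∀ i, (abK Ω v).valuation (a i) ≤ 1) ∧
    ∀ i j, i ≠ j → (abK Ω v).valuation (a i - a j) = 1}

end Pool.Agent.SmNJ
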