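import Pool.Agent.Lib.GBU.GeoC
import Pool.Agent.Lib.GBU.GoodF
import Pool.Agent.Lib.SmN.Cnt.Defs
import Pool.Agent.Lib.SmNJ.Sys

/-!
# SMITH-U: the structure `GeoOk` over a global function field, finiteness of the bad places

`geoOk_of`: `GeoOk` for every system with `NN = NP K Om` and `sg = sgK Om`, `Geo` = the elements
which fix the constants (`GBU.GeoK`), `fr` any element which acts on the constants as the Frobenius
automorphism of `k` (`GBU.IsFrC`, existence `GBU.exists_isFrC`).
-/

set_option autoImplicit false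

namespace Pool.Agent.SmNJ

open Pool.Agent.SmN Pool.Agent.BSDFF Pool.Agent.GBU Pool.Agent.SmJ
open Pool.Agent.SmJ.L (EV dotE)

section

variable {k K Om : Type} [Field k] [Finite k] [Field K] [Algebra k K] [Algebra (RatFunc k) K]
  [IsScalarTower k (RatFunc k) K] [FiniteDimensional (RatFunc k) K]
  [Algebra.IsSeparable (RatFunc k) K] [Field Om] [Algebra K Om] [IsSepClosure K Om]
  {V V1 : Type} [AddCommGroup V] [DistribMulAction (Om ≃ₐ[K] Om) V] [AddCommGroup V1]
  [Module (ZMod 2) V1]

theorem geoOk_of (h2 : (2 : k) ≠ 0) {S : Sys (Om ≃ₐ[K] Om) V V1 (Place k K)}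
    (hNN : S.NN = NP K Om) (hsg : S.sg = sgK Om) {fr : Om ≃ₐ[K] Om} (hfr : IsFrC k fr)
    (h1 : ∀ c : (Om ≃ₐ[K] Om) → V1, S.CocG c → (∀ s ∈ S.GN, c s = 0) →
      ∃ z : V1, ∀ s, c s = S.ac s z - z) :
    CData.GeoOk (S := S) (GeoK k K Om) fr where
  normal := GeoK_normal
  sg_mem := fun v => by
    have : IsGalois K Om := IsSepClosure.isGalois
    rw [hsg]
    exact iner_le_GeoK _ (sgK_iner h2 v)
  comm := commutator_le_GeoK
  gen := fun N hN s => by
    have : IsGalois K Om := IsSepClosure.isGalois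
    rw [hNN] at hN
    have := NP.normal hN
    exact gen_GeoK hfr (NP.isOpen hN) s
  znd := fun c hc hGN _ => h1 c hc hGN

end

section

variable {k K Ω : Type} [Field k] [Finite k] [Field K] [Algebra k K] [Algebra (RatFunc k) K]
  [IsScalarTower k (RatFunc k) K] [FiniteDimensional (RatFunc k) K]
  [Algebra.IsSeparable (RatFunc k) K] [Field Ω] [Algebra K Ω] [IsSepClosure K Ω] {g : ℕ}

theorem good_finN (a : Fin (2 * g + 1) → Ω) [RtG K a] [HypA a] :
    ((sysN k K Ω a).goodᶜ).Finite := by
  have : IsGalois K Ω := IsSepClosure.isGalois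
  exact finite_bad_roots k K a HypA.inj

end

end Pool.Agent.SmNJ
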