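import Pool.Agent.Lib.SmNJ.Sys
import Pool.Agent.Lib.SmN.P.WN
import Pool.Agent.Lib.SmN.P.Q3
import Pool.Agent.Lib.Sm.P.MuLoc

/-!
SMITH for Jacobians without rational 2-torsion (MP_950c68_ag), module Weil: the Weil pairing, the
quadratic refinement, the local data, the isotropy of the Kummer groups (E4) and the local quadratic
forms for the instance `sysN`.
-/

set_option autoImplicit false

open Polynomial

namespace Pool.Agent.SmNJ

open Pool.Agent.SmJ Pool.Agent.SmP Pool.Agent.SmN Pool.Agent.SmN.Loc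
open Pool.Agent.SmJ.L (EV dotE dotE_alt dotE_apply)
open Pool.Agent.BSDFF Pool.Agent.GBU Pool.Agent.SmD Pool.Agent.Lib.SmD

section alg

variable {k K Ω : Type} [Field k] [Field K] [Field Ω] [Algebra k K] [Algebra K Ω] {g : ℕ}
  {a : Fin (2 * g + 1) → Ω} [RtG K a] [HypA a]

omit [RtG K a] in
theorem io_sup1 (x : EV g) : io a (x : Fin (2 * g + 1) → ZMod 2) = ∑ i ∈ sup1 x, ee a i := by
  rw [io_apply, sup1, Finset.sum_filter]
  refine Finset.sum_congr rfl fun i _ => ?_
  rcases zcase (x.1 i) with h | h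
  · rw [h, map_zero, if_neg (by decide)]
  · rw [h, eH_one, if_pos rfl]

variable (k) in
/-- **The Weil pairing** for `sysN`. -/
theorem weilN [IsSepClosed Ω] [Infinite Ω] :
    Weil (sysN k K Ω a) (fun m x y => wM m (x : JJ (ff a)) (y : JJ (ff a))) (hfM Ω) :=
  weil_instN a (sysN k K Ω a) (VN a).subtype (fun s => map_ffN K a s) (fun _ _ => rfl)
    (fun x => io_sup1 x) rfl half_VN

variable (k) in
/-- The quadratic refinement is invariant. -/
theorem qinvN : QInv (sysN k K Ω a) (qev (g := g)) :=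
  qinv_EV (sysN k K Ω a) rfl fun s => ⟨(pm K a s)⁻¹, fun x i => permE_apply (pm K a s) x i⟩

variable (K) in
theorem dotE_acN (s : Ω ≃ₐ[K] Ω) (x y : EV g) :
    dotE g (acN K a s x) (acN K a s y) = dotE g x y := by
  rw [dotE_apply, dotE_apply]
  exact Equiv.sum_comp (pm K a s)⁻¹ fun i => x.1 i * y.1 i

theorem two_neK (h2 : (2 : k) ≠ 0) : (2 : K) ≠ 0 := by
  intro h
  apply h2
  apply (algebraMap k K).injective
  rw [map_ofNat, map_zero, h]

theorem two_neO (h2 : (2 : K) ≠ 0) : (2 : Ω) ≠ 0 := by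
  intro h
  apply h2
  apply (algebraMap K Ω).injective
  rw [map_ofNat, map_zero, h]

theorem exists_charN (k K Ω : Type) [Field k] [Field K] [Field Ω] [Algebra k K] [Algebra K Ω]
    [Finite k] (h2 : (2 : k) ≠ 0) : ∃ p : ℕ, p.Prime ∧ Odd p ∧ CharP Ω p := by
  obtain ⟨p, hp⟩ := CharP.exists k
  have hpp : p.Prime := CharP.char_is_prime k p
  have hpK : CharP K p := charP_of_injective_algebraMap (algebraMap k K).injective p
  have hpΩ : CharP Ω p := charP_of_injective_algebraMap (algebraMap K Ω).injective p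
  refine ⟨p, hpp, ?_, hpΩ⟩
  rcases hpp.eq_two_or_odd' with h | h
  · exfalso
    apply h2
    have := CharP.cast_eq_zero k p
    rw [h] at this
    exact_mod_cast this
  · exact h

theorem infinite_Om (k K Ω : Type) [Field k] [Field K] [Field Ω] [Algebra (RatFunc k) K]
    [Algebra K Ω] : Infinite Ω := by
  have h1 : Infinite (RatFunc k) :=
    Infinite.of_injective (algebraMap (Polynomial k) (RatFunc k)) (RatFunc.algebraMap_injective k)
  exact Infinite.of_injective ((algebraMap K Ω).comp (algebraMap (RatFunc k) K))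
    (RingHom.injective _)

end alg

section main

variable {k K Ω : Type} [Field k] [Finite k] [Field K] [Algebra k K] [Algebra (RatFunc k) K]
  [IsScalarTower k (RatFunc k) K] [FiniteDimensional (RatFunc k) K] [Field Ω] [Algebra K Ω]
  {g : ℕ} {a : Fin (2 * g + 1) → Ω} [RtG K a] [HypA a]

/-- The tame generator and Frobenius on the 2-power roots of unity. -/
theorem locMN [IsGalois K Ω] (h2 : (2 : k) ≠ 0) : LocM (sysN k K Ω a) (MuT Ω) qK := by
  obtain ⟨p, hpp, hodd, hpΩ⟩ := exists_charN k K Ω h2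
  have := Fact.mk hpp
  refine ⟨fun v m => MuT.smul_iner hodd (sgK_iner h2 v) m, fun v m => ?_⟩
  have h := MuT.smul_frob hodd (phK_frob (Om := Ω) v) m
  rwa [resCard_below (below_abK Ω v)] at h

/-- Inertia acts trivially on the roots at the good places. -/
theorem pm_iner [IsGalois K Ω] {v : Place k K} (hv : v ∈ (sysN k K Ω a).good) {s : Ω ≃ₐ[K] Ω}
    (hs : s ∈ iner K (abK Ω v)) : pm K a s = 1 := by
  ext i
  congr 1
  by_contra hne
  have h1 : (abK Ω v).valuation (a (pm K a s i) - a i) = 1 := hv.2 _ _ hne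
  have h2 : (abK Ω v).valuation (s (a i) - a i) < 1 := hs.2 _ (((abK Ω v).valuation_le_one_iff _).1 (hv.1 i))
  rw [← pm_spec] at h2
  exact absurd h1 h2.ne

theorem acN_good [IsGalois K Ω] {v : Place k K} (hv : v ∈ (sysN k K Ω a).good) {s : Ω ≃ₐ[K] Ω}
    (hs : s ∈ iner K (abK Ω v)) : acN K a s = 1 := by
  change permE g (pm K a s) = 1
  rw [pm_iner hv hs, map_one]

/-- The local data. -/
theorem locDN [IsSepClosure K Ω] (h2 : (2 : k) ≠ 0) (hn : ((2 * g + 1).factorial : K) ≠ 0) :
    LocD (sysN k K Ω a) qK where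
  q_odd v := odd_qK h2 v
  normal N hN := NP.normal hN
  phi_mem v := phK_mem v
  sg_mem v := sgK_mem h2 v
  rel v N hN := frobK h2 v hN
  sy_eq v := rfl
  eps_eq v := rfl
  e_alt w := dotE_alt w
  e_inv s w w' := dotE_acN K s w w'
  ac_fin := by
    have hsc : IsSepClosed Ω := IsSepClosure.sep_closed K
    obtain ⟨N, hN, h⟩ := act_finN (K := K) (a := a) (two_neK h2) hn 1
    refine ⟨N, hN, fun s hs => ?_⟩
    ext x : 1
    apply iotaN_injective (a := a)
    have h1 := h s hs (iotaN a x) (by rw [pow_one]; exact two_iotaN x)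
    rw [smul_iotaN] at h1
    exact h1
  ac_good v hv := acN_good hv (sgK_iner h2 v)

/-- The 2-power roots of unity. -/
theorem mqN [IsSepClosure K Ω] (h2 : (2 : k) ≠ 0) : (sysN k K Ω a).MQ (hfM Ω) := by
  have hsc : IsSepClosed Ω := IsSepClosure.sep_closed K
  have h20 : (2 : Ω) ≠ 0 := two_neO (two_neK (K := K) h2)
  exact
    { fin := fun N hN => NP.finiteIndex hN
      half := MuT.half h20
      inj := hfM_inj h20
      two := MuT.two h20
      act := fun m => by
        obtain ⟨N, hN, h⟩ := MuT.act (K := K) h20 m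
        exact ⟨N, NN_subset_NP (two_neK h2) hN, h⟩ }

/-- **E4: the local Kummer groups are isotropic** (the field `isot` of `Sys.Ok`). -/
theorem isotN [IsSepClosure K Ω] (h2 : (2 : k) ≠ 0) (hn : ((2 * g + 1).factorial : K) ≠ 0)
    (chi : (Ω ≃ₐ[K] Ω) → ZMod 2) (hchi : (sysN k K Ω a).HomG chi) (v : Place k K) :
    ∀ x ∈ (sysN k K Ω a).Wl chi v, ∀ y ∈ (sysN k K Ω a).Wl chi v,
      (sysN k K Ω a).sy v x y = 0 := by
  have hsc : IsSepClosed Ω := IsSepClosure.sep_closed K
  have hinf : Infinite Ω := infinite_Om k K Ω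
  have h20 : (2 : Ω) ≠ 0 := two_neO (two_neK (K := K) h2)
  exact isot_of_weil (weilN k) (locDN h2 hn) (locMN h2) (hfM_inj h20)
    (fun N hN N' hN' => inf_mem_NP hN hN') iotaN_injective iotaN_range
    (fun s w => smul_iotaN s w) half_VN tors_VN (fun j => act_finN (two_neK h2) hn j) chi hchi v

/-- **The local quadratic forms.** (`Infinite Ω`: `infinite_Om k K Ω`.) -/
theorem qokN [IsSepClosure K Ω] [Infinite Ω] (h2 : (2 : k) ≠ 0) (hn : ((2 * g + 1).factorial : K) ≠ 0)
    (hOk : (sysN k K Ω a).Ok) (hR : (sysN k K Ω a).RecI qK) :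
    (sysN k K Ω a).QOk (qform (sysN k K Ω a)
      (fun m x y => wM m (x : JJ (ff a)) (y : JJ (ff a))) (hfM Ω) qK) := by
  have hsc : IsSepClosed Ω := IsSepClosure.sep_closed K
  exact qok_of_weil hOk (weilN k) (qinvN k) (mqN h2) (locDN h2 hn) (locMN h2) hR

end main

end Pool.Agent.SmNJ
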