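import Pool.Agent.Lib.SmNJ.SysT
import Pool.Agent.Lib.SmNJ.Weil
import Pool.Agent.Lib.SmNJ.GoodN
import Pool.Agent.Lib.SmNJ.Geo

/-!
SMITH for Jacobians without rational 2-torsion (MP_950c68_ag): `Sys.Ok` for the instance `sysT`
(`sysN` with the good places outside a finite set `T0`), from the fields `recip`, `corr`, `dual`,
`hasse` of block F.
-/

set_option autoImplicit false

open Polynomial

namespace Pool.Agent.SmNJ

open Pool.Agent.SmJ
open Pool.Agent.SmJ.L (EV dotE dotE_apply dotE_alt dotE_comm dotE_nd)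
open Pool.Agent.BSDFF Pool.Agent.GBU
open Pool.Agent.SmN.Loc (LocD)

variable {k K Ω : Type} [Field k] [Finite k] [Field K] [Algebra k K] [Algebra (RatFunc k) K]
  [IsScalarTower k (RatFunc k) K] [FiniteDimensional (RatFunc k) K] [Field Ω] [Algebra K Ω]
  {g : ℕ} {a : Fin (2 * g + 1) → Ω} [RtG K a] [HypA a]

/-- The local data for `sysT`. -/
theorem locDT [IsSepClosure K Ω] (h2 : (2 : k) ≠ 0) (hn : ((2 * g + 1).factorial : K) ≠ 0)
    (T0 : Set (Place k K)) : LocD (sysT k K Ω a T0) qK := by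
  have h := locDN (k := k) (K := K) (Ω := Ω) (a := a) h2 hn
  exact
    { q_odd := h.q_odd
      normal := h.normal
      phi_mem := h.phi_mem
      sg_mem := h.sg_mem
      rel := h.rel
      sy_eq := h.sy_eq
      eps_eq := h.eps_eq
      e_alt := h.e_alt
      e_inv := h.e_inv
      ac_fin := h.ac_fin
      ac_good := fun v hv => h.ac_good v hv.1 }

/-- The bad places of `sysT`. -/
theorem good_finT [Algebra.IsSeparable (RatFunc k) K] [IsSepClosure K Ω] {T0 : Set (Place k K)}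
    (hT0 : T0.Finite) : ((sysT k K Ω a T0).goodᶜ).Finite := by
  refine ((good_finN (k := k) (K := K) (Ω := Ω) a).union hT0).subset ?_
  intro v hv
  by_contra hv2
  rw [Set.mem_union, not_or, Set.mem_compl_iff, not_not] at hv2
  exact hv ⟨hv2.1, hv2.2⟩

/-- **`Sys.Ok` for the instance `sysT`.** -/
theorem sysT_ok_of [Algebra.IsSeparable (RatFunc k) K] [IsSepClosure K Ω] (h2 : (2 : k) ≠ 0)
    (hn : ((2 * g + 1).factorial : K) ≠ 0) {T0 : Set (Place k K)} (hT0 : T0.Finite)
    (recip : ∀ c d : (Ω ≃ₐ[K] Ω) → EV g, (sysT k K Ω a T0).CocG c → (sysT k K Ω a T0).CocG d →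
      ∑ᶠ v, (sysT k K Ω a T0).sy v ((sysT k K Ω a T0).loc v c) ((sysT k K Ω a T0).loc v d) = 0)
    (corr : ∀ w : Place k K → EV g, {v | w v ≠ 0}.Finite →
      (∀ v ∈ (sysT k K Ω a T0).good,
        (sysT k K Ω a T0).ac ((sysT k K Ω a T0).phi v) (w v) = w v) →
      ∃ c : (Ω ≃ₐ[K] Ω) → EV g, (sysT k K Ω a T0).CocG c ∧
        ∀ v ∈ (sysT k K Ω a T0).good, c ((sysT k K Ω a T0).sg v) = w v)
    (dual : ∀ W : Place k K → AddSubgroup (EV g × EV g),
      (∀ v, (W v : Set (EV g × EV g)) ⊆ (sysT k K Ω a T0).CP v) →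
      (∀ v z, (sysT k K Ω a T0).cob v z ∈ W v) → (∀ v, Nat.card (W v) = Nat.card (EV g)) →
      (∀ v, ∀ x ∈ W v, ∀ y ∈ W v, (sysT k K Ω a T0).sy v x y = 0) →
      {v | ¬ ∀ x : EV g × EV g, x ∈ W v ↔ x.1 = 0}.Finite →
      ∀ xi : Place k K → EV g × EV g, (∀ v, xi v ∈ (sysT k K Ω a T0).CP v) →
        {v | xi v ∉ W v}.Finite →
        (∀ b : (Ω ≃ₐ[K] Ω) → EV g, (sysT k K Ω a T0).CocG b →
          (∀ v, (sysT k K Ω a T0).loc v b ∈ W v) →
          ∑ᶠ v, (sysT k K Ω a T0).sy v (xi v) ((sysT k K Ω a T0).loc v b) = 0) →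
        ∃ om : (Ω ≃ₐ[K] Ω) → EV g, (sysT k K Ω a T0).CocG om ∧
          ∀ v, (sysT k K Ω a T0).loc v om - xi v ∈ W v)
    (hasse : ∀ c : (Ω ≃ₐ[K] Ω) → (Ω ≃ₐ[K] Ω) → EV g, (sysT k K Ω a T0).TF2 c →
      (∀ s t w, c s t + c (s * t) w = (sysT k K Ω a T0).ac s (c t w) + c s (t * w)) →
      (∀ v, ∃ b : (Ω ≃ₐ[K] Ω) → EV g, (sysT k K Ω a T0).TFOn ((sysT k K Ω a T0).D v) b ∧
        ∀ s ∈ (sysT k K Ω a T0).D v, ∀ t ∈ (sysT k K Ω a T0).D v,
          c s t = b s + (sysT k K Ω a T0).ac s (b t) + b (s * t)) →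
      ∃ b : (Ω ≃ₐ[K] Ω) → EV g, (sysT k K Ω a T0).TF b ∧
        ∀ s t, c s t = b s + (sysT k K Ω a T0).ac s (b t) + b (s * t)) :
    (sysT k K Ω a T0).Ok := by
  have : IsSepClosed Ω := IsSepClosure.sep_closed K
  have : IsGalois K Ω := inferInstance
  have h2K : (2 : K) ≠ 0 := two_neK (K := K) h2
  have hD := locDT (k := k) (K := K) (Ω := Ω) (a := a) h2 hn T0
  exact
    { top_mem := top_mem_NP
      inf_mem := fun N hN N' hN' => inf_mem_NP hN hN'
      normal := hD.normal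
      phi_mem := hD.phi_mem
      sg_mem := hD.sg_mem
      gen := fun v N hN s hs => genK h2 v hN hs
      frob := fun v N hN => ⟨qK v, odd_qK h2 v, frobK h2 v hN⟩
      fin1 := inferInstanceAs (Finite (EV g))
      e_alt := dotE_alt
      e_nondeg := fun w h => dotE_nd w fun y => by rw [dotE_comm]; exact h y
      e_inv := dotE_acN K
      iota_inj := iotaN_injective
      iota_range := iotaN_range
      iota_ac := smul_iotaN
      half := half_VN
      tors := tors_VN
      act_fin := act_finN h2K hn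
      unr := fun N hN => unrK h2 (NP.isOpen hN)
      good_fin := good_finT hT0
      good_triv := fun v hv => good_trivN a h2 v hv.1
      hasse := hasse
      sy_comm := hD.sy_comm
      sy_cob := hD.sy_cob
      sy_unr := hD.sy_unr
      sy_split := hD.sy_split
      recip := recip
      corr := corr
      dual := dual
      fin_inv := fun chi _ v => fin_invN a h2 chi v
      isot := fun chi hchi v => isotN h2 hn chi hchi v }

end Pool.Agent.SmNJ
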