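import Pool.Agent.Lib.SmNJ.RecN
import Pool.Agent.Lib.SmNJ.OkT

/-!
SMITH-U: Weil pairing, reciprocity, the local quadratic forms and the alternating tower for the
instance `sysT`.
-/

set_option autoImplicit false

namespace Pool.Agent.SmNJ

open Pool.Agent.SmJ Pool.Agent.SmP Pool.Agent.SmN Pool.Agent.SmN.Loc Pool.Agent.SmN.R
open Pool.Agent.SmJ.L (EV)
open Pool.Agent.BSDFF Pool.Agent.GBU Pool.Agent.SmD Pool.Agent.Lib.SmD

variable {k K Ω : Type} [Field k] [Finite k] [Field K] [Algebra k K] [Algebra (RatFunc k) K]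
  [IsScalarTower k (RatFunc k) K] [FiniteDimensional (RatFunc k) K]
  [Algebra.IsSeparable (RatFunc k) K] [Field Ω] [Algebra K Ω] [IsSepClosure K Ω]
  {g : ℕ} {a : Fin (2 * g + 1) → Ω} [RtG K a] [HypA a] {T0 : Set (Place k K)}

variable (k K T0) in
omit [IsSepClosure K Ω] [Algebra.IsSeparable (RatFunc k) K] [Finite k] [Algebra (RatFunc k) K]
  [IsScalarTower k (RatFunc k) K] [FiniteDimensional (RatFunc k) K] in
theorem weilT [IsSepClosed Ω] [Infinite Ω] :
    Weil (sysT k K Ω a T0) (fun m x y => wM m (x : JJ (ff a)) (y : JJ (ff a))) (hfM Ω) :=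
  have h := weilN (K := K) (a := a) k
  ⟨h.add_left, h.add_right, h.alt, h.comp, h.equiv, h.one, h.fix⟩

variable (k K a T0) in
omit [IsSepClosure K Ω] [Algebra.IsSeparable (RatFunc k) K] [Finite k] [Algebra (RatFunc k) K]
  [IsScalarTower k (RatFunc k) K] [FiniteDimensional (RatFunc k) K] in
theorem qinvT : QInv (sysT k K Ω a T0) (qev (g := g)) :=
  have h := qinvN (K := K) (a := a) k
  ⟨h.add, h.inv⟩

omit [Algebra.IsSeparable (RatFunc k) K] in
theorem locMT (h2 : (2 : k) ≠ 0) : LocM (sysT k K Ω a T0) (MuT Ω) qK :=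
  have _hg : IsGalois K Ω := IsSepClosure.isGalois
  have h := locMN (K := K) (a := a) h2
  ⟨h.sg, h.phi⟩

omit [Algebra.IsSeparable (RatFunc k) K] in
theorem mqT (h2 : (2 : k) ≠ 0) : (sysT k K Ω a T0).MQ (hfM Ω) :=
  have h := mqN (K := K) (a := a) h2
  ⟨h.fin, h.half, h.inj, h.two, h.act⟩

omit [Algebra.IsSeparable (RatFunc k) K] in
theorem mactT (h2 : (2 : k) ≠ 0) : (sysT k K Ω a T0).MAct (hfM Ω) qK :=
  have h := mactN (K := K) (a := a) h2
  ⟨h.sg, h.phi, h.inj, h.two⟩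

/-- Reciprocity with values in the 2-power roots of unity. -/
theorem recMT (h2 : (2 : k) ≠ 0) : (sysT k K Ω a T0).RecM (MuT Ω) qK :=
  recMK h2 _ rfl (fun _ => rfl) (fun _ => rfl)

/-- Reciprocity with values in `ZMod 2`. -/
theorem recIT (h2 : (2 : k) ≠ 0) : (sysT k K Ω a T0).RecI qK :=
  recIK h2 _ rfl (fun _ => rfl) (fun _ => rfl)

theorem recipMT (h2 : (2 : k) ≠ 0) (hn : ((2 * g + 1).factorial : K) ≠ 0) :
    (sysT k K Ω a T0).RecipM (hfM Ω) :=
  Sys.recipM_of_recM (locDT h2 hn T0) (mactT h2) (recMT h2)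

/-- The local quadratic forms (`Infinite Ω`: `infinite_Om k K Ω`). -/
theorem qokT [Infinite Ω] (h2 : (2 : k) ≠ 0) (hn : ((2 * g + 1).factorial : K) ≠ 0)
    (hOk : (sysT k K Ω a T0).Ok) :
    (sysT k K Ω a T0).QOk (qform (sysT k K Ω a T0)
      (fun m x y => wM m (x : JJ (ff a)) (y : JJ (ff a))) (hfM Ω) qK) := by
  have hsc : IsSepClosed Ω := IsSepClosure.sep_closed K
  exact qok_of_weil hOk (weilT k K T0) (qinvT k K a T0) (mqT h2) (locDT h2 hn T0) (locMT h2) (recIT h2)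

/-- The tower of any twist is alternating. -/
theorem altnT (h2 : (2 : k) ≠ 0) (hn : ((2 * g + 1).factorial : K) ≠ 0)
    (hOk : (sysT k K Ω a T0).Ok) {chi : (Ω ≃ₐ[K] Ω) → ZMod 2}
    (hchi : (sysT k K Ω a T0).HomG chi) :
    (Sys.twS (sysT k K Ω a T0) hOk chi).Altn := by
  have hinf : Infinite Ω := infinite_Om k K Ω
  have hsc : IsSepClosed Ω := IsSepClosure.sep_closed K
  exact Sys.altn_twS hOk hchi (weilT k K T0) (qinvT k K a T0) (recipMT h2 hn)

end Pool.Agent.SmNJ
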