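import Pool.Agent.Lib.SmNJ.AOkInst
import Pool.Agent.Lib.SmN.Sn.A

/-!
SMITH-U: the hypothesis on the Galois action on the 2-torsion in its general form.

`BigIm K a`: the endomorphisms of `J[2]` are spanned by the Galois group and every cocycle of the
Galois group which vanishes on the kernel of the action on `J[2]` is a coboundary. This holds if the
image of the Galois group in the permutations of the roots is everything (`bigIm_of_surj`) or contains
the even permutations, `g ≥ 2` (`bigIm_of_alt`).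
-/

set_option autoImplicit false

namespace Pool.Agent.SmNJ

open Pool.Agent.SmJ
open Pool.Agent.SmJ.L (EV dotE dd dd_apply)

section ring

variable {V : Type} [AddCommGroup V] [Module (ZMod 2) V]

/-- There is no ring homomorphism from the endomorphisms of a space of dimension at least two to
`ZMod 2`. -/
theorem no_ringHom_end [Finite V] (hV : 2 ≤ Module.finrank (ZMod 2) V)
    (f : Module.End (ZMod 2) V →+* ZMod 2) : False := by
  classical
  have hfd : Module.Finite (ZMod 2) V := Module.Finite.of_finite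
  set n := Module.finrank (ZMod 2) V with hn
  let b := Module.finBasis (ZMod 2) V
  let e : Matrix (Fin n) (Fin n) (ZMod 2) ≃ₐ[ZMod 2] Module.End (ZMod 2) V :=
    (algEquivMatrix b).symm
  have : NeZero n := ⟨by omega⟩
  have h1 : Function.Injective (f.comp (e : Matrix (Fin n) (Fin n) (ZMod 2) →+* _)) :=
    RingHom.injective _
  have h2 : Nat.card (Matrix (Fin n) (Fin n) (ZMod 2)) ≤ Nat.card (ZMod 2) :=
    Nat.card_le_card_of_injective _ h1
  rw [Nat.card_zmod, Matrix, Nat.card_eq_fintype_card, Fintype.card_fun, Fintype.card_fun,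
    Fintype.card_fin, ZMod.card] at h2
  have h3 : 2 ^ 1 < (2 ^ n) ^ n := by
    rw [← pow_mul]
    exact Nat.pow_lt_pow_right (by norm_num) (by nlinarith)
  omega

/-- The sums over symmetric differences. -/
theorem sum_symmDiff' {G : Type} [DecidableEq G] {W : Type} [AddCommGroup W]
    (hW : ∀ x : W, x + x = 0) (f : G → W) (X Y : Finset G) :
    ∑ s ∈ symmDiff X Y, f s = ∑ s ∈ X, f s + ∑ s ∈ Y, f s := by
  have hd : Disjoint (X \ Y) (Y \ X) := disjoint_sdiff_sdiff
  have e0 : symmDiff X Y = (X \ Y) ∪ (Y \ X) := rfl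
  have e1 : ∑ s ∈ X, f s = ∑ s ∈ X \ Y, f s + ∑ s ∈ X ∩ Y, f s := by
    rw [← Finset.sum_union (Finset.disjoint_sdiff_inter X Y), Finset.sdiff_union_inter]
  have e2 : ∑ s ∈ Y, f s = ∑ s ∈ Y \ X, f s + ∑ s ∈ X ∩ Y, f s := by
    rw [Finset.inter_comm, ← Finset.sum_union (Finset.disjoint_sdiff_inter Y X),
      Finset.sdiff_union_inter]
  rw [e0, Finset.sum_union hd, e1, e2]
  have h1 := hW (∑ s ∈ X ∩ Y, f s)
  generalize ∑ s ∈ X \ Y, f s = p
  generalize ∑ s ∈ Y \ X, f s = q
  generalize ∑ s ∈ X ∩ Y, f s = r at h1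
  calc p + q = p + q + (r + r) := by rw [h1, add_zero]
    _ = p + r + (q + r) := by abel

theorem card_symmDiff' {G : Type} [DecidableEq G] (X Y : Finset G) :
    ((symmDiff X Y).card : ZMod 2) = X.card + Y.card := by
  have h := sum_symmDiff' (W := ZMod 2) (by decide) (fun _ : G => 1) X Y
  simpa using h

theorem two_mod (x : V) : x + x = 0 := by
  rw [← two_smul (ZMod 2), show (2 : ZMod 2) = 0 from by decide, zero_smul]

/-- If a group spans the endomorphisms of a space of dimension at least two, then an odd number of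
elements has sum zero. -/
theorem exists_odd_zero {G : Type} [Group G] [Finite V] (hV : 2 ≤ Module.finrank (ZMod 2) V)
    (ac : G →* (V ≃ₗ[ZMod 2] V))
    (h : ∀ A : V →ₗ[ZMod 2] V, ∃ U : Finset G, ∀ w, ∑ s ∈ U, ac s w = A w) :
    ∃ U : Finset G, (∀ w, ∑ s ∈ U, ac s w = 0) ∧ (U.card : ZMod 2) = 1 := by
  classical
  by_contra hcon
  push Not at hcon
  choose u hu using h
  -- the parity is determined by the action
  have hwd : ∀ X Y : Finset G, (∀ w, ∑ s ∈ X, ac s w = ∑ s ∈ Y, ac s w) →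
      (X.card : ZMod 2) = Y.card := by
    intro X Y hXY
    have h1 := hcon (symmDiff X Y) fun w => by
      rw [sum_symmDiff' two_mod, hXY w, two_mod]
    rw [card_symmDiff'] at h1
    generalize (X.card : ZMod 2) = x at h1 ⊢
    generalize (Y.card : ZMod 2) = y at h1 ⊢
    revert x y
    decide
  let ψ : Module.End (ZMod 2) V →+ ZMod 2 :=
    { toFun := fun A => ((u A).card : ZMod 2)
      map_zero' := by
        have h1 := hwd (u 0) ∅ fun w => by rw [hu, Finset.sum_empty]; rfl
        rw [h1, Finset.card_empty, Nat.cast_zero]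
      map_add' := fun A B => by
        rw [← card_symmDiff']
        refine hwd _ _ fun w => ?_
        rw [sum_symmDiff' two_mod, hu, hu, hu]
        rfl }
  have hψ : ∀ (A : Module.End (ZMod 2) V) (X : Finset G), (∀ w, ∑ s ∈ X, ac s w = A w) →
      ψ A = (X.card : ZMod 2) := fun A X hX => hwd _ _ fun w => by rw [hu, hX]
  have hmul1 : ∀ (A : Module.End (ZMod 2) V) (t : G),
      ψ (A * (ac t : V →ₗ[ZMod 2] V)) = ψ A := by
    intro A t
    rw [hψ (A * (ac t : V →ₗ[ZMod 2] V)) ((u A).image fun s => s * t) fun w => ?_,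
      Finset.card_image_of_injective _ (mul_left_injective t)]
    · rfl
    · rw [Finset.sum_image fun s _ s' _ h => mul_left_injective t h]
      change _ = A (ac t w)
      rw [← hu A (ac t w)]
      refine Finset.sum_congr rfl fun s _ => ?_
      rw [map_mul]
      rfl
  have hmul : ∀ A B : Module.End (ZMod 2) V, ψ (A * B) = ψ A * ψ B := by
    intro A B
    have h1 : A * B = ∑ t ∈ u B, A * (ac t : V →ₗ[ZMod 2] V) := by
      rw [← Finset.mul_sum]
      congr 1
      ext w
      rw [LinearMap.sum_apply, ← hu B w]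
      rfl
    rw [h1, map_sum, Finset.sum_congr rfl fun t _ => hmul1 A t, Finset.sum_const, nsmul_eq_mul,
      mul_comm]
    rfl
  let f : Module.End (ZMod 2) V →+* ZMod 2 :=
    { toFun := ψ
      map_one' := by
        rw [hψ 1 {1} fun w => by rw [Finset.sum_singleton, map_one]; rfl]
        simp
      map_mul' := hmul
      map_zero' := map_zero ψ
      map_add' := map_add ψ }
  exact no_ringHom_end hV f

end ring

section big

variable {g : ℕ}

theorem finrank_EV (hg : 1 ≤ g) : 2 ≤ Module.finrank (ZMod 2) (EV g) := by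
  have hfd : Module.Finite (ZMod 2) (EV g) := Module.Finite.of_finite
  have h1 : Nat.card (EV g) = 2 ^ Module.finrank (ZMod 2) (EV g) := by
    rw [Module.natCard_eq_pow_finrank (K := ZMod 2), Nat.card_zmod]
  by_contra hcon
  have h2 : Module.finrank (ZMod 2) (EV g) ≤ 1 := by omega
  have h3 : Nat.card (EV g) ≤ 2 := by
    rw [h1]
    calc 2 ^ Module.finrank (ZMod 2) (EV g) ≤ 2 ^ 1 := Nat.pow_le_pow_right (by norm_num) h2
      _ = 2 := by norm_num
  let x0 : Fin (2 * g + 1) := ⟨0, by omega⟩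
  let x1 : Fin (2 * g + 1) := ⟨1, by omega⟩
  let x2 : Fin (2 * g + 1) := ⟨2, by omega⟩
  have h01 : x0 ≠ x1 := fun h => by
    have h7 : (0 : ℕ) = 1 := congrArg Fin.val h
    omega
  have h02 : x0 ≠ x2 := fun h => by
    have h7 : (0 : ℕ) = 2 := congrArg Fin.val h
    omega
  have h12 : x1 ≠ x2 := fun h => by
    have h7 : (1 : ℕ) = 2 := congrArg Fin.val h
    omega
  have e1 : (dd x0 x1 : EV g).1 x0 = 1 := by
    rw [dd_apply, if_pos rfl, if_neg h01, add_zero]
  have e2 : (dd x0 x2 : EV g).1 x0 = 1 := by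
    rw [dd_apply, if_pos rfl, if_neg h02, add_zero]
  have e3 : (dd x0 x1 : EV g).1 x1 = 1 := by
    rw [dd_apply, if_neg (Ne.symm h01), if_pos rfl, zero_add]
  have e4 : (dd x0 x2 : EV g).1 x1 = 0 := by
    rw [dd_apply, if_neg (Ne.symm h01), if_neg h12, zero_add]
  have n1 : (dd x0 x1 : EV g) ≠ 0 := fun h => by
    rw [h] at e1
    exact zero_ne_one e1
  have n2 : (dd x0 x2 : EV g) ≠ 0 := fun h => by
    rw [h] at e2
    exact zero_ne_one e2
  have n3 : (dd x0 x1 : EV g) ≠ dd x0 x2 := fun h => by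
    rw [h, e4] at e3
    exact zero_ne_one e3
  classical
  have h5 : ({0, dd x0 x1, dd x0 x2} : Finset (EV g)).card = 3 := by
    rw [Finset.card_insert_of_notMem, Finset.card_insert_of_notMem, Finset.card_singleton]
    · rw [Finset.mem_singleton]
      exact n3
    · rw [Finset.mem_insert, Finset.mem_singleton, not_or]
      exact ⟨Ne.symm n1, Ne.symm n2⟩
  have : Fintype (EV g) := Fintype.ofFinite _
  have h6 := Finset.card_le_univ ({0, dd x0 x1, dd x0 x2} : Finset (EV g))
  rw [h5, ← Nat.card_eq_fintype_card] at h6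
  omega

variable (K : Type) {Ω : Type} [Field K] [Field Ω] [Algebra K Ω]
  (a : Fin (2 * g + 1) → Ω) [RtG K a] [HypA a]

/-- The Galois action on the 2-torsion is big. -/
structure BigIm : Prop where
  span : ∀ A : EV g →ₗ[ZMod 2] EV g, ∃ U : Finset (Ω ≃ₐ[K] Ω), ∀ w, ∑ s ∈ U, acN K a s w = A w
  h1 : ∀ c : (Ω ≃ₐ[K] Ω) → EV g, (∀ s t, c (s * t) = c s + acN K a s (c t)) →
    (∀ s, (∀ w, acN K a s w = w) → c s = 0) → ∃ z, ∀ s, c s = acN K a s z - z

variable {K a}

/-- The spanning property with any parity. -/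
theorem BigIm.span' (h : BigIm K a) (hg : 1 ≤ g) (A : EV g →ₗ[ZMod 2] EV g) (ε : ZMod 2) :
    ∃ U : Finset (Ω ≃ₐ[K] Ω), (∀ w, ∑ s ∈ U, acN K a s w = A w) ∧ (U.card : ZMod 2) = ε := by
  classical
  obtain ⟨U, hU⟩ := h.span A
  obtain ⟨Z, hZ, hZ1⟩ := exists_odd_zero (finrank_EV hg) (acN K a) h.span
  by_cases hε : (U.card : ZMod 2) = ε
  · exact ⟨U, hU, hε⟩
  · refine ⟨symmDiff U Z, fun w => by rw [sum_symmDiff' two_mod, hU, hZ, add_zero], ?_⟩
    rw [card_symmDiff', hZ1]
    generalize (U.card : ZMod 2) = x at hε ⊢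
    revert x ε
    decide

theorem BigIm.nofix (h : BigIm K a) (hg : 1 ≤ g) (w : EV g) (hw : ∀ s, acN K a s w = w) :
    w = 0 := by
  obtain ⟨U, hU, h1⟩ := h.span' hg 0 1
  have h2 := hU w
  rw [Finset.sum_congr rfl fun s _ => hw s, Finset.sum_const, ← Nat.cast_smul_eq_nsmul (ZMod 2), h1,
    one_smul] at h2
  exact h2

/-- The Galois group is transitive on the roots. -/
theorem BigIm.trans (h : BigIm K a) (hg : 1 ≤ g) (i : Fin (2 * g + 1)) :
    ∃ s : Ω ≃ₐ[K] Ω, pm K a s i = 0 := by
  classical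
  set O : Finset (Fin (2 * g + 1)) := Finset.univ.filter fun x => ∃ s : Ω ≃ₐ[K] Ω, pm K a s x = 0
    with hO
  have hO1 : ∀ (t : Ω ≃ₐ[K] Ω) (x : Fin (2 * g + 1)), (pm K a t)⁻¹ x ∈ O ↔ x ∈ O := by
    intro t x
    rw [hO, Finset.mem_filter, Finset.mem_filter]
    constructor
    · rintro ⟨-, s, hs⟩
      refine ⟨Finset.mem_univ _, s * t⁻¹, ?_⟩
      rw [map_mul, map_inv, Equiv.Perm.mul_apply]
      exact hs
    · rintro ⟨-, s, hs⟩
      refine ⟨Finset.mem_univ _, s * t, ?_⟩
      rw [map_mul, Equiv.Perm.mul_apply]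
      have h1 : pm K a t ((pm K a t)⁻¹ x) = x := Equiv.apply_symm_apply _ _
      rw [h1]
      exact hs
  -- the sum over `O` is an invariant functional
  let F : EV g →ₗ[ZMod 2] ZMod 2 :=
    { toFun := fun w => ∑ x ∈ O, w.1 x
      map_add' := fun v w => Finset.sum_add_distrib
      map_smul' := fun c w => (Finset.mul_sum _ _ _).symm }
  have hF : ∀ (t : Ω ≃ₐ[K] Ω) (w : EV g), F (acN K a t w) = F w := by
    intro t w
    change ∑ x ∈ O, w.1 ((pm K a t)⁻¹ x) = ∑ x ∈ O, w.1 x
    refine Finset.sum_bij (fun x _ => (pm K a t)⁻¹ x) (fun x hx => (hO1 t x).2 hx)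
      (fun x _ y _ hxy => (pm K a t)⁻¹.injective hxy) (fun y hy => ⟨pm K a t y, ?_, ?_⟩)
      fun _ _ => rfl
    · have h1 : (pm K a t)⁻¹ (pm K a t y) = y := Equiv.symm_apply_apply _ _
      rw [← hO1 t, h1]
      exact hy
    · exact Equiv.symm_apply_apply _ _
  obtain ⟨U, hU, h1⟩ := h.span' hg 0 1
  have hF0 : ∀ w, F w = 0 := by
    intro w
    have h2 := congrArg F (hU w)
    rw [map_sum, Finset.sum_congr rfl fun s _ => hF s w, Finset.sum_const,
      ← Nat.cast_smul_eq_nsmul (ZMod 2), h1, one_smul, LinearMap.zero_apply, map_zero] at h2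
    exact h2
  have h0 : (0 : Fin (2 * g + 1)) ∈ O := by
    rw [hO, Finset.mem_filter]
    exact ⟨Finset.mem_univ _, 1, by rw [map_one]; rfl⟩
  by_contra hcon
  have hi : i ∉ O := by
    intro hi
    rw [hO, Finset.mem_filter] at hi
    exact hcon hi.2
  have hi0 : i ≠ 0 := fun h => hi (h ▸ h0)
  have h3 := hF0 (dd 0 i)
  change ∑ x ∈ O, (dd 0 i : EV g).1 x = 0 at h3
  rw [Finset.sum_eq_single_of_mem 0 h0] at h3
  · rw [dd_apply, if_pos rfl, if_neg (Ne.symm hi0), add_zero] at h3
    exact one_ne_zero h3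
  · intro x hx hx0
    have h4 : x ≠ i := by
      rintro rfl
      exact hi hx
    rw [dd_apply, if_neg hx0, if_neg h4, add_zero]

/-- The full symmetric group. -/
theorem bigIm_of_surj (hr : Function.Surjective (pm K a)) : BigIm K a := by
  have hodd : Odd (Fintype.card (Fin (2 * g + 1))) := by
    rw [Fintype.card_fin]
    exact ⟨g, rfl⟩
  refine ⟨fun A => ?_, fun c hc hk => ?_⟩
  · obtain ⟨U, hU, -⟩ := span_perm hr A 0
    exact ⟨U, hU⟩
  · exact SmN.Sn.h1_of_surj' hodd (pm K a) hr c hc hk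

/-- The alternating group, `g ≥ 2`. -/
theorem bigIm_of_alt (hg : 2 ≤ g)
    (hr : alternatingGroup (Fin (2 * g + 1)) ≤ (pm K a).range) : BigIm K a := by
  refine ⟨fun A => ?_, fun c hc hk => ?_⟩
  · obtain ⟨U, -, hU, -⟩ := SmN.Sn.span_ev_alt hg (pm K a) ⊤ (by
      rw [← MonoidHom.range_eq_map]
      exact hr) (acN K a) (fun s w x => rfl) A 0
    exact ⟨U, hU⟩
  · refine SmN.Sn.h1_ev_alt (by omega) (pm K a) hr (acN K a) (fun s w x => rfl) c hc
      fun s hs => hk s fun w => ?_
    change permE g (pm K a s) w = w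
    rw [hs, map_one]
    rfl

end big

end Pool.Agent.SmNJ
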