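import Pool.Agent.Lib.SmNJ.Sys
import Pool.Agent.Lib.SmN.Sn.PermEV

/-!
# SmNJ: `PermOk`, `span` and `nofix` for the instance `sysN`

`permOkN`: the 2-torsion `EV g` of the Jacobian of `y ^ 2 = ∏ (x - a i)` is a direct summand of the
permutation module on the roots (`X = Fin (2 * g + 1)`, action `actN K a`).
`ker_pm_mem_NP`: the kernel of the action on the roots is in `NP K Ω` if `(2 g + 1)!` is invertible in `K`.
`spanN`, `nofixN`: if the Galois group acts through all permutations.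
-/

set_option autoImplicit false

namespace Pool.Agent.SmNJ

open Pool.Agent.SmJ
open Pool.Agent.SmJ.L (EV dotE)
open Pool.Agent.BSDFF Pool.Agent.GBU
open Pool.Agent.SmN.Sn

section perm

variable {K Ω : Type} [Field K] [Field Ω] [Algebra K Ω] {g : ℕ} {a : Fin (2 * g + 1) → Ω}
  [RtG K a]

theorem acN_apply (s : Ω ≃ₐ[K] Ω) (w : EV g) (x : Fin (2 * g + 1)) :
    (acN K a s w).1 x = w.1 ((pm K a s)⁻¹ x) := rfl

theorem pm_eq_one_iff (s : Ω ≃ₐ[K] Ω) : pm K a s = 1 ↔ ∀ i, s (a i) = a i := by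
  constructor
  · intro h i
    rw [← pm_spec K a s i, h, Equiv.Perm.one_apply]
  · intro h
    ext1 i
    apply RtG.inj K (a := a)
    rw [pm_spec K a, h, Equiv.Perm.one_apply]

variable (K a) in
/-- The kernel of the action on the roots is open. -/
theorem ker_pm_open [Algebra.IsIntegral K Ω] :
    IsOpen ((pm K a).ker : Set (Ω ≃ₐ[K] Ω)) :=
  ker_open a (pm K a) fun s hs => (pm_eq_one_iff s).2 hs

variable (K a) in
/-- The kernel of the action on the roots is in `NP`. -/
theorem ker_pm_mem_NP [Algebra.IsIntegral K Ω] (hn : ((2 * g + 1).factorial : K) ≠ 0) :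
    (pm K a).ker ∈ NP K Ω :=
  ker_mem_NP (pm K a) (ker_pm_open K a) hn

/-- The even vectors are a faithful representation of the permutations if there are at least three
letters. -/
theorem permE_inj (hg : 1 ≤ g) {σ : Equiv.Perm (Fin (2 * g + 1))} (h : permE g σ = 1) :
    σ = 1 := by
  classical
  ext1 i
  rw [Equiv.Perm.one_apply]
  by_contra hi
  have key : ∀ j, j ≠ i → σ i = j := by
    intro j hj
    by_contra hij
    have h1 : permV (X := Fin (2 * g + 1)) σ (ekl i j) = ekl i j :=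
      LinearEquiv.congr_fun h (ekl i j)
    rw [permV_ekl] at h1
    have h2 := congrFun (congrArg Subtype.val h1) (σ i)
    change (Pi.single (σ i) 1 : Fin (2 * g + 1) → ZMod 2) (σ i) +
      (Pi.single (σ j) 1 : Fin (2 * g + 1) → ZMod 2) (σ i) =
      (Pi.single i 1 : Fin (2 * g + 1) → ZMod 2) (σ i) +
      (Pi.single j 1 : Fin (2 * g + 1) → ZMod 2) (σ i) at h2
    rw [Pi.single_eq_same, Pi.single_eq_of_ne (fun h' => hj (σ.injective h').symm),
      Pi.single_eq_of_ne hi, Pi.single_eq_of_ne hij, add_zero, add_zero] at h2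
    exact one_ne_zero h2
  have h3 : 2 < Fintype.card (Fin (2 * g + 1)) := by
    rw [Fintype.card_fin]
    omega
  obtain ⟨j, hj⟩ : ∃ j, j ∉ ({i, σ i} : Finset (Fin (2 * g + 1))) := by
    by_contra hcon
    push Not at hcon
    have h4 : (Finset.univ : Finset (Fin (2 * g + 1))) ⊆ {i, σ i} := fun x _ => hcon x
    have h5 := Finset.card_le_card h4
    have h6 : ({i, σ i} : Finset (Fin (2 * g + 1))).card ≤ 2 := Finset.card_le_two
    rw [Finset.card_univ] at h5
    omega
  rw [Finset.mem_insert, Finset.mem_singleton, not_or] at hj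
  exact hj.2 (key j hj.1).symm

end perm

section sys

variable (k K Ω : Type) [Field k] [Field K] [Field Ω] [Algebra k K] [Algebra K Ω] {g : ℕ}
  (a : Fin (2 * g + 1) → Ω) [RtG K a] [HypA a]

/-- **`PermOk` for `sysN`.** -/
theorem permOkN [Algebra.IsIntegral K Ω] (hn : ((2 * g + 1).factorial : K) ≠ 0) :
    letI := actN K a
    SmN.PermOk (sysN k K Ω a) (Fin (2 * g + 1)) (EV g).subtype (prE g) := by
  letI := actN K a
  refine permOk_ev (sysN k K Ω a) (fun s w x => ?_) rfl
    ⟨(pm K a).ker, ker_pm_mem_NP K a hn, fun n hn x => ?_⟩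
  · change w.1 ((pm K a s)⁻¹ x) = w.1 (pm K a s⁻¹ x)
    rw [map_inv]
  · change pm K a n x = x
    rw [MonoidHom.mem_ker] at hn
    rw [hn, Equiv.Perm.one_apply]

/-- The field `span`. -/
theorem spanN (hr : Function.Surjective (pm K a)) (A : EV g →ₗ[ZMod 2] EV g) (ε : ZMod 2) :
    ∃ T : Finset (Ω ≃ₐ[K] Ω), (∀ w, ∑ s ∈ T, (sysN k K Ω a).ac s w = A w) ∧
      (T.card : ZMod 2) = ε :=
  span_ev (pm K a) hr (acN K a) (fun _ _ _ => rfl) A ε

/-- The field `nofix` (a transitive action is enough). -/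
theorem nofixN (hr : ∀ i j, ∃ s : Ω ≃ₐ[K] Ω, pm K a s i = j) (w : EV g)
    (hw : ∀ s, (sysN k K Ω a).ac s w = w) : w = 0 := by
  refine nofix_ev (Set.range (pm K a)) (fun x y => ?_) w ?_
  · obtain ⟨s, hs⟩ := hr x y
    exact ⟨pm K a s, ⟨s, rfl⟩, hs⟩
  · rintro _ ⟨s, rfl⟩ x
    exact congrFun (congrArg Subtype.val (hw s)) x

theorem nofixN_of_surj (hr : Function.Surjective (pm K a)) (w : EV g)
    (hw : ∀ s, (sysN k K Ω a).ac s w = w) : w = 0 := by
  refine nofixN k K Ω a (fun i j => ?_) w hw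
  obtain ⟨s, hs⟩ := hr (Equiv.swap i j)
  exact ⟨s, by rw [hs, Equiv.swap_apply_left]⟩

end sys

end Pool.Agent.SmNJ
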