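import Pool.Agent.Lib.SmNJ.Sys

/-!
SMITH for Jacobians without rational 2-torsion (MP_950c68_ag): `sysN` with a smaller set of good
places (the places outside the finite set `T0` of block F).
-/

set_option autoImplicit false

namespace Pool.Agent.SmNJ

open Pool.Agent.SmJ Pool.Agent.BSDFF

variable (k K Ω : Type) [Field k] [Field K] [Field Ω] [Algebra k K] [Algebra K Ω] {g : ℕ}

/-- `sysN` with the good places outside `T0`. All other fields are the same. -/
noncomputable def sysT (a : Fin (2 * g + 1) → Ω) [RtG K a] [HypA a] (T0 : Set (Place k K)) :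
    SmN.Sys (Ω ≃ₐ[K] Ω) (VN a) (SmJ.L.EV g) (Place k K) :=
  { sysN k K Ω a with good := (sysN k K Ω a).good \ T0 }

end Pool.Agent.SmNJ
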