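import Pool.Agent.Lib.SmN.F.Fields
import Pool.Agent.Lib.SmNJ.PermOkN
import Pool.Agent.Lib.SmNJ.SysT
import Pool.Agent.Lib.SmNJ.Weil
import Pool.Agent.Lib.GBU.GoodF
import Pool.Agent.Lib.GBU.H.RedK

/-!
SMITH for Jacobians without rational 2-torsion: block F for the instance `sysN`.

`S.shr T0` = `S` with the good places outside `T0`; `FOk S` = the fields `recip`, `corr`, `dual`, `hasse`
of `Sys.Ok`. `sysT k K Ω a T0 = (sysN k K Ω a).shr T0`.
`exists_sysT`: if the roots are permuted transitively, then `FOk (sysT k K Ω a T0)` for some finite `T0`,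
and `LagV (sysT k K Ω a T0) T` for all finite `T` containing the bad places of `sysT k K Ω a T0`.
-/

set_option autoImplicit false

namespace Pool.Agent.SmN

variable {G V V1 Pl : Type*} [Group G] [AddCommGroup V] [DistribMulAction G V]
  [AddCommGroup V1] [Module (ZMod 2) V1]

/-- `S` with fewer good places. -/
def Sys.shr (S : Sys G V V1 Pl) (T0 : Set Pl) : Sys G V V1 Pl := { S with good := S.good \ T0 }

/-- The fields of `Sys.Ok` proved in block F. -/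
structure FOk (S : Sys G V V1 Pl) : Prop where
  hasse : ∀ c : G → G → V1, S.TF2 c →
    (∀ s t w, c s t + c (s * t) w = S.ac s (c t w) + c s (t * w)) →
    (∀ v, ∃ b : G → V1, S.TFOn (S.D v) b ∧
      ∀ s ∈ S.D v, ∀ t ∈ S.D v, c s t = b s + S.ac s (b t) + b (s * t)) →
    ∃ b : G → V1, S.TF b ∧ ∀ s t, c s t = b s + S.ac s (b t) + b (s * t)
  recip : ∀ c d : G → V1, S.CocG c → S.CocG d →
    ∑ᶠ v, S.sy v (S.loc v c) (S.loc v d) = 0
  corr : ∀ w : Pl → V1, {v | w v ≠ 0}.Finite → (∀ v ∈ S.good, S.ac (S.phi v) (w v) = w v) →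
    ∃ c : G → V1, S.CocG c ∧ ∀ v ∈ S.good, c (S.sg v) = w v
  dual : ∀ W : Pl → AddSubgroup (V1 × V1), (∀ v, (W v : Set (V1 × V1)) ⊆ S.CP v) →
    (∀ v z, S.cob v z ∈ W v) → (∀ v, Nat.card (W v) = Nat.card V1) →
    (∀ v, ∀ x ∈ W v, ∀ y ∈ W v, S.sy v x y = 0) →
    {v | ¬ ∀ x : V1 × V1, x ∈ W v ↔ x.1 = 0}.Finite →
    ∀ xi : Pl → V1 × V1, (∀ v, xi v ∈ S.CP v) → {v | xi v ∉ W v}.Finite →
    (∀ b : G → V1, S.CocG b → (∀ v, S.loc v b ∈ W v) →
      ∑ᶠ v, S.sy v (xi v) (S.loc v b) = 0) →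
    ∃ om : G → V1, S.CocG om ∧ ∀ v, S.loc v om - xi v ∈ W v

theorem Loc.LocD.shr {S : Sys G V V1 Pl} {q : Pl → ℕ} (h : Loc.LocD S q) (T0 : Set Pl) :
    Loc.LocD (S.shr T0) q :=
  ⟨h.q_odd, h.normal, h.phi_mem, h.sg_mem, h.rel, h.sy_eq, h.eps_eq, h.e_alt, h.e_inv, h.ac_fin,
    fun v hv => h.ac_good v hv.1⟩

theorem PermOk.shr {S : Sys G V V1 Pl} {X : Type*} [Fintype X] [MulAction G X]
    {i : V1 →ₗ[ZMod 2] (X → ZMod 2)} {p : (X → ZMod 2) →ₗ[ZMod 2] V1} (h : PermOk S X i p)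
    (T0 : Set Pl) : PermOk (S.shr T0) X i p := ⟨h.triv, h.p_i, h.i_ac, h.p_ac, h.adj⟩

/-- The Selmer cocycles do not depend on `good`. -/
theorem Sys.isSel_shr {S : Sys G V V1 Pl} {T0 : Set Pl} {chi : G → ZMod 2} {j : ℕ} {Psi : G → V} :
    (S.shr T0).IsSel chi j Psi ↔ S.IsSel chi j Psi :=
  ⟨fun h => ⟨h.tf, h.coc, h.lev, h.loc⟩, fun h => ⟨h.tf, h.coc, h.lev, h.loc⟩⟩

theorem Sys.isSel1_shr {S : Sys G V V1 Pl} {T0 : Set Pl} {chi : G → ZMod 2} {b : G → V1} :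
    (S.shr T0).IsSel1 chi b ↔ S.IsSel1 chi b := Iff.rfl

end Pool.Agent.SmN

namespace Pool.Agent.SmN.F

open MulAction Pool.Agent.GBU Pool.Agent.BSDFF Pool.Agent.Lib.SmD Loc

variable {k K L : Type} [Field k] [Finite k] [Field K] [Algebra k K] [Algebra (RatFunc k) K]
  [IsScalarTower k (RatFunc k) K] [FiniteDimensional (RatFunc k) K]
  [Algebra.IsSeparable (RatFunc k) K]
  [Field L] [Algebra k L] [Algebra (RatFunc k) L]
  [IsScalarTower k (RatFunc k) L] [FiniteDimensional (RatFunc k) L]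
  [Algebra.IsSeparable (RatFunc k) L] [Algebra K L] [FiniteDimensional K L]
  {Om : Type} [Field Om] [Algebra K Om] [IsSepClosure K Om] [Algebra L Om] [IsSepClosure L Om]
  [IsScalarTower K L Om]
  {X : Type} [MulAction (Om ≃ₐ[K] Om) X] [Fintype X]
  {V V1 : Type} [AddCommGroup V] [DistribMulAction (Om ≃ₐ[K] Om) V] [AddCommGroup V1]
  [Module (ZMod 2) V1]

/-- Block F for a standard `S`. -/
theorem exists_fOk [Nonempty X] [Finite V1] (h2 : (2 : k) ≠ 0)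
    {S : Sys (Om ≃ₐ[K] Om) V V1 (Place k K)} (hS : IsStd S) (hL : LocD S qK)
    {i : V1 →ₗ[ZMod 2] (X → ZMod 2)} {p : (X → ZMod 2) →ₗ[ZMod 2] V1} (hP : PermOk S X i p)
    (hnd : ∀ w, (∀ w', S.e w w' = 0) → w = 0) (hgood : S.goodᶜ.Finite)
    {x0 : X} {r : X → (Om ≃ₐ[K] Om)} (hr : ∀ x, r x • x = x0)
    (hst : stabilizer (Om ≃ₐ[K] Om) x0 = rg K L Om) (hH : HasseZ L Om) :
    ∃ T0 : Finset (Place k K), FOk (S.shr T0) ∧
      ∀ T : Set (Place k K), T.Finite → (S.shr T0).goodᶜ ⊆ T → Ch.LagV (S.shr T0) T := by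
  have htriv : ∃ N ∈ NP K Om, ∀ n ∈ N, ∀ x : X, n • x = x := by
    rw [← hS.NN]
    exact hP.triv
  obtain ⟨E, T0, hET⟩ := exists_ET (L := L) V V1 h2 hr hst htriv hH
  have hS' : IsStd (S.shr (T0 : Set (Place k K))) := ⟨hS.NN, hS.D, hS.sg, hS.phi⟩
  obtain ⟨hE, hK⟩ := hET _ hS'
  have hL' := hL.shr (T0 : Set (Place k K))
  have hP' := hP.shr (T0 : Set (Place k K))
  have hG := fun v => lg_std h2 hS' htriv v
  have htop : ⊤ ∈ (S.shr (T0 : Set (Place k K))).NN := by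
    rw [hS'.NN]
    exact top_mem_NP
  have hinf : ∀ N ∈ (S.shr (T0 : Set (Place k K))).NN, ∀ N' ∈ (S.shr (T0 : Set (Place k K))).NN,
      N ⊓ N' ∈ (S.shr (T0 : Set (Place k K))).NN := by
    rw [hS'.NN]
    exact fun N hN N' hN' => inf_mem_NP hN hN'
  have hT0 : ∀ v ∈ (S.shr (T0 : Set (Place k K))).good, v ∉ T0 := fun v hv h => hv.2 h
  have hgf : ((S.shr (T0 : Set (Place k K))).goodᶜ).Finite := by
    refine (hgood.union T0.finite_toSet).subset fun v hv => ?_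
    by_contra h
    apply hv
    refine ⟨?_, fun h1 => h (Or.inr h1)⟩
    by_contra h1
    exact h (Or.inl h1)
  refine ⟨T0, ⟨hasseV hL' hP' hinf hr hK, fun c d hc hd => recipV hL' hP' hE hinf hr hK hc hd,
    corrV hL' hP' hE hG htop hinf hr hK hgf hT0, dualV hL' hP' hE hG htop hinf hnd hr hK⟩,
    fun T hT hb => lagV_of hL' hP' hE hG htop hinf hr hK hT (fun v hv => hb ?_) hb⟩
  exact fun h => hT0 v h hv

end Pool.Agent.SmN.F

namespace Pool.Agent.SmNJ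

open MulAction Pool.Agent.GBU Pool.Agent.BSDFF Pool.Agent.Lib.SmD Pool.Agent.SmN Pool.Agent.SmN.F
open scoped IntermediateField
open Pool.Agent.SmJ Pool.Agent.SmJ.L

section stab

variable {K Ω : Type} [Field K] [Field Ω] [Algebra K Ω] {g : ℕ} {a : Fin (2 * g + 1) → Ω}
  [RtG K a]

/-- The stabiliser of the first root is the Galois group over `K(a 0)`. -/
theorem stab_zero :
    letI := actN K a
    stabilizer (Ω ≃ₐ[K] Ω) (0 : Fin (2 * g + 1)) = rg K K⟮a 0⟯ Ω := by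
  letI := actN K a
  ext s
  rw [mem_stabilizer_iff]
  change pm K a s 0 = 0 ↔ _
  have h1 : pm K a s 0 = 0 ↔ s (a 0) = a 0 := by
    rw [← pm_spec K a s 0]
    exact ⟨fun h => by rw [h], fun h => RtG.inj K (a := a) h⟩
  rw [h1]
  constructor
  · intro h
    have h3 : s ∈ K⟮a 0⟯.fixingSubgroup := by
      have h4 : K⟮a 0⟯ ≤ IntermediateField.fixedField (Subgroup.zpowers s) := by
        rw [IntermediateField.adjoin_simple_le_iff]
        rintro ⟨t, ht⟩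
        obtain ⟨n, rfl⟩ := Subgroup.mem_zpowers_iff.1 ht
        change (s ^ n) (a 0) = a 0
        have h5 : s ∈ MulAction.stabilizer (Ω ≃ₐ[K] Ω) (a 0) := h
        exact (MulAction.stabilizer (Ω ≃ₐ[K] Ω) (a 0)).zpow_mem h5 n
      rw [IntermediateField.mem_fixingSubgroup_iff]
      intro x hx
      exact h4 hx ⟨s, Subgroup.mem_zpowers s⟩
    refine ⟨IntermediateField.fixingSubgroupEquiv K⟮a 0⟯ ⟨s, h3⟩, ?_⟩
    ext x
    rfl
  · rintro ⟨t, rfl⟩
    have h3 := t.commutes (IntermediateField.AdjoinSimple.gen K (a 0))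
    exact h3

end stab

section main

variable (k K Ω : Type) [Field k] [Finite k] [Field K] [Algebra k K] [Algebra (RatFunc k) K]
  [IsScalarTower k (RatFunc k) K] [FiniteDimensional (RatFunc k) K]
  [Algebra.IsSeparable (RatFunc k) K] [Field Ω] [Algebra K Ω] [IsSepClosure K Ω] {g : ℕ}
  (a : Fin (2 * g + 1) → Ω) [RtG K a] [HypA a]

/-- **Block F for `sysN`.** -/
theorem exists_sysT (h2 : (2 : k) ≠ 0) (hn : ((2 * g + 1).factorial : K) ≠ 0)
    (htr : ∀ i, ∃ s : Ω ≃ₐ[K] Ω, pm K a s i = 0) :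
    ∃ T0 : Finset (Place k K), FOk (sysT k K Ω a T0) ∧
      ∀ T : Set (Place k K), T.Finite → (sysT k K Ω a T0).goodᶜ ⊆ T →
        Ch.LagV (sysT k K Ω a T0) T := by
  have halg : Algebra.IsAlgebraic K Ω := (IsSepClosure.separable (k := K) (K := Ω)).isAlgebraic
  have hsep : Algebra.IsSeparable K Ω := IsSepClosure.separable
  have hsc : IsSepClosed Ω := IsSepClosure.sep_closed K
  have hfd : FiniteDimensional K K⟮a 0⟯ :=
    IntermediateField.adjoin.finiteDimensional (Algebra.IsIntegral.isIntegral (a 0))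
  have hsepL : IsSepClosure K⟮a 0⟯ Ω :=
    ⟨hsc, Algebra.isSeparable_tower_top_of_isSeparable K K⟮a 0⟯ Ω⟩
  letI algR : Algebra (RatFunc k) K⟮a 0⟯ :=
    ((algebraMap K K⟮a 0⟯).comp (algebraMap (RatFunc k) K)).toAlgebra
  letI algk : Algebra k K⟮a 0⟯ := ((algebraMap K K⟮a 0⟯).comp (algebraMap k K)).toAlgebra
  have ht1 : IsScalarTower (RatFunc k) K K⟮a 0⟯ := IsScalarTower.of_algebraMap_eq fun x => rfl
  have ht2 : IsScalarTower k (RatFunc k) K⟮a 0⟯ :=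
    IsScalarTower.of_algebraMap_eq fun x =>
      congrArg (algebraMap K K⟮a 0⟯) (IsScalarTower.algebraMap_apply k (RatFunc k) K x)
  have hfd2 : FiniteDimensional (RatFunc k) K⟮a 0⟯ := FiniteDimensional.trans (RatFunc k) K K⟮a 0⟯
  have hs2 : Algebra.IsSeparable (RatFunc k) K⟮a 0⟯ :=
    Algebra.IsSeparable.trans (RatFunc k) K K⟮a 0⟯
  have hH : HasseZ K⟮a 0⟯ Ω := by
    intro c hc hcoc hloc
    obtain ⟨b, ⟨U, _, hU, h1⟩, h3⟩ := Pool.Agent.GBUH.hasseK (k := k) (K := K⟮a 0⟯) h2 c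
      (by
        obtain ⟨U, hU, h1⟩ := hc
        exact ⟨U, hU, fun s t n hn m hm => h1 s t n hn m hm⟩) hcoc hloc
    exact ⟨b, ⟨U, hU, h1⟩, h3⟩
  letI := actN K a
  choose r hr using htr
  obtain ⟨T0, h1, h3⟩ := exists_fOk (L := K⟮a 0⟯) (X := Fin (2 * g + 1)) h2
    (S := sysN k K Ω a) ⟨rfl, fun _ => rfl, fun _ => rfl, fun _ => rfl⟩ (locDN h2 hn)
    (permOkN k K Ω a hn) (fun w h => dotE_nd w fun y => by rw [dotE_comm]; exact h y) (finite_bad_roots k K a (RtG.inj K)) (x0 := 0) (r := r) hr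
    stab_zero hH
  exact ⟨T0, h1, h3⟩

end main

end Pool.Agent.SmNJ
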