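import Pool.Agent.Lib.SmNJ.OkT
import Pool.Agent.Lib.SmNJ.FInst

/-!
SMITH for Jacobians without rational 2-torsion (MP_950c68_ag): `Sys.Ok` for the instance `sysT`,
unconditional, for a suitable finite set `T0`.
-/

set_option autoImplicit false

namespace Pool.Agent.SmNJ

open Pool.Agent.SmJ Pool.Agent.SmN
open Pool.Agent.SmJ.L (EV)
open Pool.Agent.BSDFF Pool.Agent.GBU

variable {k K Ω : Type} [Field k] [Finite k] [Field K] [Algebra k K] [Algebra (RatFunc k) K]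
  [IsScalarTower k (RatFunc k) K] [FiniteDimensional (RatFunc k) K]
  [Algebra.IsSeparable (RatFunc k) K] [Field Ω] [Algebra K Ω] [IsSepClosure K Ω]
  {g : ℕ} {a : Fin (2 * g + 1) → Ω} [RtG K a] [HypA a]

/-- **`Sys.Ok` for the instance `sysT`**, from the fields of block F. -/
theorem sysT_ok (h2 : (2 : k) ≠ 0) (hn : ((2 * g + 1).factorial : K) ≠ 0) {T0 : Set (Place k K)}
    (hT0 : T0.Finite) (h : FOk (sysT k K Ω a T0)) : (sysT k K Ω a T0).Ok :=
  sysT_ok_of h2 hn hT0 h.recip h.corr h.dual h.hasse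

/-- **`Sys.Ok` and `LagV` for the instance `sysT`**: no hypothesis left. -/
theorem exists_sysT_ok (h2 : (2 : k) ≠ 0) (hn : ((2 * g + 1).factorial : K) ≠ 0)
    (htr : ∀ i, ∃ s : Ω ≃ₐ[K] Ω, pm K a s i = 0) :
    ∃ T0 : Finset (Place k K), (sysT k K Ω a T0).Ok ∧
      ∀ T : Set (Place k K), T.Finite → (sysT k K Ω a T0).goodᶜ ⊆ T →
        Ch.LagV (sysT k K Ω a T0) T := by
  obtain ⟨T0, h1, h3⟩ := exists_sysT k K Ω a h2 hn htr
  exact ⟨T0, sysT_ok h2 hn T0.finite_toSet h1, h3⟩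

end Pool.Agent.SmNJ
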