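import Pool.Agent.Lib.SmNJ.AOkInst
import Pool.Agent.Lib.SmNJ.OkF
import Pool.Agent.Lib.SmNJ.BigIm
import Pool.Agent.Lib.SmNJ.XOkP
import Pool.Agent.Lib.SmBU.ChebT
import Pool.Agent.Lib.SmBU.CstK
import Pool.Agent.Lib.GBU.Pic

/-!
SMITH-U: the arithmetic facts `AOk` for the instance `sysT` over every global function field with
exact constant field `k`, when the Galois action on the 2-torsion is big (`BigIm`) and the
characteristic is prime to `(2 g + 1)!`.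
-/

set_option autoImplicit false

open Polynomial

namespace Pool.Agent.SmNJ

open Pool.Agent.SmJ
open Pool.Agent.SmJ.L (EV dotE)
open Pool.Agent.BSDFF Pool.Agent.GBU Pool.Agent.GBC
open Pool.Agent.SmN (AOk ChebT CData FOk)
open Pool.Agent.SmN.Ch (LagV LagF XX XT)

section main

variable (k K Ω : Type) [Field k] [Finite k] [Field K] [Algebra k K] [Algebra (RatFunc k) K]
  [IsScalarTower k (RatFunc k) K] [FiniteDimensional (RatFunc k) K]
  [Algebra.IsSeparable (RatFunc k) K] [Field Ω] [Algebra K Ω] [IsSepClosure K Ω] {g : ℕ}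
  (a : Fin (2 * g + 1) → Ω) [RtG K a] [HypA a]

variable {k K Ω a} in
/-- The structure `GeoOk` for `sysT`. -/
theorem geoOk_big (h2 : (2 : k) ≠ 0) (hb : BigIm K a) {T0 : Set (Place k K)}
    {fr : Ω ≃ₐ[K] Ω} (hfr : IsFrC k fr) :
    CData.GeoOk (S := sysT k K Ω a T0) (GeoK k K Ω) fr :=
  geoOk_of h2 rfl rfl hfr fun c hc h => hb.h1 c hc.2 fun s hs => h s (by
    change s ∈ (sysT k K Ω a T0).ac.ker
    rw [MonoidHom.mem_ker]
    ext1 w
    exact hs w)

/-- The arithmetic facts for `sysT`, from the properties of the Galois action on the 2-torsion. -/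
theorem aOk_core (h2 : (2 : k) ≠ 0) (hn : ((2 * g + 1).factorial : K) ≠ 0)
    (hk : ∀ x : K, IsIntegral k x → ∃ c : k, algebraMap k K c = x)
    (htr : ∀ i, ∃ s : Ω ≃ₐ[K] Ω, pm K a s i = 0)
    (hfix : ∀ w : EV g, (∀ s, acN K a s w = w) → w = 0)
    (hspan : ∀ (A : EV g →ₗ[ZMod 2] EV g) (ε : ZMod 2), ∃ U : Finset (Ω ≃ₐ[K] Ω),
      (∀ w, ∑ s ∈ U, acN K a s w = A w) ∧ (U.card : ZMod 2) = ε)
    (hgeo : ∀ (T0 : Set (Place k K)) (fr : Ω ≃ₐ[K] Ω), IsFrC k fr →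
      CData.GeoOk (S := sysT k K Ω a T0) (GeoK k K Ω) fr) {W : Set (Place k K)} (hW : W.Finite) :
    ∃ (T0 : Finset (Place k K)) (T : Set (Place k K)) (fr : Ω ≃ₐ[K] Ω) (ca cC m0 : ℕ),
      T.Finite ∧ W ⊆ T ∧ PrinOut T ∧ (sysT k K Ω a T0).goodᶜ ⊆ T ∧ IsFrC k fr ∧
      AOk (sysT k K Ω a T0) T Place.degree (Nat.card k) (GeoK k K Ω) fr ca cC m0 := by
  have hgal : IsGalois K Ω := IsSepClosure.isGalois
  obtain ⟨T0, hok, hV⟩ := exists_sysT_ok (k := k) (K := K) (Ω := Ω) (a := a) h2 hn htr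
  obtain ⟨G, -⟩ := exists_geo k K
  obtain ⟨T, hT, hsub, -, hP⟩ := exists_S G (W ∪ (sysT k K Ω a T0).goodᶜ)
    (hW.union (good_finT (Finset.finite_toSet T0)))
  obtain ⟨fr, hfr⟩ := exists_isFrC (k := k) (K := K) (Om := Ω) fun x hx =>
    hk x (SmBU.isIntegral_iff_isC.2 hx)
  obtain ⟨ca, cC, hC⟩ := SmBU.chebT (S := sysT k K Ω a T0) rfl rfl rfl h2 hT hfr
  obtain ⟨m0, hm, hm0⟩ := exists_pow_GN (sysT k K Ω a T0) fr
  refine ⟨T0, T, fr, ca, cC, m0, hT, Set.subset_union_left.trans hsub, hP,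
    Set.subset_union_right.trans hsub, hfr, ?_⟩
  exact
    { ok := hok
      fi := fun _ hN => NP.finiteIndex hN
      up := fun _ hN _ hN' hle => mem_NP_of_le hN hN' hle
      lagV := hV T hT (Set.subset_union_right.trans hsub)
      lagF := SmN.Ch.lagF_of h2 rfl rfl rfl rfl hT hP
      nofix := hfix
      span := hspan
      xok := xok k K hk hT
      geo := hgeo T0 fr hfr
      cheb := hC
      m0_pos := hm
      m0_mem := hm0 }

/-- **The arithmetic facts for `sysT`.** `W` is any finite set of places which `T` has to contain. -/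
theorem exists_aOk_big (h2 : (2 : k) ≠ 0) (hn : ((2 * g + 1).factorial : K) ≠ 0)
    (hk : ∀ x : K, IsIntegral k x → ∃ c : k, algebraMap k K c = x) (hg : 1 ≤ g)
    (hb : BigIm K a) {W : Set (Place k K)} (hW : W.Finite) :
    ∃ (T0 : Finset (Place k K)) (T : Set (Place k K)) (fr : Ω ≃ₐ[K] Ω) (ca cC m0 : ℕ),
      T.Finite ∧ W ⊆ T ∧ PrinOut T ∧ (sysT k K Ω a T0).goodᶜ ⊆ T ∧ IsFrC k fr ∧
      AOk (sysT k K Ω a T0) T Place.degree (Nat.card k) (GeoK k K Ω) fr ca cC m0 :=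
  aOk_core k K Ω a h2 hn hk (hb.trans hg) (hb.nofix hg) (hb.span' hg)
    (fun _ _ hfr => geoOk_big h2 hb hfr) hW

/-- The full symmetric group. -/
theorem exists_aOk (h2 : (2 : k) ≠ 0) (hn : ((2 * g + 1).factorial : K) ≠ 0)
    (hk : ∀ x : K, IsIntegral k x → ∃ c : k, algebraMap k K c = x)
    (hsurj : Function.Surjective (pm K a)) {W : Set (Place k K)} (hW : W.Finite) :
    ∃ (T0 : Finset (Place k K)) (T : Set (Place k K)) (fr : Ω ≃ₐ[K] Ω) (ca cC m0 : ℕ),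
      T.Finite ∧ W ⊆ T ∧ PrinOut T ∧ (sysT k K Ω a T0).goodᶜ ⊆ T ∧ IsFrC k fr ∧
      AOk (sysT k K Ω a T0) T Place.degree (Nat.card k) (GeoK k K Ω) fr ca cC m0 :=
  aOk_core k K Ω a h2 hn hk
    (fun i => by
      obtain ⟨s, hs⟩ := hsurj (Equiv.swap i 0)
      exact ⟨s, by rw [hs, Equiv.swap_apply_left]⟩)
    (nofix_perm hsurj) (span_perm hsurj) (fun _ _ hfr => geoOkT h2 hsurj hfr) hW

end main

end Pool.Agent.SmNJ
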