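import Pool.Agent.Lib.SmJ.E.Half
import Pool.Agent.Lib.SmJ.E.Act
import Pool.Agent.Lib.GBU.NP

/-!
SMITH for Jacobians without rational 2-torsion (MP_950c68_ag): the Galois module `J(Ω)` when the
roots `a i ∈ Ω` of `f = ∏ (x - a i)` are permuted by `Gal(Ω/K)`.

`RtG K a`: the standing hypotheses; `pm K a s` the permutation of the indices, `s (a i) = a (pm s i)`;
`gN K a s` the action on `JJ (ff a)`; `VN K a` the 2-power torsion with its action; `permE` the action
of the permutations on the even vectors, `acN` the action of the Galois group on them; `iotaN` the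
inclusion of the 2-torsion.
-/

set_option autoImplicit false

open Polynomial

namespace Pool.Agent.SmNJ

open Pool.Agent.SmJ
open Pool.Agent.SmJ.L (EV)

section perm

variable {g : ℕ}

/-- The action of the permutations on the even vectors. -/
def permE (g : ℕ) : Equiv.Perm (Fin (2 * g + 1)) →* (EV g ≃ₗ[ZMod 2] EV g) where
  toFun σ :=
    { toFun := fun x => ⟨fun i => x.1 (σ⁻¹ i), by
        have hx : ∑ i, x.1 i = 0 := x.2
        change ∑ i, x.1 (σ⁻¹ i) = 0
        rw [← hx]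
        exact Equiv.sum_comp σ⁻¹ x.1⟩
      invFun := fun x => ⟨fun i => x.1 (σ i), by
        have hx : ∑ i, x.1 i = 0 := x.2
        change ∑ i, x.1 (σ i) = 0
        rw [← hx]
        exact Equiv.sum_comp σ x.1⟩
      map_add' := fun x y => rfl
      map_smul' := fun c x => rfl
      left_inv := fun x => Subtype.ext (funext fun i => by
        change x.1 (σ⁻¹ (σ i)) = x.1 i
        simp)
      right_inv := fun x => Subtype.ext (funext fun i => by
        change x.1 (σ (σ⁻¹ i)) = x.1 i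
        simp) }
  map_one' := rfl
  map_mul' σ τ := by
    ext x i
    change x.1 ((σ * τ)⁻¹ i) = x.1 (τ⁻¹ (σ⁻¹ i))
    rw [mul_inv_rev, Equiv.Perm.mul_apply]

theorem permE_apply (σ : Equiv.Perm (Fin (2 * g + 1))) (x : EV g) (i : Fin (2 * g + 1)) :
    (permE g σ x).1 i = x.1 (σ⁻¹ i) := rfl

end perm

/-- The standing hypotheses: the `a i ∈ Ω` are distinct and permuted by the Galois group. -/
class RtG (K : Type) {Ω : Type} [Field K] [Field Ω] [Algebra K Ω] {g : ℕ}
    (a : Fin (2 * g + 1) → Ω) : Prop where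
  inj : Function.Injective a
  two : (2 : Ω) ≠ 0
  perm : ∀ (s : Ω ≃ₐ[K] Ω) (i : Fin (2 * g + 1)), ∃ j, s (a i) = a j

section main

variable (K : Type) {Ω : Type} [Field K] [Field Ω] [Algebra K Ω] {g : ℕ}
  (a : Fin (2 * g + 1) → Ω)

theorem hypA_of [RtG K a] : HypA a := ⟨RtG.inj K (a := a), RtG.two K a⟩

/-- The permutation of the indices. -/
noncomputable def pm [RtG K a] : (Ω ≃ₐ[K] Ω) →* Equiv.Perm (Fin (2 * g + 1)) where
  toFun s := Equiv.ofBijective (fun i => (RtG.perm (a := a) s i).choose) (by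
    have hinj : Function.Injective fun i => (RtG.perm (a := a) s i).choose := by
      intro i j h
      have h1 := (RtG.perm (a := a) s i).choose_spec
      have h2 := (RtG.perm (a := a) s j).choose_spec
      apply RtG.inj K (a := a)
      apply s.injective
      rw [h1, h2]
      exact congrArg a h
    exact Finite.injective_iff_bijective.mp hinj)
  map_one' := by
    ext i
    congr 1
    apply RtG.inj K (a := a)
    exact (RtG.perm (a := a) (1 : Ω ≃ₐ[K] Ω) i).choose_spec.symm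
  map_mul' s t := by
    ext i
    congr 1
    apply RtG.inj K (a := a)
    have h1 := (RtG.perm (a := a) (s * t) i).choose_spec
    have h2 := (RtG.perm (a := a) t i).choose_spec
    have h3 := (RtG.perm (a := a) s (RtG.perm (a := a) t i).choose).choose_spec
    change a (RtG.perm (a := a) (s * t) i).choose =
      a (RtG.perm (a := a) s (RtG.perm (a := a) t i).choose).choose
    rw [← h1, ← h3, ← h2]
    rfl

theorem pm_spec [RtG K a] (s : Ω ≃ₐ[K] Ω) (i : Fin (2 * g + 1)) : a (pm K a s i) = s (a i) :=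
  (RtG.perm (a := a) s i).choose_spec.symm

theorem pm_inv_spec [RtG K a] (s : Ω ≃ₐ[K] Ω) (i : Fin (2 * g + 1)) :
    s (a ((pm K a s)⁻¹ i)) = a i := by
  rw [← pm_spec]
  congr 1
  exact Equiv.apply_symm_apply _ i

theorem map_ffN [RtG K a] (s : Ω ≃ₐ[K] Ω) :
    (ff a).map (s.toRingEquiv : Ω →+* Ω) = ff a := by
  rw [ff, Polynomial.map_prod]
  rw [← Equiv.prod_comp (pm K a s) fun i => (X - C (a i) : Polynomial Ω)]
  refine Finset.prod_congr rfl fun i _ => ?_
  rw [Polynomial.map_sub, map_X, map_C, pm_spec K a s i]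
  rfl

/-- The Galois action on the Jacobian. -/
noncomputable def gN [RtG K a] [IsDedekindDomain (Co (ff a))] (s : Ω ≃ₐ[K] Ω) :
    JJ (ff a) →+ JJ (ff a) := act s.toRingEquiv (map_ffN K a s)

variable [RtG K a] [HypA a]

theorem gN_mI (s : Ω ≃ₐ[K] Ω) (A B : Polynomial Ω) : gN K a s (cls (mI A B)) =
    cls (mI (A.map (s.toRingEquiv : Ω →+* Ω)) (B.map (s.toRingEquiv : Ω →+* Ω))) := act_mI _ _ _ _

theorem gN_one (Q : JJ (ff a)) : gN K a 1 Q = Q := by
  obtain ⟨A, B, -, -, rfl⟩ := exists_cls_mI Q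
  rw [gN_mI]
  have h : (((1 : Ω ≃ₐ[K] Ω).toRingEquiv : Ω ≃+* Ω) : Ω →+* Ω) = RingHom.id Ω := rfl
  rw [h, Polynomial.map_id, Polynomial.map_id]

theorem gN_mul (s t : Ω ≃ₐ[K] Ω) (Q : JJ (ff a)) :
    gN K a (s * t) Q = gN K a s (gN K a t Q) := by
  obtain ⟨A, B, -, -, rfl⟩ := exists_cls_mI Q
  rw [gN_mI, gN_mI, gN_mI]
  have h : (((s * t).toRingEquiv : Ω ≃+* Ω) : Ω →+* Ω) =
      (s.toRingEquiv : Ω →+* Ω).comp (t.toRingEquiv : Ω →+* Ω) := rfl
  rw [h, Polynomial.map_map, Polynomial.map_map]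

/-- Every class is defined over a finite extension. -/
theorem gN_level [Algebra.IsIntegral K Ω] (Q : JJ (ff a)) :
    ∃ L : IntermediateField K Ω, FiniteDimensional K L ∧
      ∀ s t : Ω ≃ₐ[K] Ω, (∀ x ∈ L, s x = t x) → gN K a s Q = gN K a t Q := by
  classical
  obtain ⟨A, B, -, -, rfl⟩ := exists_cls_mI Q
  let S : Finset Ω := (Finset.range (A.natDegree + 1)).image A.coeff ∪
    (Finset.range (B.natDegree + 1)).image B.coeff
  refine ⟨IntermediateField.adjoin K (S : Set Ω),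
    IntermediateField.finiteDimensional_adjoin fun x _ => Algebra.IsIntegral.isIntegral x, ?_⟩
  intro s t hst
  have key : ∀ P : Polynomial Ω, (∀ i, i ≤ P.natDegree → P.coeff i ∈ S) →
      P.map (s.toRingEquiv : Ω →+* Ω) = P.map (t.toRingEquiv : Ω →+* Ω) := by
    intro P hP
    ext i
    rw [coeff_map, coeff_map]
    by_cases hi : i ≤ P.natDegree
    · exact hst _ (IntermediateField.subset_adjoin K _ (hP i hi))
    · rw [coeff_eq_zero_of_natDegree_lt (not_le.mp hi), map_zero, map_zero]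
  rw [gN_mI, gN_mI, key A, key B]
  · intro i hi
    exact Finset.mem_union_right _ (Finset.mem_image_of_mem _ (Finset.mem_range.mpr (by omega)))
  · intro i hi
    exact Finset.mem_union_left _ (Finset.mem_image_of_mem _ (Finset.mem_range.mpr (by omega)))

theorem gN_ee (s : Ω ≃ₐ[K] Ω) (i : Fin (2 * g + 1)) :
    gN K a s (ee a i) = ee a (pm K a s i) := by
  change act _ _ (br a i).cl = (br a (pm K a s i)).cl
  rw [act_cl]
  congr 1
  ext
  · exact (pm_spec K a s i).symm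
  · exact map_zero s

theorem gN_io (s : Ω ≃ₐ[K] Ω) (x : Fin (2 * g + 1) → ZMod 2) :
    gN K a s (io a x) = io a (fun i => x ((pm K a s)⁻¹ i)) := by
  rw [io_apply, map_sum, io_apply,
    ← Equiv.sum_comp (pm K a s) fun i => eH a i (x ((pm K a s)⁻¹ i))]
  refine Finset.sum_congr rfl fun i _ => ?_
  have hi : (pm K a s)⁻¹ (pm K a s i) = i := Equiv.symm_apply_apply _ i
  rw [hi]
  rcases zcase (x i) with h | h
  · rw [h, map_zero, map_zero, map_zero]
  · rw [h, eH_one, eH_one, gN_ee]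

omit [RtG K a] [HypA a] in
/-- The 2-power torsion of the Jacobian. -/
noncomputable def VN : AddSubgroup (JJ (ff a)) := twoTors _

variable {K a}

theorem gN_mem_VN (s : Ω ≃ₐ[K] Ω) {P : JJ (ff a)} (hP : P ∈ VN a) : gN K a s P ∈ VN a := by
  obtain ⟨n, hn⟩ := hP
  exact ⟨n, by rw [← map_nsmul, hn, map_zero]⟩

/-- The Galois action on the 2-power torsion. -/
noncomputable instance vnAction : DistribMulAction (Ω ≃ₐ[K] Ω) (VN a) where
  smul s P := ⟨gN K a s P.1, gN_mem_VN s P.2⟩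
  one_smul P := Subtype.ext (gN_one K a P.1)
  mul_smul s t P := Subtype.ext (gN_mul K a s t P.1)
  smul_zero s := Subtype.ext (map_zero (gN K a s))
  smul_add s P Q := Subtype.ext (map_add (gN K a s) P.1 Q.1)

theorem coe_smul_VN (s : Ω ≃ₐ[K] Ω) (P : VN a) :
    ((s • P : VN a) : JJ (ff a)) = gN K a s P := rfl

end main

section torsion

variable {Ω : Type} [Field Ω] {g : ℕ} {a : Fin (2 * g + 1) → Ω}

theorem tors_VN (Q : VN a) : ∃ j : ℕ, (2 : ℕ) ^ j • Q = 0 := by
  obtain ⟨n, hn⟩ := Q.2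
  exact ⟨n, Subtype.ext hn⟩

theorem mem_VN_of_two {P : JJ (ff a)} (h : (2 : ℕ) • P = 0) : P ∈ VN a :=
  ⟨1, by rwa [pow_one]⟩

variable [HypA a]

theorem two_ioN (x : Fin (2 * g + 1) → ZMod 2) : (2 : ℕ) • io a x = 0 := by
  rw [two_nsmul]
  exact io_add_self _ x

variable (a) in
/-- The inclusion of the 2-torsion. -/
noncomputable def iotaN : EV g →+ VN a where
  toFun x := ⟨io a x, mem_VN_of_two (two_ioN _)⟩
  map_zero' := Subtype.ext (map_zero _)
  map_add' _ _ := Subtype.ext (map_add _ _ _)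

theorem coe_iotaN (x : EV g) : ((iotaN a x : VN a) : JJ (ff a)) =
    io a (x : Fin (2 * g + 1) → ZMod 2) := rfl

theorem iotaN_injective : Function.Injective (iotaN a) := by
  rw [injective_iff_map_eq_zero]
  intro x hx
  exact Subtype.ext (io_inj a x.2 (congrArg Subtype.val hx))

theorem iotaN_range [IsSepClosed Ω] (Q : VN a) (hQ : (2 : ℕ) • Q = 0) :
    ∃ x, iotaN a x = Q := by
  obtain ⟨x, hx, h⟩ := io_range a (congrArg Subtype.val hQ)
  exact ⟨⟨x, hx⟩, Subtype.ext h⟩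

theorem two_iotaN (x : EV g) : (2 : ℕ) • iotaN a x = 0 := Subtype.ext (two_ioN _)

theorem cardN_two [IsSepClosed Ω] :
    Nat.card {Q : JJ (ff a) // (2 : ℕ) • Q = 0} = Nat.card (EV g) := by
  symm
  refine Nat.card_congr (Equiv.ofBijective (fun x => ⟨io a x, two_ioN _⟩) ⟨?_, ?_⟩)
  · intro x y h
    apply iotaN_injective (a := a)
    have h1 : io a (x : Fin (2 * g + 1) → ZMod 2) = io a y :=
      congrArg Subtype.val h
    exact Subtype.ext h1
  · rintro ⟨Q, hQ⟩
    obtain ⟨x, hx, h⟩ := io_range a hQ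
    exact ⟨⟨x, hx⟩, Subtype.ext h⟩

theorem half_VN [IsSepClosed Ω] (Q : VN a) : ∃ R : VN a, (2 : ℕ) • R = Q := by
  obtain ⟨R, hR⟩ := exists_half Q.1
  obtain ⟨n, hn⟩ := Q.2
  exact ⟨⟨R, n + 1, by rw [pow_succ, mul_smul, hR, hn]⟩, Subtype.ext hR⟩

theorem finite_torsN [IsSepClosed Ω] (j : ℕ) : {Q : VN a | (2 : ℕ) ^ j • Q = 0}.Finite := by
  have h1 : Finite {Q : JJ (ff a) // (2 : ℕ) ^ j • Q = 0} := by
    refine Nat.finite_of_card_ne_zero ?_
    rw [card_tors exists_half, cardN_two]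
    exact pow_ne_zero j Nat.card_pos.ne'
  have h4 : Function.Injective (fun Q : {Q : VN a | (2 : ℕ) ^ j • Q = 0} =>
      (⟨Q.1.1, congrArg Subtype.val Q.2⟩ : {Q : JJ (ff a) // (2 : ℕ) ^ j • Q = 0})) := by
    intro Q R h
    have := congrArg Subtype.val h
    exact Subtype.ext (Subtype.ext this)
  exact @Set.toFinite _ _ (Finite.of_injective _ h4)

end torsion

section fix

variable {K : Type} {Ω : Type} [Field K] [Field Ω] [Algebra K Ω] {g : ℕ}
  {a : Fin (2 * g + 1) → Ω} [RtG K a] [HypA a]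

variable (K a) in
/-- The action on the 2-torsion. -/
noncomputable def acN : (Ω ≃ₐ[K] Ω) →* (EV g ≃ₗ[ZMod 2] EV g) := (permE g).comp (pm K a)

theorem smul_iotaN (s : Ω ≃ₐ[K] Ω) (x : EV g) : s • iotaN a x = iotaN a (acN K a s x) :=
  Subtype.ext (gN_io K a s x)

variable (K a) in
/-- The action on the indices. -/
@[instance_reducible] noncomputable def actN : MulAction (Ω ≃ₐ[K] Ω) (Fin (2 * g + 1)) :=
  MulAction.compHom _ (pm K a)

variable (K a) in
/-- The subgroup acting trivially on the `2 ^ j`-torsion. -/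
def fixN (j : ℕ) : Subgroup (Ω ≃ₐ[K] Ω) where
  carrier := {σ | ∀ Q : VN a, (2 : ℕ) ^ j • Q = 0 → σ • Q = Q}
  one_mem' := fun Q _ => one_smul _ Q
  mul_mem' := by
    intro σ τ hσ hτ Q hQ
    rw [mul_smul, hτ Q hQ, hσ Q hQ]
  inv_mem' := by
    intro σ hσ Q hQ
    rw [inv_smul_eq_iff, hσ Q hQ]

theorem exists_pow_fixN [IsSepClosed Ω] (σ : Ω ≃ₐ[K] Ω) (j : ℕ) :
    ∃ m : ℕ, σ ^ ((2 * g + 1).factorial * 2 ^ m) ∈ fixN K a j := by
  have hperm : pm K a (σ ^ (2 * g + 1).factorial) = 1 := by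
    have h1 : Fintype.card (Equiv.Perm (Fin (2 * g + 1))) = (2 * g + 1).factorial := by
      rw [Fintype.card_perm, Fintype.card_fin]
    rw [map_pow, ← h1]
    exact pow_card_eq_one
  have hfix : ∀ (i : ℕ) (x : EV g), (σ ^ ((2 * g + 1).factorial * i)) • iotaN a x = iotaN a x := by
    intro i x
    rw [smul_iotaN, pow_mul]
    congr 1
    change permE g (pm K a ((σ ^ (2 * g + 1).factorial) ^ i)) x = x
    rw [map_pow, hperm, one_pow, map_one]
    rfl
  induction j with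
  | zero =>
    refine ⟨0, fun Q hQ => ?_⟩
    rw [pow_zero, one_smul] at hQ
    rw [hQ, smul_zero]
  | succ j ih =>
    obtain ⟨m, hm⟩ := ih
    refine ⟨m + 1, fun Q hQ => ?_⟩
    have hτf : ∀ x : EV g, (σ ^ ((2 * g + 1).factorial * 2 ^ m)) • iotaN a x = iotaN a x :=
      hfix _
    set τ := σ ^ ((2 * g + 1).factorial * 2 ^ m) with hτ
    have e : σ ^ ((2 * g + 1).factorial * 2 ^ (m + 1)) = τ * τ := by
      rw [hτ, ← pow_add]
      congr 1
      ring
    have h1 : τ • ((2 : ℕ) • Q) = (2 : ℕ) • Q := by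
      apply hm
      rw [← mul_smul, ← pow_succ, hQ]
    have h3 : (2 : ℕ) • (τ • Q - Q) = 0 := by
      rw [smul_sub, smul_comm, h1, sub_self]
    obtain ⟨w, hw⟩ := iotaN_range _ h3
    have h4 : τ • (τ • Q - Q) = τ • Q - Q := by rw [← hw, hτf]
    rw [e, mul_smul]
    have h5 : τ • Q = Q + (τ • Q - Q) := by abel
    have h6 : (τ • Q - Q) + (τ • Q - Q) = 0 := by rw [← two_smul ℕ, h3]
    calc τ • τ • Q = τ • (Q + (τ • Q - Q)) := by rw [← h5]
      _ = τ • Q + (τ • Q - Q) := by rw [smul_add, h4]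
      _ = Q + ((τ • Q - Q) + (τ • Q - Q)) := by abel
      _ = Q := by rw [h6, add_zero]

theorem isOpen_fixN [Algebra.IsIntegral K Ω] (Q : VN a) :
    IsOpen (MulAction.stabilizer (Ω ≃ₐ[K] Ω) Q : Set (Ω ≃ₐ[K] Ω)) := by
  obtain ⟨L, hL, hst⟩ := gN_level K a Q.1
  refine Subgroup.isOpen_mono (H₁ := L.fixingSubgroup) (fun s hs => ?_)
    (IntermediateField.fixingSubgroup_isOpen L)
  rw [MulAction.mem_stabilizer_iff]
  refine Subtype.ext ?_
  rw [coe_smul_VN, hst s 1 fun x hx => ?_, gN_one]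
  exact (IntermediateField.mem_fixingSubgroup_iff _ _).mp hs x hx

instance fixN_normal (j : ℕ) : (fixN K a j).Normal := by
  refine ⟨fun σ hσ τ Q hQ => ?_⟩
  rw [mul_smul, mul_smul, hσ, smul_inv_smul]
  rw [smul_comm, hQ, smul_zero]

theorem fixN_isOpen [Algebra.IsIntegral K Ω] [IsSepClosed Ω] (j : ℕ) :
    IsOpen (fixN K a j : Set (Ω ≃ₐ[K] Ω)) := by
  have hfin := finite_torsN (a := a) j
  have h3 : (fixN K a j : Set (Ω ≃ₐ[K] Ω)) =
      ⋂ Q ∈ {Q : VN a | (2 : ℕ) ^ j • Q = 0},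
        (MulAction.stabilizer (Ω ≃ₐ[K] Ω) Q : Set (Ω ≃ₐ[K] Ω)) := by
    ext σ
    simp only [Set.mem_iInter]
    exact Iff.rfl
  rw [h3]
  exact hfin.isOpen_biInter fun Q _ => isOpen_fixN Q

/-- The prime divisors of the index of a normal subgroup divide the exponents. -/
theorem not_dvd_index {G : Type} [Group G] (N : Subgroup G) [N.Normal] [Finite (G ⧸ N)] {p n : ℕ}
    (hp : p.Prime) (hpn : ¬ p ∣ n) (h : ∀ s : G, ∃ m : ℕ, s ^ (n * 2 ^ m) ∈ N) (hp2 : p ≠ 2) :
    ¬ p ∣ N.index := by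
  intro hd
  have := Fact.mk hp
  obtain ⟨x, hx⟩ := exists_prime_orderOf_dvd_card' (G := G ⧸ N) p hd
  obtain ⟨s, rfl⟩ := QuotientGroup.mk_surjective x
  obtain ⟨m, hm⟩ := h s
  have h1 : (QuotientGroup.mk s : G ⧸ N) ^ (n * 2 ^ m) = 1 := by
    rw [← QuotientGroup.mk_pow]
    exact (QuotientGroup.eq_one_iff _).mpr hm
  have h2 := orderOf_dvd_of_pow_eq_one h1
  rw [hx] at h2
  rcases hp.dvd_mul.mp h2 with h3 | h3
  · exact hpn h3
  · exact hp2 ((Nat.prime_dvd_prime_iff_eq hp Nat.prime_two).mp (hp.dvd_of_dvd_pow h3))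

/-- 2-finiteness of the action, in the family `NP` (index prime to the characteristic). -/
theorem act_finN [IsGalois K Ω] [IsSepClosed Ω] (h2 : (2 : K) ≠ 0)
    (hn : ((2 * g + 1).factorial : K) ≠ 0) (j : ℕ) :
    ∃ N ∈ Pool.Agent.GBU.NP K Ω, ∀ s ∈ N, ∀ Q : VN a, (2 : ℕ) ^ j • Q = 0 → s • Q = Q := by
  refine ⟨fixN K a j, ⟨inferInstance, fixN_isOpen j, ?_⟩, fun s hs Q hQ => hs Q hQ⟩
  have hop := fixN_isOpen (K := K) (a := a) j
  have hfin : Finite ((Ω ≃ₐ[K] Ω) ⧸ fixN K a j) := Subgroup.quotient_finite_of_isOpen _ hop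
  have hidx : (fixN K a j).index ≠ 0 := by
    rw [Subgroup.index_eq_card]
    exact Nat.card_pos.ne'
  intro h0
  obtain ⟨p, hp⟩ := CharP.exists K
  have hpd : p ∣ (fixN K a j).index := (CharP.cast_eq_zero_iff K p _).mp h0
  have hp0 : p ≠ 0 := by
    rintro rfl
    exact hidx (zero_dvd_iff.mp hpd)
  have hpp : p.Prime := (CharP.char_is_prime_or_zero K p).resolve_right hp0
  refine not_dvd_index (fixN K a j) hpp (n := (2 * g + 1).factorial) ?_
    (fun σ => exists_pow_fixN σ j) ?_ hpd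
  · intro hd
    exact hn ((CharP.cast_eq_zero_iff K p _).mpr hd)
  · rintro rfl
    apply h2
    exact_mod_cast (CharP.cast_eq_zero_iff K 2 2).mpr dvd_rfl

end fix

end Pool.Agent.SmNJ
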