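import Pool.Agent.Lib.SmNJ.SysT
import Pool.Agent.Lib.SmN.P.MultN
import Pool.Agent.Lib.SmN.P.MultKN
import Pool.Agent.Lib.SmJ.P.Mult

/-!
# SMITH for Jacobians without rational 2-torsion, parity: the places with one node

`Node`: the roots are integral at `v` and exactly the two roots `a i`, `a j` may coincide modulo the
maximal ideal above `v`.
`node_fst`: for an unramified twist the first components of the elements of the Kummer group are `0`
or `w0 = e_i + e_j`.
`nodeA`: if moreover the value of `(a i - a j) ^ 2` is odd (the discriminant of `f` has odd value at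
`v`), then for all unramified `chi`, `chi'` the Kummer groups at `v` agree and
`wv chi chi' v + dk (sg v) = 1`.
-/

set_option autoImplicit false

open Polynomial

namespace Pool.Agent.SmNJ

open Pool.Agent.SmJ
open Pool.Agent.SmJ.L (EV dotE dotE_apply dotE_comm dotE_dd dd dd_apply)
open Pool.Agent.SmJ.Mult (even_card_filter eq_of_sub io_eq_sum dd_ne)
open Pool.Agent.BSDFF Pool.Agent.GBU Pool.Agent.Lib.SmD

/-- Unramified characters vanish on the inertia group. -/
theorem hom_inerK {k K Om : Type} [Field k] [Finite k] [Field K] [Algebra k K]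
    [Algebra (RatFunc k) K] [IsScalarTower k (RatFunc k) K] [FiniteDimensional (RatFunc k) K]
    [Field Om] [Algebra K Om] [IsSepClosure K Om] (h2 : (2 : k) ≠ 0) {v : Place k K}
    {c : (Om ≃ₐ[K] Om) → ZMod 2} (hc : ∀ s t, c (s * t) = c s + c t)
    (hfin : ∃ N ∈ NP K Om, ∀ s, ∀ n ∈ N, c (s * n) = c s) (h0 : c (sgK Om v) = 0) :
    ∀ s ∈ iner K (abK Om v), c s = 0 := by
  have hsc : IsSepClosed Om := IsSepClosure.sep_closed K
  have hgal : IsGalois K Om := inferInstance
  obtain ⟨π, hπ⟩ := IsDiscreteValuationRing.exists_irreducible v.ring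
  have hL := locHyp_of_below h2 v (abK Om v) (below_abK Om v) hπ
  obtain ⟨N, hN, hN'⟩ := hfin
  obtain ⟨L, hL1, -, -, hL4⟩ := exists_field_of_mem_NP hN
  refine hom_iner hL ((sgK_tg h2 v).isSg hL) (fun s _ t _ => hc s t) ⟨L, hL1, ?_⟩ h0
  intro s _ t _ hst
  have h1 : s⁻¹ * t ∈ N := by
    rw [← hL4, IntermediateField.mem_fixingSubgroup_iff]
    intro x hx
    rw [AlgEquiv.mul_apply, ← hst x hx]
    exact AlgEquiv.symm_apply_apply s x
  have h3 := hN' s _ h1
  rw [mul_inv_cancel_left] at h3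
  exact h3.symm

/-- A transposition of the indices acts as a transvection. -/
theorem permE_swap {g : ℕ} {i j : Fin (2 * g + 1)} (hij : i ≠ j)
    {σ : Equiv.Perm (Fin (2 * g + 1))} (hσ : σ = Equiv.swap i j) (z : EV g) :
    permE g σ z = z + dotE g z (dd i j) • dd i j := by
  apply Subtype.ext
  funext r
  rw [permE_apply, hσ, Equiv.swap_inv, dotE_comm, dotE_dd]
  change _ = z.1 r + (z.1 i + z.1 j) * (dd i j : EV g).1 r
  rw [dd_apply]
  have key : ∀ x y : ZMod 2, y = x + (x + y) * 1 := by decide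
  by_cases h1 : r = i
  · subst h1
    rw [Equiv.swap_apply_left, if_pos rfl, if_neg hij, add_zero]
    exact key _ _
  · by_cases h2 : r = j
    · subst h2
      rw [Equiv.swap_apply_right, if_pos rfl, if_neg h1, zero_add, add_comm (z.1 i)]
      exact key _ _
    · rw [Equiv.swap_apply_of_ne_of_ne h1 h2, if_neg h1, if_neg h2]
      ring

section node

variable {k K Ω : Type} [Field k] [Field K] [Field Ω] [Algebra k K] [Algebra K Ω] {g : ℕ}

/-- The reduction at `v` has at most one double root, `a i = a j`. -/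
structure Node (a : Fin (2 * g + 1) → Ω) (v : Place k K) (i j : Fin (2 * g + 1)) : Prop where
  ne : i ≠ j
  int : ∀ l, (abK Ω v).valuation (a l) ≤ 1
  unit : ∀ r, r ≠ i → r ≠ j → ∀ s, s ≠ r → (abK Ω v).valuation (a r - a s) = 1

variable {a : Fin (2 * g + 1) → Ω} [RtG K a] {v : Place k K} {i j : Fin (2 * g + 1)}

/-- The inertia group fixes the simple roots. -/
theorem Node.fix (h : Node a v i j) {s : Ω ≃ₐ[K] Ω} (hs : s ∈ iner K (abK Ω v))
    {r : Fin (2 * g + 1)} (hi : r ≠ i) (hj : r ≠ j) : pm K a s r = r := by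
  by_contra hne
  have h1 := h.unit r hi hj _ hne
  rw [pm_spec K a s r] at h1
  have h3 : (abK Ω v).valuation (s (a r) - a r) < 1 := by
    have hm : a r ∈ abK Ω v := by
      rw [← ValuationSubring.valuation_le_one_iff]
      exact h.int r
    exact hs.2 _ hm
  rw [Valuation.map_sub_swap] at h1
  rw [h1] at h3
  exact lt_irrefl _ h3

theorem Node.fixa (h : Node a v i j) {s : Ω ≃ₐ[K] Ω} (hs : s ∈ iner K (abK Ω v))
    {r : Fin (2 * g + 1)} (hi : r ≠ i) (hj : r ≠ j) : s (a r) = a r := by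
  rw [← pm_spec K a s r, h.fix hs hi hj]

/-- The inertia group acts on the double root. -/
theorem Node.cases (h : Node a v i j) {s : Ω ≃ₐ[K] Ω} (hs : s ∈ iner K (abK Ω v)) :
    (pm K a s = 1) ∨ pm K a s = Equiv.swap i j := by
  have hij := h.ne
  have hinj := (pm K a s).injective
  have hmem : ∀ r, (r = i ∨ r = j) → (pm K a s r = i ∨ pm K a s r = j) := by
    intro r hr
    by_contra hc
    push Not at hc
    have h1 := h.fix hs hc.1 hc.2
    have h2 := hinj h1
    rcases hr with rfl | rfl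
    · exact hc.1 h2
    · exact hc.2 h2
  rcases hmem i (Or.inl rfl) with h1 | h1
  · left
    have h2 : pm K a s j = j := by
      rcases hmem j (Or.inr rfl) with h3 | h3
      · exact absurd (hinj (h3.trans h1.symm)) hij.symm
      · exact h3
    ext r
    by_cases hi : r = i
    · rw [hi, h1]; rfl
    · by_cases hj : r = j
      · rw [hj, h2]; rfl
      · rw [h.fix hs hi hj]; rfl
  · right
    have h2 : pm K a s j = i := by
      rcases hmem j (Or.inr rfl) with h3 | h3
      · exact h3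
      · exact absurd (hinj (h3.trans h1.symm)) hij.symm
    ext r
    by_cases hi : r = i
    · rw [hi, h1, Equiv.swap_apply_left]
    · by_cases hj : r = j
      · rw [hj, h2, Equiv.swap_apply_right]
      · rw [h.fix hs hi hj, Equiv.swap_apply_of_ne_of_ne hi hj]

variable [HypA a] [Finite k] [Algebra (RatFunc k) K] [IsScalarTower k (RatFunc k) K]
  [FiniteDimensional (RatFunc k) K] [IsSepClosure K Ω]

/-- **The first components** at a place with one node. -/
theorem Node.fst (h : Node a v i j) (h2 : (2 : k) ≠ 0) (hinf : Infinite K)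
    {chi : (Ω ≃ₐ[K] Ω) → ZMod 2} (hchi : (sysN k K Ω a).HomG chi)
    (h0 : chi (sgK Ω v) = 0) :
    ∀ x ∈ (sysN k K Ω a).W chi v, x.1 = 0 ∨ x.1 = dd i j := by
  have hsc : IsSepClosed Ω := IsSepClosure.sep_closed K
  have hgal : IsGalois K Ω := inferInstance
  obtain ⟨π, hπ⟩ := IsDiscreteValuationRing.exists_irreducible v.ring
  have hL := locHyp_of_below h2 v (abK Ω v) (below_abK Ω v) hπ
  have hI := hom_inerK h2 hchi.2 hchi.1 h0
  have hsgI : sgK Ω v ∈ iner K (abK Ω v) := sgK_iner h2 v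
  rintro x ⟨Q, hQ, hx1, -⟩
  have hdl : ∀ s ∈ iner K (abK Ω v), SmN.dl chi Q s = s • Q - Q := by
    intro s hs
    unfold SmN.dl SmN.tw
    rw [hI s hs]
    have hs0 : SmN.sgn 0 = 1 := rfl
    rw [hs0, one_smul]
  refine eq_of_sub h.ne x.1 ?_
  have hx1' : SmN.dl chi Q (sgK Ω v) = iotaN a x.1 := hx1
  have hact : act ((sgK Ω v : Ω ≃ₐ[K] Ω) : Ω ≃+* Ω) (map_ffN K a (sgK Ω v)) Q.1 =
      Q.1 + ∑ r ∈ Finset.univ.filter (fun r => x.1.1 r = 1), ee a r := by
    rw [hdl _ hsgI] at hx1'
    have h3 := congrArg Subtype.val hx1'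
    have h4 : gN K a (sgK Ω v) Q.1 - Q.1 = io a x.1.1 := h3
    rw [← io_eq_sum, ← h4, add_sub_cancel]
    rfl
  have h5 := SmN.Mult.sub_pair hL (p := fun s l => pm K a s l)
    (fun s l => (pm_spec K a s l).symm) (map_ffN K a) h.unit
    (fun s hs r hi hj => h.fixa hs hi hj) (Q := Q.1) ?_ hsgI (even_card_filter x.1) hact
  · intro r hr
    exact h5 r (Finset.mem_filter.mpr ⟨Finset.mem_univ r, hr⟩)
  · intro s hs hm
    have h1 := hQ s (iner_le_dec _ _ hs)
    rw [hdl s hs] at h1
    have h3 : s • ((2 : ℕ) • Q) = (2 : ℕ) • Q := by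
      rw [smul_sub, sub_eq_zero] at h1
      rw [smul_comm]
      exact h1
    exact congrArg Subtype.val h3

/-- At a node of odd thickness the tame generator interchanges the two roots. -/
theorem Node.swap (h : Node a v i j) (h2 : (2 : k) ≠ 0) {π : v.ring} (hπ : Irreducible π) {n : ℤ}
    (hn : (abK Ω v).valuation ((a i - a j) ^ 2) =
      (abK Ω v).valuation (algebraMap K Ω (π : K)) ^ (2 * n + 1)) :
    pm K a (sgK Ω v) = Equiv.swap i j := by
  have hsc : IsSepClosed Ω := IsSepClosure.sep_closed K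
  have hgal : IsGalois K Ω := inferInstance
  have hL := locHyp_of_below h2 v (abK Ω v) (below_abK Ω v) hπ
  have hsg := (sgK_tg (Om := Ω) h2 v).isSg hL
  have h20 : (2 : Ω) ≠ 0 := HypA.two a
  obtain ⟨ρ, hρ⟩ := Pool.Agent.Lib.SmD.exists_sqrt h20 (algebraMap K Ω (π : K))
  have hsgρ : sgK Ω v ρ = -ρ := by
    have h1 := SmF.chi_spec hρ (sgK Ω v)
    rw [hsg.2, ZMod.val_one, pow_one, neg_one_mul] at h1
    exact h1
  rcases h.cases hsg.1 with h1 | h1
  · exfalso
    have hi : sgK Ω v (a i) = a i := by rw [← pm_spec K a, h1]; rfl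
    have hj : sgK Ω v (a j) = a j := by rw [← pm_spec K a, h1]; rfl
    have h3 : sgK Ω v (a i - a j) = a i - a j := by rw [map_sub, hi, hj]
    have h4 : sgK Ω v (a i - a j) = -(a i - a j) :=
      Pool.Agent.Sm.Mult.move_odd hL hsg.1 hρ hsgρ (n := n) (by rw [map_pow, h3]) hn
    have h5 : 2 * (a i - a j) = 0 := by linear_combination h4 - h3
    have h6 := (mul_eq_zero.mp h5).resolve_left h20
    exact h.ne (HypA.inj (a := a) (sub_eq_zero.mp h6))
  · exact h1

/-- `sg v` acts as a transvection. -/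
theorem Node.trv (h : Node a v i j) (h2 : (2 : k) ≠ 0) {π : v.ring} (hπ : Irreducible π) {n : ℤ}
    (hn : (abK Ω v).valuation ((a i - a j) ^ 2) =
      (abK Ω v).valuation (algebraMap K Ω (π : K)) ^ (2 * n + 1)) :
    (sysN k K Ω a).Trv v (dd i j) :=
  ⟨dd_ne h.ne, fun z => permE_swap h.ne (h.swap h2 hπ hn) z⟩

/-- **A node of odd thickness**: unramified twists do not change the Kummer group, and the sign
changes. -/
theorem nodeA (h : Node a v i j) (h2 : (2 : k) ≠ 0) (hinf : Infinite K) {T0 : Set (Place k K)}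
    (hok : (sysT k K Ω a T0).Ok) {π : v.ring} (hπ : Irreducible π) {n : ℤ}
    (hn : (abK Ω v).valuation ((a i - a j) ^ 2) =
      (abK Ω v).valuation (algebraMap K Ω (π : K)) ^ (2 * n + 1))
    {chi chi' : (Ω ≃ₐ[K] Ω) → ZMod 2} (hchi : (sysT k K Ω a T0).HomG chi)
    (hchi' : (sysT k K Ω a T0).HomG chi') (h0 : chi (sgK Ω v) = 0) (h0' : chi' (sgK Ω v) = 0) :
    (sysT k K Ω a T0).wv chi chi' v + (sysT k K Ω a T0).dk (sgK Ω v) = 1 := by
  have htr : (sysT k K Ω a T0).Trv v (dd i j) := h.trv h2 hπ hn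
  exact htr.flip hok hchi hchi' (h.fst h2 hinf hchi h0) (h.fst h2 hinf hchi' h0')

end node

end Pool.Agent.SmNJ
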