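import Pool.Agent.Lib.SmNJ.SysT
import Pool.Agent.Lib.SmNJ.Geo
import Pool.Agent.Lib.SmN.J.Main
import Pool.Agent.Lib.SmN.I.GridThmF
import Pool.Agent.Lib.SmN.Asm.Abs
import Pool.Agent.Lib.SmN.Ch.FInst
import Pool.Agent.Lib.SmN.Sn.Span
import Pool.Agent.Lib.SmN.Sn.H1

/-!
SMITH for Jacobians without rational 2-torsion: the structure `AOk` for the instance `sysT`, when the
Galois group permutes the roots as the full symmetric group, and the conclusion of the counting half.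
-/

set_option autoImplicit false

namespace Pool.Agent.SmNJ

open Pool.Agent.SmJ
open Pool.Agent.SmJ.L (EV dotE)
open Pool.Agent.BSDFF Pool.Agent.GBU
open Pool.Agent.SmN (AOk ChebT CData)
open Pool.Agent.SmN.Ch (LagV LagF XX)

section perm

variable {g : ℕ}

/-- No even vector is fixed by all permutations. -/
theorem nofix_perm {G : Type} [Group G] {r : G →* Equiv.Perm (Fin (2 * g + 1))}
    (hr : Function.Surjective r) (w : EV g) (h : ∀ s, permE g (r s) w = w) : w = 0 := by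
  have h1 : ∀ i j, w.1 i = w.1 j := by
    intro i j
    obtain ⟨s, hs⟩ := hr (Equiv.swap i j)
    have h2 := congrArg (fun x : EV g => x.1 i) (h s)
    rw [hs] at h2
    change (permE g (Equiv.swap i j) w).1 i = w.1 i at h2
    rw [permE_apply, Equiv.swap_inv, Equiv.swap_apply_left] at h2
    exact h2.symm
  have h3 : ∑ i, w.1 i = 0 := w.2
  rw [Finset.sum_congr rfl fun i _ => h1 i 0, Finset.sum_const, Finset.card_univ,
    Fintype.card_fin, nsmul_eq_mul] at h3
  have h4 : ((2 * g + 1 : ℕ) : ZMod 2) = 1 := by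
    rw [ZMod.natCast_eq_one_iff_odd]
    exact ⟨g, rfl⟩
  rw [h4, one_mul] at h3
  apply Subtype.ext
  funext i
  rw [h1 i 0, h3]
  rfl

/-- The permutations span the endomorphisms of the even vectors, with any parity. -/
theorem span_perm {G : Type} [Group G] {r : G →* Equiv.Perm (Fin (2 * g + 1))}
    (hr : Function.Surjective r) (A : EV g →ₗ[ZMod 2] EV g) (ε : ZMod 2) :
    ∃ U : Finset G, (∀ w, ∑ s ∈ U, permE g (r s) w = A w) ∧ (U.card : ZMod 2) = ε := by
  have hodd : Odd (Fintype.card (Fin (2 * g + 1))) := by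
    rw [Fintype.card_fin]
    exact ⟨g, rfl⟩
  exact SmN.Sn.span_of_surj hodd r hr A ε

theorem nontrivial_EV (hg : 1 ≤ g) : Nontrivial (EV g) := by
  obtain ⟨m, rfl⟩ : ∃ m, g = m + 1 := ⟨g - 1, by omega⟩
  refine ⟨⟨L.dd 0 1, 0, fun h => ?_⟩⟩
  have h1 := congrArg (fun x : EV (m + 1) => x.1 0) h
  change (L.dd (g := m + 1) 0 1).1 0 = 0 at h1
  rw [L.dd_apply] at h1
  have h2 : (0 : Fin (2 * (m + 1) + 1)) ≠ 1 := by
    intro h3
    have h4 := congrArg Fin.val h3
    simp at h4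
  rw [if_pos rfl, if_neg h2, add_zero] at h1
  exact one_ne_zero h1

/-- Every cocycle which vanishes on the kernel of the action is a coboundary. -/
theorem znd_perm {G V Pl : Type} [Group G] [AddCommGroup V] [DistribMulAction G V]
    (S : SmN.Sys G V (EV g) Pl) {r : G →* Equiv.Perm (Fin (2 * g + 1))}
    (hr : Function.Surjective r) (hac : S.ac = (permE g).comp r) (c : G → EV g)
    (hc : S.CocG c) (hk : ∀ s ∈ S.GN, c s = 0) : ∃ z : EV g, ∀ s, c s = S.ac s z - z := by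
  have hodd : Odd (Fintype.card (Fin (2 * g + 1))) := by
    rw [Fintype.card_fin]
    exact ⟨g, rfl⟩
  have hc2 := hc.2
  rw [hac] at hc2 ⊢
  refine SmN.Sn.h1_of_surj' hodd r hr c hc2 fun s hs => hk s ?_
  rw [SmN.Sys.GN, MonoidHom.mem_ker, hac]
  ext1 w
  exact hs w

/-- A power of every element acts trivially. -/
theorem exists_pow_GN {G V Pl : Type} [Group G] [AddCommGroup V] [DistribMulAction G V]
    (S : SmN.Sys G V (EV g) Pl) (fr : G) : ∃ m : ℕ, 1 ≤ m ∧ fr ^ m ∈ S.GN := by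
  have h0 : Finite (EV g) := inferInstance
  have h1 : Finite (EV g ≃ₗ[ZMod 2] EV g) :=
    Finite.of_injective (fun f : EV g ≃ₗ[ZMod 2] EV g => (f : EV g → EV g)) fun f f' h =>
      LinearEquiv.ext fun x => congrFun h x
  refine ⟨orderOf (S.ac fr), orderOf_pos _, ?_⟩
  rw [SmN.Sys.GN, MonoidHom.mem_ker, map_pow, pow_orderOf_eq_one]

end perm

section main

variable {k K Ω : Type} [Field k] [Finite k] [Field K] [Algebra k K] [Algebra (RatFunc k) K]
  [IsScalarTower k (RatFunc k) K] [FiniteDimensional (RatFunc k) K]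
  [Algebra.IsSeparable (RatFunc k) K] [Field Ω] [Algebra K Ω] [IsSepClosure K Ω] {g : ℕ}
  {a : Fin (2 * g + 1) → Ω} [RtG K a] [HypA a]

/-- The structure `GeoOk` for `sysT`. -/
theorem geoOkT (h2 : (2 : k) ≠ 0) (hsurj : Function.Surjective (pm K a)) {T0 : Set (Place k K)}
    {fr : Ω ≃ₐ[K] Ω} (hfr : IsFrC k fr) :
    CData.GeoOk (S := sysT k K Ω a T0) (GeoK k K Ω) fr :=
  geoOk_of h2 rfl rfl hfr fun c hc h => znd_perm (sysT k K Ω a T0) hsurj rfl c hc h

/-- The structure `AOk` for `sysT`. -/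
theorem aOk_of (h2 : (2 : k) ≠ 0) (hsurj : Function.Surjective (pm K a)) {T0 : Set (Place k K)}
    (hok : (sysT k K Ω a T0).Ok) {T : Set (Place k K)} (hf : T.Finite) (hT : PrinOut T)
    (hV : LagV (sysT k K Ω a T0) T) {deg : Place k K → ℕ} {q : ℕ} (hX : (XX T deg).Ok q)
    {fr : Ω ≃ₐ[K] Ω} (hfr : IsFrC k fr)
    {ca cC m0 : ℕ} (hC : ChebT (sysT k K Ω a T0) T deg (GeoK k K Ω) fr q ca cC) (hm : 1 ≤ m0)
    (hm0 : fr ^ m0 ∈ (sysT k K Ω a T0).GN) :
    AOk (sysT k K Ω a T0) T deg q (GeoK k K Ω) fr ca cC m0 where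
  ok := hok
  fi := fun _ hN => NP.finiteIndex hN
  up := fun _ hN _ hN' hle => mem_NP_of_le hN hN' hle
  lagV := hV
  lagF := SmN.Ch.lagF_of h2 rfl rfl rfl rfl hf hT
  nofix := nofix_perm hsurj
  span := span_perm hsurj
  xok := hX
  geo := geoOkT h2 hsurj hfr
  cheb := hC
  m0_pos := hm
  m0_mem := hm0

/-- **The counting half for `sysT`**: one counting datum for all base characters. -/
theorem asm_of (h2 : (2 : k) ≠ 0) (hg : 1 ≤ g) (hsurj : Function.Surjective (pm K a))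
    {T0 : Set (Place k K)} (hok : (sysT k K Ω a T0).Ok) {T : Set (Place k K)} (hf : T.Finite)
    (hT : PrinOut T) (hV : LagV (sysT k K Ω a T0) T) {deg : Place k K → ℕ} {q : ℕ}
    (hX : (XX T deg).Ok q) {fr : Ω ≃ₐ[K] Ω} (hfr : IsFrC k fr)
    {ca cC : ℕ} (hC : ChebT (sysT k K Ω a T0) T deg (GeoK k K Ω) fr q ca cC) :
    ∃ cd : CData (sysT k K Ω a T0) (XX T deg), cd.pl = Subtype.val ∧
      ∀ chi0, SmN.Ch.XT (sysT k K Ω a T0) T chi0 →
        ({ cd with chi0 := chi0 } : CData (sysT k K Ω a T0) (XX T deg)).Ok ∧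
        ({ cd with chi0 := chi0 } : CData (sysT k K Ω a T0) (XX T deg)).LThm := by
  have := nontrivial_EV hg
  obtain ⟨m0, hm, hm0⟩ := exists_pow_GN (sysT k K Ω a T0) fr
  have h := aOk_of h2 hsurj hok hf hT hV hX hfr hC hm hm0
  refine SmN.main_of h ?_ ?_
  · intro cd hc hCh
    exact SmN.J.jThm h.ok h.xok hc h.geo hCh m0 h.m0_mem
  · intro cd hc hCh m hm
    exact SmN.FrN.gridThmN h.ok hc h.xok (fun N hN => (NP.finiteIndex hN).index_ne_zero) h.geo hCh hm

end main

end Pool.Agent.SmNJ
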