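import Pool.Agent.Lib.SmNJ.GoodN
import Pool.Agent.Lib.SmJ.E.E6C
import Pool.Agent.Lib.SmJ.Inst.FinInv
import Pool.Agent.Lib.SmD.Lift

/-!
SMITH for Jacobians without rational 2-torsion (MP_950c68_ag), E6: the property `E6Prop k (gN K a)`,
from E6 over the field `K(roots)`, with the norm from `M^(D')` to `M^D`, `D' = D ∩ Gal(Ω/K(roots))`.
-/

set_option autoImplicit false

open Polynomial Module

namespace Pool.Agent.SmNJ.E6

open Pool.Agent.Lib.SmD Pool.Agent.SmJ Pool.Agent.SmJ.L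

section norm

variable {G M : Type} [Group G] [AddCommGroup M]

/-- Every element fixed by `D` is the sum of a fixed element of `2`-power order and of `2 ^ m` times
a fixed element. -/
def Split (ρ : G → M →+ M) (D : Subgroup G) : Prop :=
  ∀ P : M, (∀ s ∈ D, ρ s P = P) → ∀ m : ℕ, ∃ t R : M, (∃ i : ℕ, (2 : ℕ) ^ i • t = 0) ∧
    (∀ s ∈ D, ρ s R = R) ∧ P = t + (2 : ℕ) ^ m • R

variable {ρ : G → M →+ M} {D : Subgroup G}

theorem exists_pow_half (half : ∀ Q : M, ∃ R, (2 : ℕ) • R = Q) (m : ℕ) (Q : M) :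
    ∃ R, (2 : ℕ) ^ m • R = Q := by
  induction m with
  | zero => exact ⟨Q, by rw [pow_zero, one_smul]⟩
  | succ m ih =>
    obtain ⟨R, hR⟩ := ih
    obtain ⟨S, hS⟩ := half R
    exact ⟨S, by rw [pow_succ, mul_smul, hS, hR]⟩

theorem split_of_e6 (half : ∀ Q : M, ∃ R, (2 : ℕ) • R = Q)
    (h : ∀ (j : ℕ) (Q : M), (∀ s ∈ D, (2 : ℕ) ^ j • (ρ s Q - Q) = 0) →
      ∃ Q' : M, (∃ i : ℕ, (2 : ℕ) ^ i • Q' = 0) ∧ ∀ s ∈ D, ρ s Q - Q = ρ s Q' - Q') :
    Split ρ D := by
  intro P hP m
  obtain ⟨Q, hQ⟩ := exists_pow_half half m P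
  obtain ⟨Q', ⟨i, hi⟩, h'⟩ := h m Q fun s hs => by
    rw [smul_sub, ← map_nsmul, hQ, hP s hs, sub_self]
  refine ⟨(2 : ℕ) ^ m • Q', Q - Q', ⟨i, ?_⟩, fun s hs => ?_, ?_⟩
  · rw [smul_comm, hi, smul_zero]
  · have e := h' s hs
    rw [map_sub]
    rw [sub_eq_sub_iff_sub_eq_sub] at e
    exact e
  · rw [smul_sub, hQ]
    abel

theorem e6_of_split (h : Split ρ D) (j : ℕ) (Q : M)
    (hQ : ∀ s ∈ D, (2 : ℕ) ^ j • (ρ s Q - Q) = 0) :
    ∃ Q' : M, (∃ i : ℕ, (2 : ℕ) ^ i • Q' = 0) ∧ ∀ s ∈ D, ρ s Q - Q = ρ s Q' - Q' := by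
  obtain ⟨t, R, ⟨i, hi⟩, hR, e⟩ := h ((2 : ℕ) ^ j • Q) (fun s hs => by
    rw [map_nsmul, ← sub_eq_zero, ← smul_sub]
    exact hQ s hs) j
  refine ⟨Q - R, ⟨i + j, ?_⟩, fun s hs => ?_⟩
  · have e2 : (2 : ℕ) ^ j • (Q - R) = t := by
      rw [smul_sub, e]
      abel
    rw [pow_add, mul_smul, e2, hi]
  · rw [map_sub, hR s hs]
    abel

/-- The norm. -/
theorem split_up (one : ρ 1 = AddMonoidHom.id M)
    (mul : ∀ s t x, ρ (s * t) x = ρ s (ρ t x)) (A : Subgroup G) [A.FiniteIndex]
    (h : Split ρ (A ⊓ D)) : Split ρ D := by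
  classical
  have hfi : (A.subgroupOf D).FiniteIndex := inferInstance
  have hfin : Finite (D ⧸ A.subgroupOf D) := Subgroup.finite_quotient_of_finiteIndex
  have := Fintype.ofFinite (D ⧸ A.subgroupOf D)
  set n := Fintype.card (D ⧸ A.subgroupOf D) with hn
  have hn0 : n ≠ 0 := Fintype.card_ne_zero
  -- the norm
  let N : M →+ M := ∑ c : D ⧸ A.subgroupOf D, ρ ((c.out : D) : G)
  have hN : ∀ x, N x = ∑ c : D ⧸ A.subgroupOf D, ρ ((c.out : D) : G) x := fun x =>
    AddMonoidHom.finsetSum_apply _ _ _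
  have hNfix : ∀ x, (∀ s ∈ A ⊓ D, ρ s x = x) → ∀ s ∈ D, ρ s (N x) = N x := by
    intro x hx s hs
    rw [hN, map_sum]
    have key : ∀ c : D ⧸ A.subgroupOf D, ρ s (ρ ((c.out : D) : G) x) =
        ρ (((((⟨s, hs⟩ : D) • c).out : D)) : G) x := by
      intro c
      have e1 : (QuotientGroup.mk (((⟨s, hs⟩ : D) • c).out : D) : D ⧸ A.subgroupOf D) =
          QuotientGroup.mk ((⟨s, hs⟩ : D) * c.out) := by
        rw [QuotientGroup.out_eq', ← smul_eq_mul, ← MulAction.Quotient.smul_mk,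
          QuotientGroup.out_eq']
      rw [QuotientGroup.eq] at e1
      set d : D := (((⟨s, hs⟩ : D) • c).out : D)⁻¹ * ((⟨s, hs⟩ : D) * c.out) with hd
      have e2 : ((⟨s, hs⟩ : D) * c.out) = (((⟨s, hs⟩ : D) • c).out : D) * d := by
        rw [hd]
        group
      have e3 : ρ ((d : D) : G) x = x := hx _ ⟨Subgroup.mem_subgroupOf.mp e1, d.2⟩
      rw [← mul]
      have e4 : s * ((c.out : D) : G) = (((((⟨s, hs⟩ : D) • c).out : D)) : G) * (d : G) :=
        congrArg Subtype.val e2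
      rw [e4, mul, e3]
    rw [Finset.sum_congr rfl fun c _ => key c]
    exact Equiv.sum_comp (MulAction.toPerm (⟨s, hs⟩ : D))
      fun c : D ⧸ A.subgroupOf D => ρ ((c.out : D) : G) x
  have hNP : ∀ x, (∀ s ∈ D, ρ s x = x) → N x = n • x := by
    intro x hx
    rw [hN, Finset.sum_congr rfl fun c _ => hx _ (c.out : D).2, Finset.sum_const,
      Finset.card_univ]
  intro P hP m
  obtain ⟨e, n', hn', hnn⟩ := Nat.exists_eq_two_pow_mul_odd hn0
  obtain ⟨t, R, ⟨i, hi⟩, hR, hPR⟩ := h P (fun s hs => hP s hs.2) (m + e)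
  have e1 : n • P = N t + (2 : ℕ) ^ (m + e) • N R := by
    rw [← hNP P hP, ← map_nsmul N, ← map_add, ← hPR]
  have e2 : (2 : ℕ) ^ e • (n' • P - (2 : ℕ) ^ m • N R) = N t := by
    rw [smul_sub, smul_smul, smul_smul, ← hnn, ← pow_add, add_comm e m, e1]
    abel
  have e3 : (2 : ℕ) ^ (i + e) • (n' • P - (2 : ℕ) ^ m • N R) = 0 := by
    rw [pow_add, mul_smul, e2, ← map_nsmul, hi, map_zero]
  obtain ⟨u, v, huv⟩ : IsCoprime (n' : ℤ) ((2 : ℤ) ^ m) := by
    have : Nat.Coprime n' (2 ^ m) := (Nat.coprime_two_right.mpr hn').pow_right m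
    exact_mod_cast Nat.isCoprime_iff_coprime.mpr this
  refine ⟨u • (n' • P - (2 : ℕ) ^ m • N R), u • N R + v • P, ⟨i + e, ?_⟩, fun s hs => ?_, ?_⟩
  · rw [smul_comm, e3, smul_zero]
  · rw [map_add, map_zsmul, map_zsmul, hNfix R hR s hs, hP s hs]
  · have e4 : (u * (n' : ℤ) + v * (2 : ℤ) ^ m) • P = P := by rw [huv, one_smul]
    have e5 : (n' : ℤ) • P = n' • P := natCast_zsmul P n'
    have e6 : ∀ x : M, ((2 : ℤ) ^ m) • x = (2 : ℕ) ^ m • x := fun x => by
      rw [← natCast_zsmul]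
      push_cast
      rfl
    rw [add_smul, mul_smul, mul_smul, e5, e6] at e4
    rw [smul_sub, smul_add]
    calc P = u • n' • P + v • (2 : ℕ) ^ m • P := e4.symm
      _ = u • n' • P - u • (2 : ℕ) ^ m • N R + ((2 : ℕ) ^ m • u • N R +
          (2 : ℕ) ^ m • v • P) := by
        rw [smul_comm v, smul_comm u ((2 : ℕ) ^ m)]
        abel

end norm

section split

/-- E6 over a field which contains the roots. -/
theorem split_loc {K Ω : Type} [Field K] [Field Ω] [Algebra K Ω] [IsSepClosure K Ω] [Infinite K]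
    {w : ValuationSubring Ω} [Infinite (IsLocalRing.ResidueField w)] {π : K}
    (hL : LocHyp K w π) {g : ℕ} (a : Fin (2 * g + 1) → K) [HypA (rts Ω a)] :
    Split (ga a) (dec K w) := by
  have : IsGalois K Ω := inferInstance
  have : IsSepClosed Ω := IsSepClosure.sep_closed K
  refine split_of_e6 (fun Q => exists_half Q) fun j Q hQ => ?_
  exact Pool.Agent.SmJ.E6.e6_loc hL (fun Q => exists_half Q)
    ((fin_pmJ hL a).subset fun Q hQ => ⟨hQ.2, fun s hs => Or.inl (hQ.1 s hs)⟩) j Q hQ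

variable {K Ω : Type} [Field K] [Field Ω] [Algebra K Ω] {g : ℕ} {a : Fin (2 * g + 1) → Ω}
  [RtG K a] [HypA a]

/-- the same for the subgroup of the decomposition group which fixes the roots -/
theorem split_ker (K' : IntermediateField K Ω) (a' : Fin (2 * g + 1) → K')
    (ha' : rts Ω a' = a) (hK' : K' ≤ IntermediateField.adjoin K (Set.range a))
    {w : ValuationSubring Ω} (h : [HypA (rts Ω a')] → Split (ga a') (dec K' w)) :
    Split (gN K a) ((pm K a).ker ⊓ dec K w) := by
  subst ha'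
  have hfix : ∀ s ∈ (pm K (rts Ω a')).ker, s ∈ K'.fixingSubgroup := by
    intro s hs
    have h1 : K' ≤ IntermediateField.fixedField (pm K (rts Ω a')).ker := by
      refine hK'.trans (IntermediateField.adjoin_le_iff.mpr ?_)
      rintro _ ⟨i, rfl⟩
      rw [SetLike.mem_coe, IntermediateField.mem_fixedField_iff]
      intro t ht
      rw [← pm_spec K _ t i, (MonoidHom.mem_ker).mp ht]
      rfl
    exact (IntermediateField.le_iff_le _ _).mp h1 hs
  have h0 := h
  intro P hP m
  obtain ⟨t, R, ht, hR, e⟩ := h0 P (fun s hs => by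
    have h1 := hP (s.restrictScalars K) ⟨?_, (restrictScalars_mem_dec K K' w s).2 hs⟩
    · exact h1
    · change pm K (rts Ω a') (s.restrictScalars K) = 1
      ext i
      congr 1
      apply RtG.inj K (a := rts Ω a')
      exact (pm_spec K (rts Ω a') (s.restrictScalars K) i).trans (s.commutes (a' i))) m
  refine ⟨t, R, ht, fun s hs => ?_, e⟩
  let s' : Ω ≃ₐ[K'] Ω := IntermediateField.fixingSubgroupEquiv K' ⟨s, hfix s hs.1⟩
  have hs' : s'.restrictScalars K = s := by
    ext x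
    rfl
  have h1 : s' ∈ dec K' w := by
    rw [← restrictScalars_mem_dec K K' w s', hs']
    exact hs.2
  exact hR s' h1

end split

section main

variable {k K Ω : Type} [Field k] [Finite k] [Field K] [Algebra k K] [Algebra (RatFunc k) K]
  [IsScalarTower k (RatFunc k) K] [FiniteDimensional (RatFunc k) K]
  [Algebra.IsSeparable (RatFunc k) K] [Field Ω] [Algebra K Ω]
  [IsSepClosure K Ω] {g : ℕ} (a : Fin (2 * g + 1) → Ω) [RtG K a] [HypA a]

/-- every fixed element of the decomposition group is torsion plus a multiple of `2 ^ m` -/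
theorem split_gN (h2 : (2 : k) ≠ 0) (w : ValuationSubring Ω) (hw : w ≠ ⊤) :
    Split (gN K a) (dec K w) := by
  have : IsGalois K Ω := inferInstance
  have : IsSepClosed Ω := IsSepClosure.sep_closed K
  let K' : IntermediateField K Ω := IntermediateField.adjoin K (Set.range a)
  have hfd : FiniteDimensional K K' := IntermediateField.finiteDimensional_adjoin
    (fun x _ => Algebra.IsIntegral.isIntegral x)
  let _ : Algebra (RatFunc k) Ω := ((algebraMap K Ω).comp (algebraMap (RatFunc k) K)).toAlgebra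
  have : IsScalarTower (RatFunc k) K Ω := IsScalarTower.of_algebraMap_eq fun _ => rfl
  let _ : Algebra k Ω := ((algebraMap K Ω).comp (algebraMap k K)).toAlgebra
  have : IsScalarTower k K Ω := IsScalarTower.of_algebraMap_eq fun _ => rfl
  have : IsScalarTower k (RatFunc k) K' := IsScalarTower.of_algebraMap_eq fun x => by
    apply Subtype.ext
    change algebraMap K Ω (algebraMap k K x) =
      algebraMap K Ω (algebraMap (RatFunc k) K (algebraMap k (RatFunc k) x))
    rw [← IsScalarTower.algebraMap_apply k (RatFunc k) K]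
  have : FiniteDimensional (RatFunc k) K' := Module.Finite.trans K K'
  have : Algebra.IsSeparable (RatFunc k) K' := Algebra.IsSeparable.trans (RatFunc k) K K'
  obtain ⟨π, hL⟩ := Pool.Agent.GBU.exists_locHyp_of_ne_top k K' h2 w hw
  have : Infinite (RatFunc k) :=
    Infinite.of_injective _ (IsFractionRing.injective k[X] (RatFunc k))
  have : Infinite K := Infinite.of_injective _ (algebraMap (RatFunc k) K).injective
  have : Infinite K' := Infinite.of_injective _ (algebraMap K K').injective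
  have := infinite_resN k K w
  have : IsSepClosure K' Ω := ⟨inferInstance, inferInstance⟩
  refine split_up ?_ (fun s t x => gN_mul K a s t x) (pm K a).ker ?_
  · ext x
    exact gN_one K a x
  · exact split_ker (a := a) K' (fun i => ⟨a i, IntermediateField.subset_adjoin K _ ⟨i, rfl⟩⟩) rfl le_rfl
      (fun {_} => split_loc hL _)

/-- **E6** for the Jacobian of `y ^ 2 = ∏ (x - a i)`, `a i` permuted by the Galois group. -/
theorem e6_gN (h2 : (2 : k) ≠ 0) : E6Prop k (gN K a) := by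
  intro w hw _ j Q hQ
  exact e6_of_split (split_gN (k := k) a h2 w hw) j Q hQ

end main

end Pool.Agent.SmNJ.E6
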