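import Pool.Agent.Lib.SmJ.L.Cnt

/-!
SMITH for Jacobians without rational 2-torsion, block L4: the conclusions `GoodOn` from the bound
`c #Z(2^j) < 4^((g+1) j)`, `c` the number of the fixed elements of 2-power order.
-/

set_option autoImplicit false

open Pool.Agent.BSDFF.MW

namespace Pool.Agent.SmNJ

open Pool.Agent.SmJ.L

section good

variable {k K Ω : Type} [Field k] [Field K] [Field Ω] [Algebra k K] [Algebra K Ω]
variable {M : Type} [AddCommGroup M] {ρ : (Ω ≃ₐ[K] Ω) → M →+ M}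

/-- `#Sel_(2^i) 4^(g i) = 4^g #Z_(2^i)`. -/
theorem card_sel_zselC (h : GMod ρ) {g c : ℕ}
    (htors : ∀ i : ℕ, Nat.card (Gn M (2 ^ i)) = 4 ^ (g * i))
    (hK : ∀ i : ℕ, 1 ≤ i → Nat.card (Gn (Rat ρ) (2 ^ i)) = c) (i : ℕ) (hi : 1 ≤ i) :
    Nat.card (Sel k ρ (2 ^ i)) * 4 ^ (g * i) = c * Nat.card (ZSel k ρ (2 ^ i)) := by
  rw [card_zsel h, ← htors i, card_bsel (ρ := ρ), hK i hi]
  ring

theorem goodOn_ofC (h : GMod ρ) {g c j : ℕ} (hc : 0 < c) (hj : 1 ≤ j) (hfin : Finite (ZSel k ρ (2 ^ j)))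
    (hlt : c * Nat.card (ZSel k ρ (2 ^ j)) < 4 ^ ((g + 1) * j))
    (htors : ∀ i : ℕ, Nat.card (Gn M (2 ^ i)) = 4 ^ (g * i))
    (hK : ∀ i : ℕ, 1 ≤ i → Nat.card (Gn (Rat ρ) (2 ^ i)) = c)
    (hdiv : ∀ (i : ℕ) (P : M), ∃ Q, 2 ^ i • Q = P) : GoodOn k ρ j := by
  have hB := card_sel_zselC (k := k) h htors hK
  have h4g : 0 < c := hc
  have hGf : Finite (Gn (ZSha k ρ) (2 ^ j)) := by
    apply Nat.finite_of_card_ne_zero
    rw [← card_zsel_gn]
    exact Nat.card_pos.ne'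
  have e4 : ∀ m : ℕ, (4 : ℕ) ^ m = 2 ^ (2 * m) := fun m => by rw [pow_mul]; norm_num
  have hGlt : Nat.card (Gn (ZSha k ρ) (2 ^ j)) < (2 ^ (2 * (g + 1))) ^ j := by
    rw [← card_zsel_gn, ← pow_mul]
    refine lt_of_le_of_lt (Nat.le_mul_of_pos_left _ h4g) (hlt.trans_le (le_of_eq ?_))
    rw [e4]
    congr 1
    ring
  obtain ⟨s, hs3, B, hsB'⟩ := growth (A := ZSha k ρ) hj hGf hGlt
  have hZfin : ∀ i : ℕ, Finite (ZSel k ρ (2 ^ i)) := by
    intro i
    apply Nat.finite_of_card_ne_zero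
    rw [card_zsel_gn]
    have := (hsB' i).1
    exact Nat.card_pos.ne'
  have hSfin : ∀ i : ℕ, Finite (Sel k ρ (2 ^ i)) := by
    intro i
    have := hZfin i
    infer_instance
  have hsB : ∀ i, Nat.card (ZSel k ρ (2 ^ i)) ≤ B * 2 ^ (s * i) ∧
      2 ^ (s * i) ≤ B * Nat.card (ZSel k ρ (2 ^ i)) := by
    intro i
    rw [card_zsel_gn]
    exact (hsB' i).2
  have hB1 : 1 ≤ B := by
    have h := (hsB 0).2
    rw [mul_zero, pow_zero] at h
    exact Nat.pos_of_mul_pos_right (Nat.lt_of_lt_of_le Nat.one_pos h)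
  -- `2 g ≤ s`
  have hs2 : 2 * g ≤ s := by
    by_contra hc
    have h1 : ∀ i, 1 ≤ i → 2 ^ i * 2 ^ (s * i) ≤ c * B * 2 ^ (s * i) := by
      intro i hi
      calc 2 ^ i * 2 ^ (s * i) = 2 ^ ((s + 1) * i) := by rw [← pow_add]; congr 1; ring
        _ ≤ 2 ^ (2 * g * i) := Nat.pow_le_pow_right (by norm_num) (Nat.mul_le_mul_right _ (by omega))
        _ = 4 ^ (g * i) := by rw [e4]; congr 1; ring
        _ ≤ Nat.card (Sel k ρ (2 ^ i)) * 4 ^ (g * i) := by
            have := hSfin i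
            exact Nat.le_mul_of_pos_left _ Nat.card_pos
        _ = c * Nat.card (ZSel k ρ (2 ^ i)) := hB i hi
        _ ≤ c * (B * 2 ^ (s * i)) := Nat.mul_le_mul_left _ (hsB i).1
        _ = c * B * 2 ^ (s * i) := by rw [mul_assoc]
    have h5 : 1 ≤ c * B := Nat.mul_pos h4g hB1
    have h2 := Nat.le_of_mul_le_mul_right (h1 (c * B) h5) (by positivity)
    exact absurd h2 (not_le.mpr Nat.lt_two_pow_self)
  obtain ⟨r, rfl⟩ : ∃ r, s = r + 2 * g := ⟨s - 2 * g, by omega⟩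
  have hpow : ∀ i : ℕ, 2 ^ ((r + 2 * g) * i) = 2 ^ (r * i) * 4 ^ (g * i) := by
    intro i
    rw [e4, ← pow_add]
    congr 1
    ring
  have hup : ∀ i, Nat.card (Sel k ρ (2 ^ i)) ≤ c * B * 2 ^ (r * i) := by
    intro i
    rcases Nat.eq_zero_or_pos i with rfl | hi
    · have h2 : Nat.card (Sel k ρ (2 ^ 0)) ≤ Nat.card (ZSel k ρ (2 ^ 0)) := by
        have := hZfin 0
        exact Nat.card_le_card_of_surjective _ (QuotientAddGroup.mk_surjective)
      calc Nat.card (Sel k ρ (2 ^ 0)) ≤ Nat.card (ZSel k ρ (2 ^ 0)) := h2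
        _ ≤ B * 2 ^ ((r + 2 * g) * 0) := (hsB 0).1
        _ ≤ c * B * 2 ^ (r * 0) := by
          rw [mul_zero, mul_zero]
          exact Nat.mul_le_mul_right _ (Nat.le_mul_of_pos_left _ h4g)
    · have h3 : Nat.card (Sel k ρ (2 ^ i)) * 4 ^ (g * i) ≤
          (c * B * 2 ^ (r * i)) * 4 ^ (g * i) := by
        rw [hB i hi]
        calc c * Nat.card (ZSel k ρ (2 ^ i)) ≤ c * (B * 2 ^ ((r + 2 * g) * i)) :=
              Nat.mul_le_mul_left _ (hsB i).1
          _ = _ := by rw [hpow]; ring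
      exact Nat.le_of_mul_le_mul_right h3 (by positivity)
  have hlow : ∀ i, 2 ^ (r * i) ≤ c * B * Nat.card (Sel k ρ (2 ^ i)) := by
    intro i
    rcases Nat.eq_zero_or_pos i with rfl | hi
    · rw [mul_zero, pow_zero]
      have := hSfin 0
      exact Nat.mul_pos (Nat.mul_pos h4g hB1) Nat.card_pos
    · have h3 : 2 ^ (r * i) * 4 ^ (g * i) ≤
          (c * B * Nat.card (Sel k ρ (2 ^ i))) * 4 ^ (g * i) := by
        rw [mul_assoc (c * B), hB i hi, ← hpow]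
        calc 2 ^ ((r + 2 * g) * i) ≤ B * Nat.card (ZSel k ρ (2 ^ i)) := (hsB i).2
          _ ≤ (c * B) * (c * Nat.card (ZSel k ρ (2 ^ i))) :=
            Nat.mul_le_mul (Nat.le_mul_of_pos_left _ h4g) (Nat.le_mul_of_pos_left _ h4g)
      exact Nat.le_of_mul_le_mul_right h3 (by positivity)
  have hsel := fun i => card_sel (k := k) h (2 ^ i) (hdiv i)
  have hSpos : ∀ i, Nat.card (Sel k ρ (2 ^ i)) ≠ 0 := fun i => by
    have := hSfin i
    exact Nat.card_pos.ne'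
  have hidx : ∀ i, (nG (Rat ρ) (2 ^ i)).index ≠ 0 := fun i => by
    have h1 := hSpos i
    rw [hsel i] at h1
    exact left_ne_zero_of_mul h1
  have hshaf : ∀ i, Finite (Gn (Sha k ρ) (2 ^ i)) := fun i => by
    have h1 := hSpos i
    rw [hsel i] at h1
    exact Nat.finite_of_card_ne_zero (right_ne_zero_of_mul h1)
  refine ⟨hSfin, ?_, r, by omega, ⟨c * B, fun i => ⟨hup i, hlow i⟩⟩, ?_, ?_⟩
  · have h2 := hB j hj
    have h3 : Nat.card (Sel k ρ (2 ^ j)) * 4 ^ (g * j) < 4 ^ j * 4 ^ (g * j) := by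
      rw [h2]
      refine hlt.trans_le (le_of_eq ?_)
      rw [← pow_add]
      congr 1
      ring
    exact Nat.lt_of_mul_lt_mul_right h3
  · intro hr
    refine finite_sha2 (B := c * B) fun i _ => ⟨hshaf i, ?_⟩
    have h1 := hup i
    rw [hr, zero_mul, pow_zero, mul_one, hsel i] at h1
    exact (Nat.le_mul_of_pos_left _ (Nat.pos_of_ne_zero (hidx i))).trans h1
  · rintro ⟨P, hP, hPQ⟩
    refine finite_sha2 (B := c * B) fun i _ => ⟨hshaf i, ?_⟩
    have h5 : 2 ^ i ≤ (nG (Rat ρ) (2 ^ i)).index := by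
      refine le_index (P := (⟨P, hP⟩ : Rat ρ)) (fun Q n hn h0 => ?_) i (hidx i)
      exact hPQ Q.1 Q.2 n hn (congrArg Subtype.val h0)
    have h1 := hup i
    rw [hsel i] at h1
    have h6 : 2 ^ (r * i) ≤ 2 ^ i :=
      Nat.pow_le_pow_right (by norm_num) (by
        have : r ≤ 1 := by omega
        nlinarith)
    have h7 : Nat.card (Gn (Sha k ρ) (2 ^ i)) * 2 ^ i ≤ c * B * 2 ^ i := by
      calc Nat.card (Gn (Sha k ρ) (2 ^ i)) * 2 ^ i
          ≤ Nat.card (Gn (Sha k ρ) (2 ^ i)) * (nG (Rat ρ) (2 ^ i)).index :=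
            Nat.mul_le_mul_left _ h5
        _ = (nG (Rat ρ) (2 ^ i)).index * Nat.card (Gn (Sha k ρ) (2 ^ i)) := mul_comm _ _
        _ ≤ c * B * 2 ^ (r * i) := h1
        _ ≤ c * B * 2 ^ i := Nat.mul_le_mul_left _ h6
    exact Nat.le_of_mul_le_mul_right h7 (by positivity)

end good

end Pool.Agent.SmNJ
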