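import Pool.Agent.Lib.SmNJ.E6N

/-!
SMITH for Jacobians without rational 2-torsion: E6 for the quadratic twists.

`gTw K a chi s = (-1) ^ chi(s) gN K a s`. `e6_tw`: a twisted coboundary of `JJ (ff a)` on the
decomposition group which is killed by `2 ^ j` is the twisted coboundary of a class of `2`-power
order.
-/

set_option autoImplicit false

open Polynomial Module

namespace Pool.Agent.SmNJ.E6

open Pool.Agent.Lib.SmD Pool.Agent.SmJ Pool.Agent.SmJ.L Pool.Agent.GBU

section main

variable {k K Ω : Type} [Field k] [Finite k] [Field K] [Algebra k K] [Algebra (RatFunc k) K]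
  [IsScalarTower k (RatFunc k) K] [FiniteDimensional (RatFunc k) K]
  [Algebra.IsSeparable (RatFunc k) K] [Field Ω] [Algebra K Ω]
  [IsSepClosure K Ω] {g : ℕ} (a : Fin (2 * g + 1) → Ω) [RtG K a] [HypA a]

/-- the splitting for the part of the decomposition group which fixes a finite extension -/
theorem split_fix (h2 : (2 : k) ≠ 0) (w : ValuationSubring Ω) (hw : w ≠ ⊤)
    (L : IntermediateField K Ω) (hfd : FiniteDimensional K L) :
    Split (gN K a) (L.fixingSubgroup ⊓ dec K w) := by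
  have : IsGalois K Ω := inferInstance
  have : IsSepClosed Ω := IsSepClosure.sep_closed K
  let _ : Algebra (RatFunc k) Ω := ((algebraMap K Ω).comp (algebraMap (RatFunc k) K)).toAlgebra
  have : IsScalarTower (RatFunc k) K Ω := IsScalarTower.of_algebraMap_eq fun _ => rfl
  let _ : Algebra k Ω := ((algebraMap K Ω).comp (algebraMap k K)).toAlgebra
  have : IsScalarTower k K Ω := IsScalarTower.of_algebraMap_eq fun _ => rfl
  have : IsScalarTower k (RatFunc k) L := IsScalarTower.of_algebraMap_eq fun x => by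
    apply Subtype.ext
    change algebraMap K Ω (algebraMap k K x) =
      algebraMap K Ω (algebraMap (RatFunc k) K (algebraMap k (RatFunc k) x))
    rw [← IsScalarTower.algebraMap_apply k (RatFunc k) K]
  have : FiniteDimensional (RatFunc k) L := Module.Finite.trans K L
  have : Algebra.IsSeparable (RatFunc k) L := Algebra.IsSeparable.trans (RatFunc k) K L
  have : IsSepClosure L Ω := ⟨inferInstance, inferInstance⟩
  have : RtG L a :=
    { inj := RtG.inj K (a := a)
      two := RtG.two K a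
      perm := fun s i => RtG.perm (a := a) (s.restrictScalars K) i }
  have h0 := split_gN (k := k) (K := L) a h2 w hw
  intro P hP m
  obtain ⟨t, R, ht, hR, e⟩ := h0 P (fun s hs => by
    have h1 := hP (s.restrictScalars K) ⟨?_, (restrictScalars_mem_dec K L w s).2 hs⟩
    · exact h1
    · change s.restrictScalars K ∈ L.fixingSubgroup
      rw [IntermediateField.mem_fixingSubgroup_iff]
      intro x hx
      exact s.commutes ⟨x, hx⟩) m
  refine ⟨t, R, ht, fun s hs => ?_, e⟩
  let s' : Ω ≃ₐ[L] Ω := IntermediateField.fixingSubgroupEquiv L ⟨s, hs.1⟩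
  have hs' : s'.restrictScalars K = s := by
    ext x
    rfl
  have h1 : s' ∈ dec L w := by
    rw [← restrictScalars_mem_dec K L w s', hs']
    exact hs.2
  exact hR s' h1

variable (K)

/-- The twisted action. -/
noncomputable def gTw (chi : (Ω ≃ₐ[K] Ω) → ZMod 2) (s : Ω ≃ₐ[K] Ω) : JJ (ff a) →+ JJ (ff a) :=
  SmN.sgn (chi s) • gN K a s

variable {K}

omit [Finite k] [Algebra k K] [Algebra (RatFunc k) K] [IsScalarTower k (RatFunc k) K]
  [FiniteDimensional (RatFunc k) K] [Algebra.IsSeparable (RatFunc k) K] [IsSepClosure K Ω]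
  [Field k] in
theorem gTw_apply (chi : (Ω ≃ₐ[K] Ω) → ZMod 2) (s : Ω ≃ₐ[K] Ω) (Q : JJ (ff a)) :
    gTw K a chi s Q = SmN.sgn (chi s) • gN K a s Q := rfl

theorem sgn_mul (x y : ZMod 2) : SmN.sgn (x + y) = SmN.sgn x * SmN.sgn y := by
  revert x y
  decide

/-- the splitting for a quadratic twist -/
theorem split_tw (h2 : (2 : k) ≠ 0) {chi : (Ω ≃ₐ[K] Ω) → ZMod 2}
    (hchi : ∀ s t, chi (s * t) = chi s + chi t)
    (hfin : ∃ N ∈ NP K Ω, ∀ s, ∀ n ∈ N, chi (s * n) = chi s) (w : ValuationSubring Ω)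
    (hw : w ≠ ⊤) : Split (gTw K a chi) (dec K w) := by
  have hgal : IsGalois K Ω := inferInstance
  obtain ⟨N, hN, hN'⟩ := hfin
  have hc1 : chi 1 = 0 := by
    have h := hchi 1 1
    rw [one_mul] at h
    exact left_eq_add.mp h
  have hcN : ∀ n ∈ N, chi n = 0 := by
    intro n hn
    have h := hN' 1 n hn
    rwa [one_mul, hc1] at h
  have hfi : N.FiniteIndex := NP.finiteIndex hN
  have hs0 : SmN.sgn 0 = 1 := rfl
  refine split_up ?_ ?_ N ?_
  · refine AddMonoidHom.ext fun x => ?_
    change SmN.sgn (chi 1) • gN K a 1 x = x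
    rw [hc1, hs0, one_smul]
    exact gN_one K a x
  · intro s t x
    change SmN.sgn (chi (s * t)) • gN K a (s * t) x =
      SmN.sgn (chi s) • gN K a s (SmN.sgn (chi t) • gN K a t x)
    rw [hchi, sgn_mul, mul_smul, map_zsmul, gN_mul]
  · obtain ⟨L, hL1, -, -, hL4⟩ := exists_field_of_mem_NP hN
    have h0 := split_fix (k := k) a h2 w hw L hL1
    rw [hL4] at h0
    have he : ∀ s ∈ N ⊓ dec K w, ∀ x, gTw K a chi s x = gN K a s x := by
      intro s hs x
      rw [gTw_apply, hcN s hs.1, hs0, one_smul]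
    intro P hP m
    obtain ⟨t, R, ht, hR, e⟩ := h0 P (fun s hs => by rw [← he s hs]; exact hP s hs) m
    exact ⟨t, R, ht, fun s hs => by rw [he s hs]; exact hR s hs, e⟩

/-- **E6 for the quadratic twists.** -/
theorem e6_tw (h2 : (2 : k) ≠ 0) {chi : (Ω ≃ₐ[K] Ω) → ZMod 2}
    (hchi : ∀ s t, chi (s * t) = chi s + chi t)
    (hfin : ∃ N ∈ NP K Ω, ∀ s, ∀ n ∈ N, chi (s * n) = chi s) (w : ValuationSubring Ω)
    (hw : w ≠ ⊤) (j : ℕ) (Q : JJ (ff a))
    (hQ : ∀ s ∈ dec K w, (2 : ℕ) ^ j • (gTw K a chi s Q - Q) = 0) :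
    ∃ Q' : JJ (ff a), (∃ i : ℕ, (2 : ℕ) ^ i • Q' = 0) ∧
      ∀ s ∈ dec K w, gTw K a chi s Q - Q = gTw K a chi s Q' - Q' :=
  e6_of_split (split_tw (k := k) a h2 hchi hfin w hw) j Q hQ

end main

end Pool.Agent.SmNJ.E6
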