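import Pool.Agent.Lib.SmNJ.Mult
import Pool.Agent.Lib.SmNJ.OkT
import Pool.Agent.Lib.SmNJ.E6Tw
import Pool.Agent.Lib.SmN.P.MultNB
import Pool.Agent.Lib.SmN.P.MultP
import Pool.Agent.Lib.SmN.P.Half

/-!
# SMITH for Jacobians without rational 2-torsion, parity: the places with one node of even thickness

`nodeB`: if the reduction at `v` has exactly one double root `a i = a j` and the value of
`(a i - a j) ^ 2` is `2 n`, `n ≥ 1`, then `wv chi chi' v + dk (sg v) = 1` for all unramified `chi`,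
`chi'` which differ at the Frobenius: `v` is a flip place.
`flip_node`: the same for every thickness, `a i - a j` in the maximal ideal.
-/

set_option autoImplicit false

open Polynomial

namespace Pool.Agent.SmNJ

open Pool.Agent.SmJ
open Pool.Agent.SmJ.L (EV dotE dotE_apply dotE_comm dotE_dd dd dd_apply)
open Pool.Agent.SmJ.Mult (even_card_filter eq_of_sub io_eq_sum dd_ne)
open Pool.Agent.BSDFF Pool.Agent.GBU Pool.Agent.Lib.SmD

section perm

variable {g : ℕ}

/-- permutations which preserve `{i, j}` fix `e_i + e_j` -/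
theorem permE_dd {i j : Fin (2 * g + 1)} {σ : Equiv.Perm (Fin (2 * g + 1))}
    (h : (σ i = i ∧ σ j = j) ∨ (σ i = j ∧ σ j = i)) : permE g σ (dd i j) = dd i j := by
  apply Subtype.ext
  funext r
  rw [permE_apply, dd_apply, dd_apply]
  have key : ∀ x : Fin (2 * g + 1), σ⁻¹ r = x ↔ r = σ x := by
    intro x
    rw [Equiv.Perm.inv_eq_iff_eq]
  simp only [key]
  rcases h with ⟨h1, h2⟩ | ⟨h1, h2⟩
  · rw [h1, h2]
  · rw [h1, h2, add_comm]

end perm

section node

variable {k K Ω : Type} [Field k] [Field K] [Field Ω] [Algebra k K] [Algebra K Ω] {g : ℕ}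
  {a : Fin (2 * g + 1) → Ω} [RtG K a] {v : Place k K} {i j : Fin (2 * g + 1)}

/-- the decomposition group preserves the double root -/
theorem Node.stab (h : Node a v i j) (hlt : (abK Ω v).valuation (a i - a j) < 1)
    {s : Ω ≃ₐ[K] Ω} (hs : s ∈ dec K (abK Ω v)) :
    (pm K a s i = i ∧ pm K a s j = j) ∨ (pm K a s i = j ∧ pm K a s j = i) := by
  have hinj := (pm K a s).injective
  have h1 : (abK Ω v).valuation (a (pm K a s i) - a (pm K a s j)) < 1 := by
    have h2 := (dec_val_lt K hs (a i - a j)).2 hlt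
    rw [map_sub, ← pm_spec K a s i, ← pm_spec K a s j] at h2
    exact h2
  have hne : pm K a s i ≠ pm K a s j := fun h3 => h.ne (hinj h3)
  have hi : pm K a s i = i ∨ pm K a s i = j := by
    by_contra hc
    push Not at hc
    have h2 := h.unit _ hc.1 hc.2 _ hne.symm
    rw [h2] at h1
    exact lt_irrefl _ h1
  have hj : pm K a s j = i ∨ pm K a s j = j := by
    by_contra hc
    push Not at hc
    have h2 := h.unit _ hc.1 hc.2 _ hne
    rw [Valuation.map_sub_swap, h2] at h1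
    exact lt_irrefl _ h1
  rcases hi with h3 | h3 <;> rcases hj with h4 | h4
  · exact absurd (h3.trans h4.symm) hne
  · exact Or.inl ⟨h3, h4⟩
  · exact Or.inr ⟨h3, h4⟩
  · exact absurd (h3.trans h4.symm) hne

variable [HypA a] [Finite k] [Algebra (RatFunc k) K] [IsScalarTower k (RatFunc k) K]
  [FiniteDimensional (RatFunc k) K] [IsSepClosure K Ω]

omit [IsSepClosure K Ω] in
/-- At a node of even thickness the inertia group fixes the roots. -/
theorem Node.fixAll (h : Node a v i j) (h2 : (2 : k) ≠ 0) {π : v.ring} (hπ : Irreducible π) {n : ℤ}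
    (hn : (abK Ω v).valuation ((a i - a j) ^ 2) =
      (abK Ω v).valuation (algebraMap K Ω (π : K)) ^ (2 * n)) {s : Ω ≃ₐ[K] Ω}
    (hs : s ∈ iner K (abK Ω v)) : pm K a s = 1 := by
  have hL := locHyp_of_below h2 v (abK Ω v) (below_abK Ω v) hπ
  have h20 : (2 : Ω) ≠ 0 := HypA.two a
  rcases h.cases hs with h1 | h1
  · exact h1
  · exfalso
    have hi : s (a i) = a j := by rw [← pm_spec K a, h1, Equiv.swap_apply_left]
    have hj : s (a j) = a i := by rw [← pm_spec K a, h1, Equiv.swap_apply_right]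
    have h3 : s (a i - a j) = -(a i - a j) := by rw [map_sub, hi, hj]; ring
    have h4 : s (a i - a j) = a i - a j :=
      Pool.Agent.Sm.Mult.fix_even hL hs (n := n) (by rw [map_pow, h3, neg_sq]) hn
    have h5 : 2 * (a i - a j) = 0 := by linear_combination h3 - h4
    have h6 := (mul_eq_zero.mp h5).resolve_left h20
    exact h.ne (HypA.inj (a := a) (sub_eq_zero.mp h6))

omit [Finite k] [Algebra (RatFunc k) K] [IsScalarTower k (RatFunc k) K]
  [FiniteDimensional (RatFunc k) K] [IsSepClosure K Ω] in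
/-- the inclusion of the `2`-torsion as a sum of branch points -/
theorem coe_iotaN_sum (x : EV g) : ((iotaN a x : VN a) : JJ (ff a)) =
    ∑ r ∈ Finset.univ.filter (fun r => x.1 r = 1), ee a r := by
  rw [coe_iotaN, io_eq_sum]

omit [Finite k] [Algebra (RatFunc k) K] [IsScalarTower k (RatFunc k) K]
  [FiniteDimensional (RatFunc k) K] [IsSepClosure K Ω] in
/-- the action in the form of the Kummer formula -/
theorem act_of_sub {s : Ω ≃ₐ[K] Ω} {Q : JJ (ff a)} {x : EV g}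
    (h : gN K a s Q - Q = ((iotaN a x : VN a) : JJ (ff a))) :
    act ((s : Ω ≃ₐ[K] Ω) : Ω ≃+* Ω) (map_ffN K a s) Q =
      Q + ∑ r ∈ Finset.univ.filter (fun r => x.1 r = 1), ee a r := by
  rw [← coe_iotaN_sum, ← h, add_sub_cancel]
  rfl

/-- **K0**: elements fixed by the tame generator. -/
theorem K0 (h2 : (2 : k) ≠ 0) {T0 : Set (Place k K)} (hok : (sysT k K Ω a T0).Ok)
    (hI : ∀ s ∈ iner K (abK Ω v), pm K a s = 1) (B : VN a)
    (hB : ∀ s ∈ iner K (abK Ω v), (2 : ℕ) • (s • B - B) = 0) (hsg : sgK Ω v • B = B) :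
    ∀ s ∈ iner K (abK Ω v), s • B = B := by
  classical
  have hsc : IsSepClosed Ω := IsSepClosure.sep_closed K
  have hgal : IsGalois K Ω := inferInstance
  obtain ⟨π, hπ⟩ := IsDiscreteValuationRing.exists_irreducible v.ring
  have hL := locHyp_of_below h2 v (abK Ω v) (below_abK Ω v) hπ
  let β : (Ω ≃ₐ[K] Ω) → EV g := fun s =>
    if h : (2 : ℕ) • (s • B - B) = 0 then (iotaN_range _ h).choose else 0
  have hβ : ∀ s ∈ iner K (abK Ω v), iotaN a (β s) = s • B - B := by
    intro s hs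
    simp only [β, dif_pos (hB s hs)]
    exact (iotaN_range _ (hB s hs)).choose_spec
  have hac : ∀ s ∈ iner K (abK Ω v), ∀ x : EV g, s • iotaN a x = iotaN a x := by
    intro s hs x
    rw [smul_iotaN]
    have h3 : acN K a s = 1 := by
      change permE g (pm K a s) = 1
      rw [hI s hs, map_one]
    rw [h3]
    rfl
  have hadd : ∀ s ∈ iner K (abK Ω v), ∀ t ∈ iner K (abK Ω v), β (s * t) = β s + β t := by
    intro s hs t ht
    apply iotaN_injective (a := a)
    rw [map_add, hβ _ ((iner K _).mul_mem hs ht), hβ s hs, hβ t ht]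
    have h3 := hac s hs (β t)
    rw [hβ t ht, smul_sub, ← mul_smul] at h3
    have h4 : (s * t) • B - B = ((s * t) • B - s • B) + (s • B - B) := by abel
    rw [h4, h3]
    abel
  -- finite level
  obtain ⟨J, hJ⟩ := hok.tors B
  obtain ⟨N, hN, hN'⟩ := hok.act_fin J
  obtain ⟨L, hL1, -, -, hL4⟩ := exists_field_of_mem_NP hN
  have hlev : ∀ s t : Ω ≃ₐ[K] Ω, (∀ x ∈ L, s x = t x) → β s = β t := by
    intro s t hst
    have h1 : s⁻¹ * t ∈ N := by
      rw [← hL4, IntermediateField.mem_fixingSubgroup_iff]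
      intro x hx
      rw [AlgEquiv.mul_apply, ← hst x hx]
      exact AlgEquiv.symm_apply_apply s x
    have h3 : t • B = s • B := by
      have h4 := hN' _ h1 B hJ
      rw [mul_smul, inv_smul_eq_iff] at h4
      exact h4
    simp only [β, h3]
  have h0 : β (sgK Ω v) = 0 := by
    apply iotaN_injective (a := a)
    rw [hβ _ (sgK_iner h2 v), hsg, sub_self, map_zero]
  have hzero : ∀ s ∈ iner K (abK Ω v), β s = 0 := by
    intro s hs
    apply Subtype.ext
    funext l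
    exact hom_iner hL ((sgK_tg h2 v).isSg hL) (c := fun t => (β t).1 l)
      (fun s hs t ht => by
        rw [hadd s hs t ht]
        rfl)
      ⟨L, hL1, fun s _ t _ hst => by
        change (β s).1 l = (β t).1 l
        rw [hlev s t hst]⟩
      (by
        rw [h0]
        rfl) s hs
  intro s hs
  have h5 := hβ s hs
  rw [hzero s hs, map_zero] at h5
  exact (sub_eq_zero.mp h5.symm)

/-- **K1**: the inertia values are `0` or `e_i + e_j`. -/
theorem Node.K1 (h : Node a v i j) (h2 : (2 : k) ≠ 0) (hinf : Infinite K) (Q : VN a)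
    (hQ : ∀ s ∈ iner K (abK Ω v), s • ((2 : ℕ) • Q) = (2 : ℕ) • Q) :
    sgK Ω v • Q - Q = 0 ∨ sgK Ω v • Q - Q = iotaN a (dd i j) := by
  have hsc : IsSepClosed Ω := IsSepClosure.sep_closed K
  have hgal : IsGalois K Ω := inferInstance
  obtain ⟨π, hπ⟩ := IsDiscreteValuationRing.exists_irreducible v.ring
  have hL := locHyp_of_below h2 v (abK Ω v) (below_abK Ω v) hπ
  have hsgI : sgK Ω v ∈ iner K (abK Ω v) := sgK_iner h2 v
  have h0 : (2 : ℕ) • (sgK Ω v • Q - Q) = 0 := by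
    rw [smul_sub, ← (smul_comm (sgK Ω v) (2 : ℕ) Q), hQ _ hsgI, sub_self]
  obtain ⟨x, hx⟩ := iotaN_range _ h0
  have hact := act_of_sub (K := K) (s := sgK Ω v) (Q := Q.1) (x := x) (by rw [hx]; rfl)
  have h5 := SmN.Mult.sub_pair hL (p := fun s l => pm K a s l)
    (fun s l => (pm_spec K a s l).symm) (map_ffN K a) h.unit
    (fun s hs r hi hj => h.fixa hs hi hj) (Q := Q.1)
    (fun s hs hm => congrArg Subtype.val (hQ s hs)) hsgI (even_card_filter x) hact
  rcases eq_of_sub h.ne x (fun r hr =>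
    h5 r (Finset.mem_filter.mpr ⟨Finset.mem_univ r, hr⟩)) with h6 | h6
  · left
    rw [← hx, h6, map_zero]
  · right
    rw [← hx, h6]

/-- **K2**: halves of the `2`-torsion points orthogonal to `e_i + e_j`. -/
theorem Node.K2 (h : Node a v i j) (h2 : (2 : k) ≠ 0)
    (hI : ∀ s ∈ iner K (abK Ω v), pm K a s = 1) (Q : VN a) (d : EV g)
    (hQ : (2 : ℕ) • Q = iotaN a d) (hd : dotE g d (dd i j) = 0) : sgK Ω v • Q = Q := by
  classical
  have hsc : IsSepClosed Ω := IsSepClosure.sep_closed K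
  have hgal : IsGalois K Ω := inferInstance
  obtain ⟨π, hπ⟩ := IsDiscreteValuationRing.exists_irreducible v.ring
  have hL := locHyp_of_below h2 v (abK Ω v) (below_abK Ω v) hπ
  have hsgI : sgK Ω v ∈ iner K (abK Ω v) := sgK_iner h2 v
  have ha : ∀ l, sgK Ω v (a l) = a l := by
    intro l
    rw [← pm_spec K a, hI _ hsgI]
    rfl
  have h0 : (2 : ℕ) • (sgK Ω v • Q - Q) = 0 := by
    have h3 : sgK Ω v • iotaN a d = iotaN a d := by
      rw [smul_iotaN]
      have h4 : acN K a (sgK Ω v) = 1 := by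
        change permE g (pm K a (sgK Ω v)) = 1
        rw [hI _ hsgI, map_one]
      rw [h4]
      rfl
    rw [smul_sub, ← (smul_comm (sgK Ω v) (2 : ℕ) Q), hQ, h3, sub_self]
  obtain ⟨x, hx⟩ := iotaN_range _ h0
  have hact := act_of_sub (K := K) (s := sgK Ω v) (Q := Q.1) (x := x) (by rw [hx]; rfl)
  -- the set
  rw [dotE_comm, dotE_dd] at hd
  have hT : i ∈ Finset.univ.filter (fun r => d.1 r = 1) ↔
      j ∈ Finset.univ.filter (fun r => d.1 r = 1) := by
    simp only [Finset.mem_filter, Finset.mem_univ, true_and]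
    have key : ∀ x y : ZMod 2, x + y = 0 → (x = 1 ↔ y = 1) := by decide
    exact key _ _ hd
  have h5 := SmN.Mult.half_pair hL h.unit hsgI ha (map_ffN K a (sgK Ω v)) (Q := Q.1) hT (by
      rw [cls_PS, ← coe_iotaN_sum, ← hQ]
      rfl) (even_card_filter x) hact
  have hx0 : x = 0 := by
    apply Subtype.ext
    funext r
    have h6 : r ∉ Finset.univ.filter (fun r => x.1 r = 1) := by
      rw [h5]
      exact Finset.notMem_empty r
    rw [Finset.mem_filter] at h6
    have h01 : ∀ y : ZMod 2, y ≠ 1 → y = 0 := by decide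
    exact h01 _ fun h7 => h6 ⟨Finset.mem_univ r, h7⟩
  rw [hx0, map_zero] at hx
  exact sub_eq_zero.mp hx.symm

/-- The class of the point is fixed by the twisted action. -/
theorem gTw_pt {chi : (Ω ≃ₐ[K] Ω) → ZMod 2} {P : Pnt (ff a)} {s : Ω ≃ₐ[K] Ω} (hx : s P.x = P.x)
    (hy0 : chi s = 0 → s P.y = P.y) (hy1 : chi s = 1 → s P.y = -P.y) :
    E6.gTw K a chi s P.cl = P.cl := by
  rw [E6.gTw_apply]
  have h1 : gN K a s P.cl = (P.map (s : Ω ≃+* Ω) (map_ffN K a s)).cl := act_cl _ _ P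
  rw [h1]
  have h01 : chi s = 0 ∨ chi s = 1 := by
    have key : ∀ x : ZMod 2, x = 0 ∨ x = 1 := by decide
    exact key _
  rcases h01 with h | h
  · have h3 : P.map (s : Ω ≃+* Ω) (map_ffN K a s) = P := by
      apply Pnt.ext
      · exact hx
      · exact hy0 h
    have hs0 : SmN.sgn 0 = 1 := rfl
    rw [h3, h, hs0, one_smul]
  · have h3 : P.map (s : Ω ≃+* Ω) (map_ffN K a s) = P.neg := by
      apply Pnt.ext
      · exact hx
      · exact hy1 h
    have hs1 : SmN.sgn 1 = -1 := rfl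
    rw [h3, h, hs1, neg_cl, neg_one_smul, neg_neg]

/-- **K3**, one character. -/
theorem Node.K3a [Algebra.IsSeparable (RatFunc k) K] (h : Node a v i j) (h2 : (2 : k) ≠ 0)
    (hinf : Infinite K) (hI : ∀ s ∈ iner K (abK Ω v), pm K a s = 1)
    {π : v.ring} (hπ : Irreducible π) {P : Pnt (ff a)} {m : ℤ}
    (hm : (abK Ω v).valuation (P.x - a i) =
      (abK Ω v).valuation (algebraMap K Ω (π : K)) ^ (2 * m + 1))
    (hx : ∀ s ∈ dec K (abK Ω v), s P.x = P.x) (hyI : ∀ s ∈ iner K (abK Ω v), s P.y = P.y)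
    {chi : (Ω ≃ₐ[K] Ω) → ZMod 2} (hchi : (sysN k K Ω a).HomG chi) (h0 : chi (sgK Ω v) = 0)
    (hy0 : ∀ s ∈ dec K (abK Ω v), chi s = 0 → s P.y = P.y)
    (hy1 : ∀ s ∈ dec K (abK Ω v), chi s = 1 → s P.y = -P.y) :
    ∃ x ∈ (sysN k K Ω a).W chi v, x.1 = dd i j := by
  classical
  have hsc : IsSepClosed Ω := IsSepClosure.sep_closed K
  have hgal : IsGalois K Ω := inferInstance
  have hL := locHyp_of_below h2 v (abK Ω v) (below_abK Ω v) hπ
  have hsgI : sgK Ω v ∈ iner K (abK Ω v) := sgK_iner h2 v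
  have ha : ∀ l, sgK Ω v (a l) = a l := by
    intro l
    rw [← pm_spec K a, hI _ hsgI]
    rfl
  have hsg := (sgK_tg (Om := Ω) h2 v).isSg hL
  have h20 : (2 : Ω) ≠ 0 := HypA.two a
  obtain ⟨ρ, hρ⟩ := Pool.Agent.Lib.SmD.exists_sqrt h20 (algebraMap K Ω (π : K))
  have hsgρ : sgK Ω v ρ = -ρ := by
    have h1 := SmF.chi_spec hρ (sgK Ω v)
    rw [hsg.2, ZMod.val_one, pow_one, neg_one_mul] at h1
    exact h1
  obtain ⟨Q0, hQ0⟩ := exists_half P.cl
  have hfix : ∀ s ∈ dec K (abK Ω v), E6.gTw K a chi s P.cl = P.cl := fun s hs =>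
    gTw_pt (hx s hs) (hy0 s hs) (hy1 s hs)
  have hkill : ∀ s ∈ dec K (abK Ω v), (2 : ℕ) • (E6.gTw K a chi s Q0 - Q0) = 0 := by
    intro s hs
    rw [smul_sub, ← map_nsmul, hQ0, hfix s hs, sub_self]
  obtain ⟨Q', ⟨t, ht⟩, hQ'⟩ := E6.e6_tw (k := k) a h2 hchi.2 hchi.1 (abK Ω v) (abK_ne_top Ω v) 1 Q0
    (fun s hs => by rw [pow_one]; exact hkill s hs)
  let Q : VN a := ⟨Q', t, ht⟩
  have hdl : ∀ s, ((SmN.dl chi Q s : VN a) : JJ (ff a)) = E6.gTw K a chi s Q' - Q' := fun s => rfl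
  have hdl2 : ∀ s ∈ dec K (abK Ω v), (2 : ℕ) • SmN.dl chi Q s = 0 := by
    intro s hs
    apply Subtype.ext
    change (2 : ℕ) • ((SmN.dl chi Q s : VN a) : JJ (ff a)) = 0
    rw [hdl, ← hQ' s hs]
    exact hkill s hs
  obtain ⟨x1, hx1⟩ := iotaN_range _ (hdl2 _ (sgK_mem h2 v))
  obtain ⟨x2, hx2⟩ := iotaN_range _ (hdl2 _ (phK_mem v))
  have hW : (x1, x2) ∈ (sysN k K Ω a).W chi v := ⟨Q, hdl2, hx1.symm, hx2.symm⟩
  refine ⟨(x1, x2), hW, ?_⟩
  have hs0 : SmN.sgn 0 = 1 := rfl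
  have hact := act_of_sub (K := K) (s := sgK Ω v) (Q := Q0) (x := x1) (by
    rw [hx1, hdl, ← hQ' _ (sgK_mem h2 v), E6.gTw_apply, h0, hs0, one_smul])
  have h5 := SmN.Mult.half_pt hL hsgI ha (map_ffN K a (sgK Ω v)) hρ hsgρ
    (hx _ (sgK_mem h2 v)) (hyI _ hsgI) hQ0.symm hm (even_card_filter x1) hact
  rcases h.fst h2 hinf hchi h0 _ hW with h6 | h6
  · exfalso
    have h7 : x1 = 0 := h6
    rw [Finset.mem_filter, h7] at h5
    have h8 : (0 : ZMod 2) = 1 := h5.2
    exact absurd h8 (by decide)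
  · exact h6

omit [HypA a] [Finite k] [Algebra (RatFunc k) K] [IsScalarTower k (RatFunc k) K]
  [FiniteDimensional (RatFunc k) K] in
/-- characters have finite level -/
theorem finOn_hom {chi : (Ω ≃ₐ[K] Ω) → ZMod 2}
    (hfin : ∃ N ∈ NP K Ω, ∀ s, ∀ n ∈ N, chi (s * n) = chi s) (D : Subgroup (Ω ≃ₐ[K] Ω)) :
    FinOn D chi := by
  have hgal : IsGalois K Ω := inferInstance
  obtain ⟨N, hN, hN'⟩ := hfin
  obtain ⟨L, hL1, -, -, hL4⟩ := exists_field_of_mem_NP hN
  refine ⟨L, hL1, ?_⟩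
  intro s _ t _ hst
  have h1 : s⁻¹ * t ∈ N := by
    rw [← hL4, IntermediateField.mem_fixingSubgroup_iff]
    intro x hx
    rw [AlgEquiv.mul_apply, ← hst x hx]
    exact AlgEquiv.symm_apply_apply s x
  have h3 := hN' s _ h1
  rw [mul_inv_cancel_left] at h3
  exact h3.symm

/-- **K3**: one of the two Kummer groups has a ramified element. -/
theorem Node.K3 [Algebra.IsSeparable (RatFunc k) K] (h : Node a v i j) (h2 : (2 : k) ≠ 0)
    (hinf : Infinite K) (hI : ∀ s ∈ iner K (abK Ω v), pm K a s = 1)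
    {π : v.ring} (hπ : Irreducible π) {n : ℤ} (hn1 : 1 ≤ n)
    (hn : (abK Ω v).valuation (a i - a j) =
      (abK Ω v).valuation (algebraMap K Ω (π : K)) ^ n)
    {chi chi' : (Ω ≃ₐ[K] Ω) → ZMod 2} (hchi : (sysN k K Ω a).HomG chi)
    (hchi' : (sysN k K Ω a).HomG chi') (h0 : chi (sgK Ω v) = 0) (h0' : chi' (sgK Ω v) = 0)
    (hp0 : chi (phK Ω v) = 0) (hp1 : chi' (phK Ω v) = 1) :
    (∃ x ∈ (sysN k K Ω a).W chi v, x.1 = dd i j) ∨
      ∃ x ∈ (sysN k K Ω a).W chi' v, x.1 = dd i j := by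
  classical
  have hsc : IsSepClosed Ω := IsSepClosure.sep_closed K
  have hgal : IsGalois K Ω := inferInstance
  have hL := locHyp_of_below h2 v (abK Ω v) (below_abK Ω v) hπ
  have hsg := (sgK_tg (Om := Ω) h2 v).isSg hL
  have h20 : (2 : Ω) ≠ 0 := HypA.two a
  have hlt : (abK Ω v).valuation (a i - a j) < 1 := by
    rw [hn, zpow_lt_one_iff_right_of_lt_one₀ hL.pi_pos hL.pi_lt]
    omega
  obtain ⟨P, ⟨m, hm⟩, hx, hy, hy0, hyI⟩ := SmN.Mult.exists_pt hL h.ne h.unit hn1 hn (map_ffN K a)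
    (fun s hs => by
      rcases h.stab hlt hs with ⟨h3, h4⟩ | ⟨h3, h4⟩
      · rw [← pm_spec K a s i, ← pm_spec K a s j, h3, h4]
      · rw [← pm_spec K a s i, ← pm_spec K a s j, h3, h4, add_comm])
  let c : (Ω ≃ₐ[K] Ω) → ZMod 2 := fun s => if s P.y = P.y then 0 else 1
  have hneg : ∀ z : Ω, z ≠ 0 → -z ≠ z := by
    intro z hz h3
    have h4 : 2 * z = 0 := by linear_combination -h3
    exact hz ((mul_eq_zero.mp h4).resolve_left h20)
  have hc0 : ∀ s, s P.y = P.y → c s = 0 := fun s hs => if_pos hs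
  have hc1 : ∀ s, s P.y = -P.y → c s = 1 := fun s hs => if_neg (by rw [hs]; exact hneg _ hy0)
  have hc0' : ∀ s ∈ dec K (abK Ω v), c s = 0 → s P.y = P.y := by
    intro s hs h3
    by_contra h4
    simp only [c, if_neg h4] at h3
    exact one_ne_zero h3
  have hc1' : ∀ s ∈ dec K (abK Ω v), c s = 1 → s P.y = -P.y := by
    intro s hs h3
    rcases hy s hs with h4 | h4
    · rw [hc0 s h4] at h3
      exact absurd h3 zero_ne_one
    · exact h4
  have hchom : ∀ s ∈ dec K (abK Ω v), ∀ t ∈ dec K (abK Ω v), c (s * t) = c s + c t := by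
    intro s hs t ht
    rcases hy s hs with h3 | h3 <;> rcases hy t ht with h4 | h4
    · rw [hc0 s h3, hc0 t h4, hc0 _ (by rw [AlgEquiv.mul_apply, h4, h3])]
      rfl
    · rw [hc0 s h3, hc1 t h4, hc1 _ (by rw [AlgEquiv.mul_apply, h4, map_neg, h3])]
      rfl
    · rw [hc1 s h3, hc0 t h4, hc1 _ (by rw [AlgEquiv.mul_apply, h4, h3])]
      rfl
    · rw [hc1 s h3, hc1 t h4, hc0 _ (by rw [AlgEquiv.mul_apply, h4, map_neg, h3, neg_neg])]
      rfl
  have hcfin : FinOn (dec K (abK Ω v)) c := by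
    refine ⟨IntermediateField.adjoin K {P.y},
      IntermediateField.adjoin.finiteDimensional (Algebra.IsIntegral.isIntegral P.y), ?_⟩
    intro s _ t _ hst
    have h1 := hst P.y (IntermediateField.mem_adjoin_simple_self K P.y)
    simp only [c, h1]
  have key : ∀ chi0 : (Ω ≃ₐ[K] Ω) → ZMod 2, (sysN k K Ω a).HomG chi0 → chi0 (sgK Ω v) = 0 →
      chi0 (phK Ω v) = c (phK Ω v) → ∃ x ∈ (sysN k K Ω a).W chi0 v, x.1 = dd i j := by
    intro chi0 hchi0 h3 h4
    have h5 := hom_ext hL hsg (phK_frob (Om := Ω) v) (fun s _ t _ => hchi0.2 s t)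
      (finOn_hom hchi0.1 _) hchom hcfin (by rw [h3, hc0 _ (hyI _ (sgK_iner h2 v))]) h4
    exact h.K3a h2 hinf hI hπ hm hx hyI hchi0 h3
      (fun s hs h6 => hc0' s hs (by rw [← h5 s hs, h6]))
      (fun s hs h6 => hc1' s hs (by rw [← h5 s hs, h6]))
  have h01 : c (phK Ω v) = 0 ∨ c (phK Ω v) = 1 := by
    have key : ∀ x : ZMod 2, x = 0 ∨ x = 1 := by decide
    exact key _
  rcases h01 with h3 | h3
  · exact Or.inl (key chi hchi h0 (by rw [hp0, h3]))
  · exact Or.inr (key chi' hchi' h0' (by rw [hp1, h3]))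

/-- The Kummer groups are different. -/
theorem Node.W_ne [Algebra.IsSeparable (RatFunc k) K] (h : Node a v i j) (h2 : (2 : k) ≠ 0)
    (hinf : Infinite K) {T0 : Set (Place k K)} (hok : (sysT k K Ω a T0).Ok)
    (hI : ∀ s ∈ iner K (abK Ω v), pm K a s = 1)
    {π : v.ring} (hπ : Irreducible π) {n : ℤ} (hn1 : 1 ≤ n)
    (hn : (abK Ω v).valuation (a i - a j) =
      (abK Ω v).valuation (algebraMap K Ω (π : K)) ^ n)
    {chi chi' : (Ω ≃ₐ[K] Ω) → ZMod 2} (hchi : (sysT k K Ω a T0).HomG chi)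
    (hchi' : (sysT k K Ω a T0).HomG chi') (h0 : chi (sgK Ω v) = 0) (h0' : chi' (sgK Ω v) = 0)
    (hp0 : chi (phK Ω v) = 0) (hp1 : chi' (phK Ω v) = 1) :
    (sysT k K Ω a T0).W chi v ≠ (sysT k K Ω a T0).W chi' v := by
  have hsc : IsSepClosed Ω := IsSepClosure.sep_closed K
  have hgal : IsGalois K Ω := inferInstance
  have hL := locHyp_of_below h2 v (abK Ω v) (below_abK Ω v) hπ
  have hlt : (abK Ω v).valuation (a i - a j) < 1 := by
    rw [hn, zpow_lt_one_iff_right_of_lt_one₀ hL.pi_pos hL.pi_lt]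
    omega
  have hsgI : sgK Ω v ∈ iner K (abK Ω v) := sgK_iner h2 v
  have hac : acN K a (sgK Ω v) = 1 := by
    change permE g (pm K a (sgK Ω v)) = 1
    rw [hI _ hsgI, map_one]
  have hph : acN K a (phK Ω v) (dd i j) = dd i j := permE_dd (h.stab hlt (phK_mem v))
  intro he
  have key : ∀ x ∈ (sysT k K Ω a T0).W chi v, x.1 = dd i j →
      x ∉ (sysT k K Ω a T0).W chi' v := by
    intro x hx hx1
    exact SmN.Sys.ram_ne hok h0 h0' hp0 hp1 hac (dd_ne h.ne) hph (I := iner K (abK Ω v))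
      (iner_le_dec K _) (hom_inerK h2 hchi.2 hchi.1 h0) (hom_inerK h2 hchi'.2 hchi'.1 h0')
      (fun s hs => by
        have h3 := iner_conj ((dec K (abK Ω v)).inv_mem (phK_mem (Om := Ω) v)) hs
        rw [inv_inv] at h3
        exact h3)
      (fun B hB hB' => K0 h2 hok hI B hB hB')
      (fun Q hQ => h.K1 h2 hinf Q hQ)
      (fun Q d hQ hd => h.K2 h2 hI Q d hQ hd) hx hx1
  rcases h.K3 h2 hinf hI hπ hn1 hn hchi hchi' h0 h0' hp0 hp1 with ⟨x, hx, hx1⟩ | ⟨x, hx, hx1⟩
  · exact key x hx hx1 (he ▸ hx)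
  · exact key x (he ▸ hx) hx1 hx

/-- **A node of even thickness**: `v` is a flip place. -/
theorem nodeB [Algebra.IsSeparable (RatFunc k) K] (h : Node a v i j) (h2 : (2 : k) ≠ 0)
    (hinf : Infinite K) {T0 : Set (Place k K)} (hok : (sysT k K Ω a T0).Ok)
    (hg : ((2 * g + 1).factorial : K) ≠ 0)
    {π : v.ring} (hπ : Irreducible π) {n : ℤ} (hn1 : 1 ≤ n)
    (hn : (abK Ω v).valuation ((a i - a j) ^ 2) =
      (abK Ω v).valuation (algebraMap K Ω (π : K)) ^ (2 * n)) :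
    SmN.Half.Flip (sysT k K Ω a T0) v := by
  have hsc : IsSepClosed Ω := IsSepClosure.sep_closed K
  have hgal : IsGalois K Ω := inferInstance
  have hL := locHyp_of_below h2 v (abK Ω v) (below_abK Ω v) hπ
  have hI : ∀ s ∈ iner K (abK Ω v), pm K a s = 1 := fun s hs => h.fixAll h2 hπ hn hs
  have hn' : (abK Ω v).valuation (a i - a j) =
      (abK Ω v).valuation (algebraMap K Ω (π : K)) ^ n := by
    rw [map_pow, mul_comm, zpow_mul, zpow_ofNat] at hn
    exact (pow_left_inj₀ zero_le zero_le two_ne_zero).mp hn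
  have hlt : (abK Ω v).valuation (a i - a j) < 1 := by
    rw [hn', zpow_lt_one_iff_right_of_lt_one₀ hL.pi_pos hL.pi_lt]
    omega
  have hsgI : sgK Ω v ∈ iner K (abK Ω v) := sgK_iner h2 v
  have hac : acN K a (sgK Ω v) = 1 := by
    change permE g (pm K a (sgK Ω v)) = 1
    rw [hI _ hsgI, map_one]
  have hph : acN K a (phK Ω v) (dd i j) = dd i j := permE_dd (h.stab hlt (phK_mem v))
  intro chi chi' hchi hchi' h0 h0' hne
  have h01 : ∀ x y : ZMod 2, x ≠ y → (x = 0 ∧ y = 1) ∨ (y = 0 ∧ x = 1) := by decide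
  have hW : (sysT k K Ω a T0).W chi v ≠ (sysT k K Ω a T0).W chi' v := by
    rcases h01 _ _ hne with ⟨h3, h4⟩ | ⟨h3, h4⟩
    · exact h.W_ne h2 hinf hok hI hπ hn1 hn' hchi hchi' h0 h0' h3 h4
    · exact (h.W_ne h2 hinf hok hI hπ hn1 hn' hchi' hchi h0' h0 h3 h4).symm
  exact SmN.Sys.flip_even hok (locDT (k := k) (K := K) h2 hg T0) hchi hchi' hac (dd_ne h.ne) hph
    (h.fst h2 hinf hchi h0) (h.fst h2 hinf hchi' h0') hW

/-- A place with one node is a flip place: `n` is the value of `(a i - a j) ^ 2`. -/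
theorem flip_val [Algebra.IsSeparable (RatFunc k) K] (h : Node a v i j) (h2 : (2 : k) ≠ 0)
    (hinf : Infinite K) {T0 : Set (Place k K)} (hok : (sysT k K Ω a T0).Ok)
    (hg : ((2 * g + 1).factorial : K) ≠ 0)
    {π : v.ring} (hπ : Irreducible π) {n : ℤ} (hn1 : 1 ≤ n)
    (hn : (abK Ω v).valuation ((a i - a j) ^ 2) =
      (abK Ω v).valuation (algebraMap K Ω (π : K)) ^ n) :
    SmN.Half.Flip (sysT k K Ω a T0) v := by
  rcases Int.even_or_odd' n with ⟨m, hm | hm⟩
  · exact nodeB h h2 hinf hok hg hπ (n := m) (by omega) (by rw [hn, hm])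
  · intro chi chi' hchi hchi' h0 h0' _
    exact nodeA h h2 hinf hok hπ (n := m) (by rw [hn, hm]) hchi hchi' h0 h0'

/-- **A place with one node is a flip place.** -/
theorem flip_node [Algebra.IsSeparable (RatFunc k) K] (h : Node a v i j) (h2 : (2 : k) ≠ 0)
    (hinf : Infinite K) {T0 : Set (Place k K)} (hok : (sysT k K Ω a T0).Ok)
    (hg : ((2 * g + 1).factorial : K) ≠ 0)
    (hlt : (abK Ω v).valuation (a i - a j) < 1) : SmN.Half.Flip (sysT k K Ω a T0) v := by
  have hsc : IsSepClosed Ω := IsSepClosure.sep_closed K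
  have hgal : IsGalois K Ω := inferInstance
  obtain ⟨π, hπ⟩ := IsDiscreteValuationRing.exists_irreducible v.ring
  have hL := locHyp_of_below h2 v (abK Ω v) (below_abK Ω v) hπ
  have h0 : (a i - a j) ^ 2 ≠ 0 :=
    pow_ne_zero 2 fun h3 => h.ne (HypA.inj (a := a) (sub_eq_zero.mp h3))
  obtain ⟨n, hn⟩ := value_iner hL h0 (by
    intro s hs
    rw [map_pow, map_sub]
    rcases h.stab hlt (iner_le_dec K _ hs) with ⟨h3, h4⟩ | ⟨h3, h4⟩
    · rw [← pm_spec K a s i, ← pm_spec K a s j, h3, h4]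
    · rw [← pm_spec K a s i, ← pm_spec K a s j, h3, h4]
      ring)
  refine flip_val h h2 hinf hok hg hπ ?_ hn
  have h1 : (abK Ω v).valuation ((a i - a j) ^ 2) < 1 := by
    rw [map_pow]
    exact pow_lt_one₀ zero_le hlt two_ne_zero
  rw [hn, zpow_lt_one_iff_right_of_lt_one₀ hL.pi_pos hL.pi_lt] at h1
  omega

end node

end Pool.Agent.SmNJ
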