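import Pool.Agent.Lib.SmNJ.Weil
import Pool.Agent.Lib.SmN.R.TsenK
import Pool.Agent.Lib.SmN.P.ParS

/-!
SMITH for Jacobians without rational 2-torsion (MP_950c68_ag), module RecN: reciprocity for the
instance `sysN` (2-cocycles with values in `ZMod 2` and in the 2-power roots of unity), the local
quadratic forms, the alternating tower.
-/

set_option autoImplicit false

namespace Pool.Agent.SmNJ

open Pool.Agent.SmJ Pool.Agent.SmP Pool.Agent.SmN Pool.Agent.SmN.Loc Pool.Agent.SmN.R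
open Pool.Agent.SmJ.L (EV)
open Pool.Agent.BSDFF Pool.Agent.GBU Pool.Agent.SmD Pool.Agent.Lib.SmD

variable {k K Ω : Type} [Field k] [Finite k] [Field K] [Algebra k K] [Algebra (RatFunc k) K]
  [IsScalarTower k (RatFunc k) K] [FiniteDimensional (RatFunc k) K]
  [Algebra.IsSeparable (RatFunc k) K] [Field Ω] [Algebra K Ω] [IsSepClosure K Ω]
  {g : ℕ} {a : Fin (2 * g + 1) → Ω} [RtG K a] [HypA a]

omit [Algebra.IsSeparable (RatFunc k) K] in
theorem mactN (h2 : (2 : k) ≠ 0) : (sysN k K Ω a).MAct (hfM Ω) qK := by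
  have hsc : IsSepClosed Ω := IsSepClosure.sep_closed K
  have hg : IsGalois K Ω := IsSepClosure.isGalois
  have h20 : (2 : Ω) ≠ 0 := two_neO (two_neK (K := K) h2)
  exact ⟨(locMN h2).sg, (locMN h2).phi, hfM_inj h20, MuT.two h20⟩

/-- Reciprocity with values in the 2-power roots of unity. -/
theorem recMN (h2 : (2 : k) ≠ 0) : (sysN k K Ω a).RecM (MuT Ω) qK :=
  recMK h2 _ rfl (fun _ => rfl) (fun _ => rfl)

/-- Reciprocity with values in `ZMod 2`. -/
theorem recIN (h2 : (2 : k) ≠ 0) : (sysN k K Ω a).RecI qK :=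
  recIK h2 _ rfl (fun _ => rfl) (fun _ => rfl)

theorem recipMN (h2 : (2 : k) ≠ 0) (hn : ((2 * g + 1).factorial : K) ≠ 0) :
    (sysN k K Ω a).RecipM (hfM Ω) :=
  Sys.recipM_of_recM (locDN h2 hn) (mactN h2) (recMN h2)

theorem recipZN (h2 : (2 : k) ≠ 0) (hn : ((2 * g + 1).factorial : K) ≠ 0) :
    (sysN k K Ω a).RecipZ :=
  Sys.recipZ_of (locDN h2 hn) (recIN h2)

/-- The local quadratic forms, no hypothesis on the reciprocity (`Infinite Ω`: `infinite_Om k K Ω`). -/
theorem qokN_all [Infinite Ω] (h2 : (2 : k) ≠ 0) (hn : ((2 * g + 1).factorial : K) ≠ 0)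
    (hOk : (sysN k K Ω a).Ok) :
    (sysN k K Ω a).QOk (qform (sysN k K Ω a)
      (fun m x y => wM m (x : JJ (ff a)) (y : JJ (ff a))) (hfM Ω) qK) :=
  qokN h2 hn hOk (recIN h2)

/-- The tower of any twist is alternating. -/
theorem altnN (h2 : (2 : k) ≠ 0) (hn : ((2 * g + 1).factorial : K) ≠ 0)
    (hOk : (sysN k K Ω a).Ok) {chi : (Ω ≃ₐ[K] Ω) → ZMod 2} (hchi : (sysN k K Ω a).HomG chi) :
    (Sys.twS (sysN k K Ω a) hOk chi).Altn := by
  have hinf : Infinite Ω := infinite_Om k K Ω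
  have hsc : IsSepClosed Ω := IsSepClosure.sep_closed K
  exact Sys.altn_twS hOk hchi (weilN k) (qinvN k) (recipMN h2 hn)

end Pool.Agent.SmNJ
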