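import Pool.Agent.Lib.GBC.E.Main
import Pool.Agent.Lib.GBU.Eff
import Pool.Agent.Lib.SmBU.KDefs
import Pool.Agent.Lib.SmN.Ch.Main
import Pool.Agent.Lib.SmN.K.Lower

/-!
SMITH-U: the prime system of the places of `K` outside of a finite set.

`exists_prK` : for `N ≥ 1` the primes of `AA k K` of degree `N` correspond to the places of degree `N`
over `RA k K`; `xok_of` : `(XX T degree).Ok q`, `q = #k`, from the prime number theorem for the primes
of `AA k K`.
-/

set_option autoImplicit false

open Polynomial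

namespace Pool.Agent.SmNJ

open Pool.Agent.BSDFF Pool.Agent.GBC Pool.Agent.GBU Pool.Agent.SmB Pool.Agent.SmBU
open Pool.Agent.SmN (PSys)
open Pool.Agent.SmN.Ch (XX)

section place

variable (k K : Type) [Field k] [Finite k] [Field K] [Algebra k K] [Algebra (RatFunc k) K]
  [IsScalarTower k (RatFunc k) K] [FiniteDimensional (RatFunc k) K]
  [Algebra.IsSeparable (RatFunc k) K] [Algebra k[X] K] [IsScalarTower k[X] (RatFunc k) K]

private theorem XOk_cX (h : k[X]) : cX k K h = algebraMap k[X] K h := by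
  rw [cX, RingHom.comp_apply, ← IsScalarTower.algebraMap_apply k[X] (RatFunc k) K]

private theorem XOk_mem (x : K) : x ∈ RA k K ↔ x ∈ AA k K := by
  have h : (cX k K) = algebraMap k[X] K := RingHom.ext (XOk_cX k K)
  change (cX k K).IsIntegralElem x ↔ (algebraMap k[X] K).IsIntegralElem x
  rw [h]

/-- The two integral closures agree. -/
noncomputable def eRA : RA k K ≃+* AA k K where
  toFun x := ⟨x.1, (XOk_mem k K x.1).1 x.2⟩
  invFun x := ⟨x.1, (XOk_mem k K x.1).2 x.2⟩
  left_inv _ := rfl
  right_inv _ := rfl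
  map_mul' _ _ := rfl
  map_add' _ _ := rfl

/-- The primes of degree `N` and the places of degree `N`. -/
theorem exists_prK (N : ℕ) :
    ∃ F : {w : Place k K // Over (RA k K) w ∧ w.degree = N} → {v // v ∈ PrK k K N},
      Function.Bijective F := by
  obtain ⟨G, hA, -, -, -⟩ := exists_geo k K
  have hded : IsDedekindDomain (RA k K) := dedRA k K
  have hfrac : IsFractionRing (RA k K) K := fracRA k K
  have hq : 2 ≤ Nat.card k := Finite.one_lt_card
  have hcard : ∀ (w : Place k K) (hw : Over (RA k K) w),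
      Nat.card (AA k K ⧸ (cen (RA k K) w hw).comap (eRA k K).symm) = Nat.card k ^ w.degree := by
    intro w hw
    rw [← G.card_residue w]
    have e1 : (RA k K ⧸ cen (RA k K) w hw) ≃+* IsLocalRing.ResidueField w.ring :=
      RingHom.quotientKerEquivOfSurjective (toRes_surjective (RA k K) hw)
    have e2 : (AA k K ⧸ (cen (RA k K) w hw).comap (eRA k K).symm) ≃+*
        (RA k K ⧸ cen (RA k K) w hw) :=
      Ideal.quotientEquiv _ _ (eRA k K).symm
        (Ideal.map_comap_of_surjective _ (eRA k K).symm.surjective _).symm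
    exact Nat.card_congr (e2.trans e1).toEquiv
  refine ⟨fun w => ⟨(cen (RA k K) w.1 w.2.1).comap (eRA k K).symm, ?_, ?_, ?_⟩, ?_, ?_⟩
  · have := (cen_isMaximal (RA k K) w.2.1).isPrime
    exact Ideal.comap_isPrime _ _
  · intro h
    refine cen_ne_bot (RA k K) w.2.1 ?_
    rw [eq_bot_iff]
    intro x hx
    have h1 : eRA k K x ∈ (cen (RA k K) w.1 w.2.1).comap (eRA k K).symm := by
      rw [Ideal.mem_comap, RingEquiv.symm_apply_apply]
      exact hx
    rw [h, Ideal.mem_bot] at h1
    rw [Ideal.mem_bot]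
    exact (map_eq_zero_iff _ (eRA k K).injective).1 h1
  · rw [hcard, w.2.2]
  · intro w w' h
    have h1 : (cen (RA k K) w.1 w.2.1).comap (eRA k K).symm =
        (cen (RA k K) w'.1 w'.2.1).comap (eRA k K).symm := congrArg Subtype.val h
    have h2 : cen (RA k K) w.1 w.2.1 = cen (RA k K) w'.1 w'.2.1 := by
      ext x
      have h3 := Ideal.ext_iff.1 h1 (eRA k K x)
      rw [Ideal.mem_comap, Ideal.mem_comap, RingEquiv.symm_apply_apply] at h3
      exact h3
    exact Subtype.ext (cen_injective (RA k K) w.2.1 w'.2.1 h2)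
  · rintro ⟨v, hv, hv0, hvN⟩
    have hP : (v.comap (eRA k K)).IsPrime := Ideal.comap_isPrime _ _
    have hP0 : v.comap (eRA k K) ≠ ⊥ := by
      intro h
      refine hv0 ?_
      rw [eq_bot_iff]
      intro x hx
      have h1 : (eRA k K).symm x ∈ v.comap (eRA k K) := by
        rw [Ideal.mem_comap, RingEquiv.apply_symm_apply]
        exact hx
      rw [h, Ideal.mem_bot] at h1
      rw [Ideal.mem_bot]
      exact (map_eq_zero_iff _ (eRA k K).symm.injective).1 h1
    obtain ⟨w, hw, hcen⟩ := exists_place (RA k K) _ (hP.isMaximal hP0) hP0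
    have hv' : (cen (RA k K) w hw).comap (eRA k K).symm = v := by
      ext x
      rw [hcen, Ideal.mem_comap, Ideal.mem_comap, RingEquiv.apply_symm_apply]
    refine ⟨⟨w, hw, ?_⟩, Subtype.ext hv'⟩
    have h1 := hcard w hw
    rw [hv', hvN] at h1
    exact (Nat.pow_right_injective hq h1).symm

variable {k K}

/-- **The prime system of the places outside of a finite set**, from the prime number theorem for
the primes of `AA k K`. -/
theorem xok_of (h : ∃ C : ℝ, ∀ N : ℕ, 1 ≤ N → ∀ S : Finset (Ideal (AA k K)),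
      (∀ v, v ∈ S ↔ v ∈ PrK k K N) →
      |(N : ℝ) * S.card - (Nat.card k : ℝ) ^ N| ≤ C * √((Nat.card k : ℝ) ^ (N + 1)))
    {T : Set (Place k K)} (hT : T.Finite) : (XX T Place.degree).Ok (Nat.card k) := by
  classical
  obtain ⟨G, hA, hB, -, -⟩ := exists_geo k K
  have hq : 2 ≤ Nat.card k := Finite.one_lt_card
  have hq' : (2 : ℝ) ≤ Nat.card k := by exact_mod_cast hq
  have hfinD : ∀ d, {w : Place k K | w.degree = d}.Finite := fun d =>
    (finite_deg_le G d).subset fun w hw => le_of_eq hw
  have hpos : ∀ w : Place k K, 1 ≤ w.degree := G.degree_pos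
  have hfin : ∀ d, Finite ((XX T Place.degree).Of d) := by
    intro d
    have h1 := (hfinD d).to_subtype
    exact Finite.of_injective (β := {w : Place k K | w.degree = d})
      (fun P => ⟨P.1.1, P.2⟩) fun P P' hPP => by
        apply Subtype.ext
        apply Subtype.ext
        exact Subtype.mk_eq_mk.1 hPP
  refine PSys.Pnt.ok ⟨hq, fun P => hpos P.1, hfin, ?_⟩
  obtain ⟨C, hC⟩ := h
  -- the exceptional places
  set E : Set (Place k K) := T ∪ {w | Over G.B w} with hE
  have hEf : E.Finite := hT.union G.finite_inf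
  obtain ⟨M, hM⟩ : ∃ M : ℕ, ∀ w ∈ E, w.degree ≤ M := by
    refine ⟨hEf.toFinset.sup Place.degree, fun w hw => ?_⟩
    exact Finset.le_sup (f := Place.degree) (hEf.mem_toFinset.2 hw)
  have hA' : ∀ w : Place k K, w ∉ E → Over (RA k K) w := by
    intro w hw
    rcases G.places w with h1 | h1
    · rw [← hA]
      exact h1
    · exact absurd (Or.inr h1) hw
  refine ⟨|C| * √(Nat.card k : ℝ) + M * hEf.toFinset.card, fun d hd => ?_⟩
  -- the primes of degree `d`
  obtain ⟨F, hF⟩ := exists_prK k K d
  have hWf : {w : Place k K | Over (RA k K) w ∧ w.degree = d}.Finite :=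
    (hfinD d).subset fun w hw => hw.2
  have hPf : (PrK k K d).Finite := by
    have : Finite {w : Place k K // Over (RA k K) w ∧ w.degree = d} := hWf.to_subtype
    exact Set.finite_coe_iff.1 (Finite.of_surjective F hF.2)
  have h1 := hC d hd hPf.toFinset fun v => Set.Finite.mem_toFinset _
  have h2 : hPf.toFinset.card = hWf.toFinset.card := by
    rw [← Nat.card_eq_card_finite_toFinset, ← Nat.card_eq_card_finite_toFinset]
    exact (Nat.card_congr (Equiv.ofBijective F hF)).symm
  have h3 : Nat.card ((XX T Place.degree).Of d) =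
      ((hfinD d).toFinset.filter fun w => w ∉ T).card := by
    refine Nat.card_congr ?_ |>.trans (Nat.card_eq_fintype_card.trans (Fintype.card_coe _))
    exact {
      toFun := fun P => ⟨P.1.1, Finset.mem_filter.2 ⟨(hfinD d).mem_toFinset.2 P.2, P.1.2⟩⟩
      invFun := fun w => ⟨⟨w.1, (Finset.mem_filter.1 w.2).2⟩,
        (hfinD d).mem_toFinset.1 (Finset.mem_filter.1 w.2).1⟩
      left_inv := fun _ => rfl
      right_inv := fun _ => rfl }
  set U := (hfinD d).toFinset.filter fun w => w ∉ T with hU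
  set W := hWf.toFinset with hW
  set Ed := hEf.toFinset.filter fun w => w.degree = d with hEd
  have h4 : U.card ≤ W.card + Ed.card := by
    refine (Finset.card_le_card ?_).trans (Finset.card_union_le _ _)
    intro w hw
    rw [hU, Finset.mem_filter, Set.Finite.mem_toFinset] at hw
    rw [Finset.mem_union, hW, Set.Finite.mem_toFinset, hEd, Finset.mem_filter,
      Set.Finite.mem_toFinset]
    by_cases h5 : w ∈ E
    · exact Or.inr ⟨h5, hw.1⟩
    · exact Or.inl ⟨hA' w h5, hw.1⟩
  have h5 : W.card ≤ U.card + Ed.card := by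
    refine (Finset.card_le_card ?_).trans (Finset.card_union_le _ _)
    intro w hw
    rw [hW, Set.Finite.mem_toFinset] at hw
    rw [Finset.mem_union, hU, Finset.mem_filter, Set.Finite.mem_toFinset, hEd, Finset.mem_filter,
      Set.Finite.mem_toFinset]
    by_cases h6 : w ∈ T
    · exact Or.inr ⟨Or.inl h6, hw.2⟩
    · exact Or.inl ⟨hw.2, h6⟩
  have h6 : (d : ℝ) * Ed.card ≤ M * hEf.toFinset.card := by
    rcases Ed.eq_empty_or_nonempty with he | ⟨w, hw⟩
    · rw [he, Finset.card_empty, Nat.cast_zero, mul_zero]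
      positivity
    · rw [hEd, Finset.mem_filter, Set.Finite.mem_toFinset] at hw
      have h7 : d ≤ M := hw.2 ▸ hM w hw.1
      have h8 : Ed.card ≤ hEf.toFinset.card := Finset.card_filter_le _ _
      exact_mod_cast Nat.mul_le_mul h7 h8
  have h7 : |(d : ℝ) * U.card - (d : ℝ) * W.card| ≤ M * hEf.toFinset.card := by
    refine le_trans ?_ h6
    rw [← mul_sub, abs_mul, abs_of_nonneg (Nat.cast_nonneg d)]
    refine mul_le_mul_of_nonneg_left ?_ (Nat.cast_nonneg d)
    have h8 : (U.card : ℝ) ≤ W.card + Ed.card := by exact_mod_cast h4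
    have h9 : (W.card : ℝ) ≤ U.card + Ed.card := by exact_mod_cast h5
    rw [abs_le]
    constructor <;> linarith
  rw [h2] at h1
  rw [h3]
  have h8 : √((Nat.card k : ℝ) ^ (d + 1)) = √(Nat.card k : ℝ) * √((Nat.card k : ℝ) ^ d) := by
    rw [pow_succ', Real.sqrt_mul (by positivity)]
  have h9 : 1 ≤ √((Nat.card k : ℝ) ^ d) := by
    rw [Real.one_le_sqrt]
    exact one_le_pow₀ (by linarith)
  have h10 : C * √((Nat.card k : ℝ) ^ (d + 1)) ≤ |C| * √((Nat.card k : ℝ) ^ (d + 1)) :=
    mul_le_mul_of_nonneg_right (le_abs_self C) (Real.sqrt_nonneg _)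
  have h11 : (0 : ℝ) ≤ M * hEf.toFinset.card := by positivity
  calc |(d : ℝ) * U.card - (Nat.card k : ℝ) ^ d|
      = |((d : ℝ) * U.card - (d : ℝ) * W.card) + ((d : ℝ) * W.card - (Nat.card k : ℝ) ^ d)| := by
        congr 1
        ring
    _ ≤ M * hEf.toFinset.card + |C| * √((Nat.card k : ℝ) ^ (d + 1)) :=
        (abs_add_le _ _).trans (add_le_add h7 (h1.trans h10))
    _ ≤ M * hEf.toFinset.card * √((Nat.card k : ℝ) ^ d) +
        |C| * (√(Nat.card k : ℝ) * √((Nat.card k : ℝ) ^ d)) := by
        rw [h8]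
        have := le_mul_of_one_le_right h11 h9
        linarith
    _ = _ := by ring

end place

end Pool.Agent.SmNJ
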